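import Mathlib

/-!
# The algebra of the rigid twelve-gon
-/

namespace Pool.Agent.U285.Scrib

theorem alg1 {ab ca ac cb bc mab mac : ℝ} (hab : 0 < ab) (hca : 0 < ca) (hcb : 0 < cb)
    (hmac : 0 < mac)
    (h1 : mab * (1 - bc * cb) * (ac - mac) = ac * mac * cb)
    (h2 : mac * cb = (ac - mac) * (ab * ca)) :
    mab * (1 - bc * cb) = ab * (ac * ca) := by
  have hp : 0 < ac - mac := by
    have h3 : 0 < (ac - mac) * (ab * ca) := by
      rw [← h2]
      positivity
    exact (pos_iff_pos_of_mul_pos h3).2 (by positivity)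
  have h4 : (ac - mac) * (mab * (1 - bc * cb) - ab * (ac * ca)) = 0 := by
    linear_combination h1 + ac * h2
  have := (mul_eq_zero.1 h4).resolve_left hp.ne'
  linarith

theorem alg2 {ab ba ca ac cb bc mac : ℝ} (hac : 0 < ac)
    (h2 : mac * cb = (ac - mac) * (ab * ca))
    (h3 : mac * (1 - bc * cb) = ac * (ab * ba)) :
    (ab * ba) * cb = (1 - bc * cb - ab * ba) * (ab * ca) := by
  have h4 : ac * ((ab * ba) * cb - (1 - bc * cb - ab * ba) * (ab * ca)) = 0 := by
    linear_combination (1 - bc * cb) * h2 - (cb + ab * ca) * h3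
  have := (mul_eq_zero.1 h4).resolve_left hac.ne'
  linarith

theorem alg3 {x y z t t' : ℝ} (hx : 0 < x) (hy : 0 < y) (hz : 0 < z) (ht : 0 < t) (ht' : 0 < t')
    (h1 : x * y = (1 - x - y) * t) (h2 : x * y = (1 - x - y) * t')
    (h3 : y * z = (1 - y - z) * t) (h4 : z * x = (1 - z - x) * t)
    (h5 : t * t' = x * y * z) :
    x = 1 / 4 ∧ y = 1 / 4 ∧ z = 1 / 4 ∧ t = 1 / 8 ∧ t' = 1 / 8 := by
  have hp : 0 < 1 - x - y := by
    have h6 : 0 < (1 - x - y) * t := by
      rw [← h1]
      positivity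
    exact (pos_iff_pos_of_mul_pos h6).2 ht
  have e1 : t' = t := by
    have h6 : (1 - x - y) * (t' - t) = 0 := by linear_combination h1 - h2
    have := (mul_eq_zero.1 h6).resolve_left hp.ne'
    linarith
  subst e1
  have e2 : x = z := by
    have h6 : (y + t') * (x - z) = 0 := by linear_combination h1 - h3
    have h7 : (0 : ℝ) < y + t' := by positivity
    have := (mul_eq_zero.1 h6).resolve_left h7.ne'
    linarith
  subst e2
  have e3 : y = x := by
    have h6 : (x + t') * (y - x) = 0 := by linear_combination h1 - h4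
    have h7 : (0 : ℝ) < x + t' := by positivity
    have := (mul_eq_zero.1 h6).resolve_left h7.ne'
    linarith
  subst e3
  have e4 : y ^ 3 * ((4 * y - 1) * (y - 1)) = 0 := by
    have h6 : y ^ 4 = (1 - 2 * y) ^ 2 * y ^ 3 := by
      have : y ^ 4 = (y * y) * (y * y) := by ring
      rw [this, h1]
      have h7 : t' * t' = y ^ 3 := by rw [h5]; ring
      rw [← h7]
      ring
    linear_combination -h6
  have e5 := (mul_eq_zero.1 e4).resolve_left (by positivity)
  have e6 : y = 1 / 4 := by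
    rcases mul_eq_zero.1 e5 with h | h
    · linarith
    · linarith
  subst e6
  have e7 : t' = 1 / 8 := by linarith
  exact ⟨rfl, rfl, rfl, e7, e7⟩

/-- The rigidity of the twelve-gon. -/
theorem alg {ab ba bc cb ca ac mab mac mba mbc mca mcb : ℝ}
    (hab : 0 < ab) (hba : 0 < ba) (hbc : 0 < bc) (hcb : 0 < cb) (hca : 0 < ca) (hac : 0 < ac)
    (hmab : 0 < mab) (hmac : 0 < mac) (hmba : 0 < mba) (hmbc : 0 < mbc) (hmca : 0 < mca)
    (hmcb : 0 < mcb)
    -- the order `A B C`
    (i1 : mab * (1 - bc * cb) * (ac - mac) = ac * mac * cb)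
    (j1 : mac * cb = (ac - mac) * (ab * ca))
    -- the order `A C B`
    (i2 : mac * (1 - cb * bc) * (ab - mab) = ab * mab * bc)
    (j2 : mab * bc = (ab - mab) * (ac * ba))
    -- the order `B A C`
    (i3 : mba * (1 - ac * ca) * (bc - mbc) = bc * mbc * ca)
    (j3 : mbc * ca = (bc - mbc) * (ba * cb))
    -- the order `B C A`
    (i4 : mbc * (1 - ca * ac) * (ba - mba) = ba * mba * ac)
    (j4 : mba * ac = (ba - mba) * (bc * ab))
    -- the order `C A B`
    (i5 : mca * (1 - ab * ba) * (cb - mcb) = cb * mcb * ba)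
    (j5 : mcb * ba = (cb - mcb) * (ca * bc))
    -- the order `C B A`
    (i6 : mcb * (1 - ba * ab) * (ca - mca) = ca * mca * ab)
    (j6 : mca * ab = (ca - mca) * (cb * ac)) :
    (ab * ba = 1 / 4 ∧ bc * cb = 1 / 4 ∧ ca * ac = 1 / 4 ∧ ab * bc * ca = 1 / 8 ∧
      ac * cb * ba = 1 / 8) ∧
    (mab = ab / 3 ∧ mac = ac / 3 ∧ mba = ba / 3 ∧ mbc = bc / 3 ∧ mca = ca / 3 ∧ mcb = cb / 3) := by
  have k1 := alg1 hab hca hcb hmac i1 j1
  have k2 := alg1 hac hba hbc hmab i2 j2
  have k3 := alg1 hba hcb hca hmbc i3 j3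
  have k4 := alg1 hbc hab hac hmba i4 j4
  have k5 := alg1 hca hbc hba hmcb i5 j5
  have k6 := alg1 hcb hac hab hmca i6 j6
  have l1 : (ab * ba) * cb = (1 - bc * cb - ab * ba) * (ab * ca) :=
    alg2 (ba := ba) (bc := bc) hac j1 (by linarith)
  have l6 : (cb * bc) * ab = (1 - ba * ab - cb * bc) * (cb * ac) :=
    alg2 (ba := bc) (bc := ba) hca j6 (by linarith)
  have l4 : (bc * cb) * ac = (1 - ca * ac - bc * cb) * (bc * ab) :=
    alg2 (ba := cb) (bc := ca) hba j4 (by linarith)
  have l5 : (ca * ac) * ba = (1 - ab * ba - ca * ac) * (ca * bc) :=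
    alg2 (ba := ac) (bc := ab) hcb j5 (by linarith)
  obtain ⟨x1, x2, x3, x4, x5⟩ := alg3 (x := ab * ba) (y := bc * cb) (z := ca * ac)
    (t := ab * bc * ca) (t' := ac * cb * ba) (by positivity) (by positivity) (by positivity)
    (by positivity) (by positivity)
    (by linear_combination bc * l1) (by linear_combination ba * l6)
    (by linear_combination ca * l4) (by linear_combination ab * l5) (by ring)
  refine ⟨⟨x1, x2, x3, x4, x5⟩, ?_, ?_, ?_, ?_, ?_, ?_⟩
  · rw [x2] at k1
    have : ac * ca = 1 / 4 := by linarith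
    rw [this] at k1
    linarith
  · have e1 : cb * bc = 1 / 4 := by linarith
    rw [e1, x1] at k2
    linarith
  · have e1 : ac * ca = 1 / 4 := by linarith
    rw [e1, x2] at k3
    linarith
  · have e1 : ba * ab = 1 / 4 := by linarith
    rw [x3, e1] at k4
    linarith
  · have e1 : cb * bc = 1 / 4 := by linarith
    rw [x1, e1] at k5
    linarith
  · have e1 : ba * ab = 1 / 4 := by linarith
    rw [e1, x3] at k6
    linarith

end Pool.Agent.U285.Scrib
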