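import Mathlib

/-!
# Definitions: polytopes in Euclidean space, faces, strong scribability
-/

namespace Pool.Agent.U285.Scrib.Euc

/-- Euclidean space of dimension `d`. -/
abbrev E (d : ℕ) : Type := EuclideanSpace ℝ (Fin d)

variable {d : ℕ}

/-- A `d`-polytope in `ℝ^d`: the convex hull of finitely many points, with nonempty interior. -/
def IsPolytope (P : Set (E d)) : Prop :=
  (∃ s : Finset (E d), P = convexHull ℝ (s : Set (E d))) ∧ (interior P).Nonempty

/-- `F` is a face of `P`: the set where a linear functional attains an upper bound `c` that is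
valid on `P` (this includes `∅` and `P`). -/
def IsFace (P F : Set (E d)) : Prop :=
  ∃ (l : E d →ₗ[ℝ] ℝ) (c : ℝ), (∀ x ∈ P, l x ≤ c) ∧ F = {x | x ∈ P ∧ l x = c}

/-- `F` is an `i`-face of `P`: a nonempty face of affine dimension `i`. -/
def IsDimFace (i : ℕ) (P F : Set (E d)) : Prop :=
  IsFace P F ∧ F.Nonempty ∧ Module.finrank ℝ (vectorSpan ℝ F) = i

/-- Combinatorial equivalence: the face lattices, ordered by inclusion, are isomorphic. -/
def CombEquiv (P Q : Set (E d)) : Prop :=
  Nonempty ({F : Set (E d) // IsFace P F} ≃o {F : Set (E d) // IsFace Q F})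

/-- The face `F` of `P` strongly avoids the unit sphere: some supporting hyperplane `l = c` of `P`
cuts out `F`, and the closed unit ball lies on the same closed side of it as `P`. -/
def StronglyAvoids (P F : Set (E d)) : Prop :=
  ∃ (l : E d →ₗ[ℝ] ℝ) (c : ℝ), l ≠ 0 ∧ (∀ x ∈ P, l x ≤ c) ∧ F = {x | x ∈ P ∧ l x = c} ∧
    ∀ x ∈ Metric.closedBall (0 : E d) 1, l x ≤ c

/-- The face `F` strongly cuts the unit sphere: its relative interior meets the closed unit
ball. -/
def StronglyCuts (F : Set (E d)) : Prop :=
  (intrinsicInterior ℝ F ∩ Metric.closedBall (0 : E d) 1).Nonempty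

/-- The combinatorial type of `P` is (strongly) `(i, j)`-scribable: it has a realization all of
whose `i`-faces strongly avoid and all of whose `j`-faces strongly cut the unit sphere. -/
def Scribable (i j : ℕ) (P : Set (E d)) : Prop :=
  ∃ Q : Set (E d), IsPolytope Q ∧ CombEquiv P Q ∧
    (∀ F, IsDimFace i Q F → StronglyAvoids Q F) ∧ (∀ F, IsDimFace j Q F → StronglyCuts F)

end Pool.Agent.U285.Scrib.Euc
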