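import Pool.Agent.U285.Scrib.Poly
import Pool.Agent.U285.Scrib.EucDefs

/-!
# From polytopes in Euclidean space to cones
-/

namespace Pool.Agent.U285.Scrib.Euc

open Submodule
open Pool.Agent.Helper101_Scrib (Amb conicHull linDim IsPolytopeCone sphBall)

variable {d : ℕ}

/-- The embedding of directions. -/
noncomputable def iota (d : ℕ) : E d →ₗ[ℝ] Amb d where
  toFun v := Fin.cons 0 (fun i => v i)
  map_add' v w := by
    ext i
    refine Fin.cases ?_ (fun j => ?_) i <;> simp
  map_smul' c v := by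
    ext i
    refine Fin.cases ?_ (fun j => ?_) i <;> simp

/-- The projection to the last coordinates. -/
noncomputable def tl (d : ℕ) : Amb d →ₗ[ℝ] E d where
  toFun y := WithLp.toLp 2 (fun i => y i.succ)
  map_add' v w := by ext i; simp
  map_smul' c v := by ext i; simp

/-- Homogenization of a point. -/
noncomputable def hom (x : E d) : Amb d := Fin.cons 1 (fun i => x i)

@[simp] theorem iota_zero (v : E d) : iota d v 0 = 0 := rfl
@[simp] theorem iota_succ (v : E d) (i : Fin d) : iota d v i.succ = v i := rfl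
@[simp] theorem hom_zero (v : E d) : hom v 0 = 1 := rfl
@[simp] theorem hom_succ (v : E d) (i : Fin d) : hom v i.succ = v i := rfl
@[simp] theorem tl_apply (y : Amb d) (i : Fin d) : tl d y i = y i.succ := rfl

theorem tl_hom (x : E d) : tl d (hom x) = x := by ext i; simp
theorem tl_iota (x : E d) : tl d (iota d x) = x := by ext i; simp

theorem iota_inj : Function.Injective (iota d) := fun x y h => by
  rw [← tl_iota x, h, tl_iota]

theorem hom_sub (x y : E d) : hom x - hom y = iota d (x - y) := by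
  ext i
  refine Fin.cases ?_ (fun j => ?_) i <;> simp

theorem hom_eq (x y : E d) : hom x = hom y + iota d (x - y) := by
  rw [← hom_sub]; abel

/-- The functional on `ℝ^{d+1}` attached to an affine inequality. -/
noncomputable def lift (l : E d →ₗ[ℝ] ℝ) (c : ℝ) : Amb d →ₗ[ℝ] ℝ :=
  c • (LinearMap.proj 0 : Amb d →ₗ[ℝ] ℝ) - l.comp (tl d)

theorem lift_apply (l : E d →ₗ[ℝ] ℝ) (c : ℝ) (y : Amb d) : lift l c y = c * y 0 - l (tl d y) := by
  simp [lift]

theorem lift_hom (l : E d →ₗ[ℝ] ℝ) (c : ℝ) (x : E d) : lift l c (hom x) = c - l x := by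
  rw [lift_apply, hom_zero, tl_hom, mul_one]

/-- The cone over a set. -/
def coneOf (S : Set (E d)) : Set (Amb d) :=
  {y | y = 0 ∨ ∃ t : ℝ, 0 < t ∧ ∃ x ∈ S, y = t • hom x}

theorem zero_mem_coneOf (S : Set (E d)) : (0 : Amb d) ∈ coneOf S := Or.inl rfl

theorem smul_hom_mem {S : Set (E d)} {t : ℝ} (ht : 0 < t) {x : E d} :
    t • hom x ∈ coneOf S ↔ x ∈ S := by
  constructor
  · rintro (h | ⟨s, hs, z, hz, h⟩)
    · have := congrFun h 0
      simp only [Pi.smul_apply, hom_zero, smul_eq_mul, mul_one, Pi.zero_apply] at this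
      exact absurd this ht.ne'
    · have h0 := congrFun h 0
      simp only [Pi.smul_apply, hom_zero, smul_eq_mul, mul_one] at h0
      subst h0
      have h1 : hom x = hom z := by
        have := congrArg (fun v => t⁻¹ • v) h
        simpa only [inv_smul_smul₀ ht.ne'] using this
      rw [← tl_hom x, h1, tl_hom]
      exact hz
  · intro h
    exact Or.inr ⟨t, ht, x, h, rfl⟩

theorem hom_mem {S : Set (E d)} {x : E d} : hom x ∈ coneOf S ↔ x ∈ S := by
  have := smul_hom_mem (S := S) (t := 1) one_pos (x := x)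
  rwa [one_smul] at this

theorem coneOf_mono {S T : Set (E d)} (h : S ⊆ T) : coneOf S ⊆ coneOf T := by
  rintro y (rfl | ⟨t, ht, x, hx, rfl⟩)
  · exact zero_mem_coneOf _
  · exact (smul_hom_mem ht).2 (h hx)

theorem coneOf_subset_iff {S T : Set (E d)} : coneOf S ⊆ coneOf T ↔ S ⊆ T :=
  ⟨fun h _ hx => hom_mem.1 (h (hom_mem.2 hx)), coneOf_mono⟩

/-- A linear functional on `ℝ^{d+1}` as an affine inequality. -/
theorem exists_lift (L : Amb d →ₗ[ℝ] ℝ) : ∃ (l : E d →ₗ[ℝ] ℝ) (c : ℝ), ∀ x, L (hom x) = c - l x := by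
  refine ⟨-(L.comp (iota d)), L (hom 0), fun x => ?_⟩
  rw [hom_eq x 0, map_add]
  simp

theorem face_cone {P F : Set (E d)} {l : E d →ₗ[ℝ] ℝ} {c : ℝ}
    (hF : F = {x | x ∈ P ∧ l x = c}) : coneOf F = {y | y ∈ coneOf P ∧ lift l c y = 0} := by
  ext y
  constructor
  · rintro (rfl | ⟨t, ht, x, hx, rfl⟩)
    · exact ⟨zero_mem_coneOf _, map_zero _⟩
    · rw [hF] at hx
      refine ⟨(smul_hom_mem ht).2 hx.1, ?_⟩
      rw [map_smul, lift_hom, hx.2, sub_self, smul_zero]
  · rintro ⟨rfl | ⟨t, ht, x, hx, rfl⟩, h0⟩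
    · exact zero_mem_coneOf _
    · rw [smul_hom_mem ht, hF]
      refine ⟨hx, ?_⟩
      rw [map_smul, lift_hom, smul_eq_mul] at h0
      have := (mul_eq_zero.1 h0).resolve_left ht.ne'
      linarith

theorem lift_nonneg {P : Set (E d)} {l : E d →ₗ[ℝ] ℝ} {c : ℝ} (h : ∀ x ∈ P, l x ≤ c) :
    ∀ y ∈ coneOf P, 0 ≤ lift l c y := by
  rintro y (rfl | ⟨t, ht, x, hx, rfl⟩)
  · rw [map_zero]
  · rw [map_smul, lift_hom, smul_eq_mul]
    have := h x hx
    exact mul_nonneg ht.le (by linarith)

theorem IsFace.cone {P F : Set (E d)} (h : IsFace P F) :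
    Pool.Agent.Helper101_Scrib.IsFace (coneOf P) (coneOf F) := by
  obtain ⟨l, c, hl, hF⟩ := h
  exact ⟨lift l c, lift_nonneg hl, face_cone hF⟩

/-- The face of `P` of a face of the cone. -/
def base (G : Set (Amb d)) : Set (E d) := {x | hom x ∈ G}

theorem base_face {P : Set (E d)} {G : Set (Amb d)}
    (h : Pool.Agent.Helper101_Scrib.IsFace (coneOf P) G) :
    IsFace P (base G) ∧ coneOf (base G) = G := by
  obtain ⟨L, hL, rfl⟩ := h
  obtain ⟨l, c, hlc⟩ := exists_lift L
  constructor
  · refine ⟨l, c, fun x hx => ?_, ?_⟩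
    · have := hL (hom x) (hom_mem.2 hx)
      rw [hlc] at this
      linarith
    · ext x
      simp only [base, Set.mem_ofPred_eq, hom_mem, hlc]
      constructor
      · rintro ⟨h1, h2⟩; exact ⟨h1, by linarith⟩
      · rintro ⟨h1, h2⟩; exact ⟨h1, by linarith⟩
  · ext y
    constructor
    · rintro (rfl | ⟨t, ht, x, hx, rfl⟩)
      · exact ⟨zero_mem_coneOf _, map_zero _⟩
      · obtain ⟨h1, h2⟩ := hx
        refine ⟨(smul_hom_mem ht).2 (hom_mem.1 h1), ?_⟩
        rw [map_smul, h2, smul_zero]
    · rintro ⟨rfl | ⟨t, ht, x, hx, rfl⟩, h0⟩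
      · exact zero_mem_coneOf _
      · rw [smul_hom_mem ht]
        refine ⟨hom_mem.2 hx, ?_⟩
        rw [map_smul, smul_eq_mul] at h0
        exact (mul_eq_zero.1 h0).resolve_left ht.ne'

theorem base_cone (F : Set (E d)) : base (coneOf F) = F := by
  ext x
  exact hom_mem

/-- The face lattices of a polytope and of its cone are isomorphic. -/
noncomputable def faceIso (P : Set (E d)) :
    {F : Set (E d) // IsFace P F} ≃o
      {G : Set (Amb d) // Pool.Agent.Helper101_Scrib.IsFace (coneOf P) G} where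
  toFun F := ⟨coneOf F.1, F.2.cone⟩
  invFun G := ⟨base G.1, (base_face G.2).1⟩
  left_inv F := Subtype.ext (base_cone F.1)
  right_inv G := Subtype.ext (base_face G.2).2
  map_rel_iff' {F G} := by
    show coneOf F.1 ⊆ coneOf G.1 ↔ F.1 ⊆ G.1
    exact coneOf_subset_iff

theorem sameType_of_combEquiv {P Q : Set (E d)} (h : CombEquiv P Q) :
    Pool.Agent.Helper101_Scrib.SameType (coneOf P) (coneOf Q) := by
  obtain ⟨Φ⟩ := h
  exact ⟨((faceIso P).symm.trans Φ).trans (faceIso Q)⟩

/-- Dimension of the cone over a set. -/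
theorem linDim_coneOf {S : Set (E d)} (hS : S.Nonempty) :
    linDim (coneOf S) = Module.finrank ℝ (vectorSpan ℝ S) + 1 := by
  obtain ⟨x0, hx0⟩ := hS
  have h1 : span ℝ (coneOf S) = span ℝ {hom x0} ⊔ (vectorSpan ℝ S).map (iota d) := by
    apply le_antisymm
    · rw [Submodule.span_le]
      rintro y (rfl | ⟨t, ht, x, hx, rfl⟩)
      · exact Submodule.zero_mem _
      · apply Submodule.smul_mem
        rw [hom_eq x x0]
        apply Submodule.add_mem
        · exact Submodule.mem_sup_left (Submodule.mem_span_singleton_self _)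
        · apply Submodule.mem_sup_right
          refine ⟨x - x0, ?_, rfl⟩
          have := vsub_mem_vectorSpan ℝ hx hx0
          simpa using this
    · apply sup_le
      · rw [Submodule.span_le, Set.singleton_subset_iff]
        exact Submodule.subset_span (hom_mem.2 hx0)
      · rw [Submodule.map_le_iff_le_comap, vectorSpan_eq_span_vsub_set_right ℝ hx0,
          Submodule.span_le]
        rintro _ ⟨x, hx, rfl⟩
        show iota d (x -ᵥ x0) ∈ span ℝ (coneOf S)
        rw [vsub_eq_sub, ← hom_sub]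
        exact Submodule.sub_mem _ (Submodule.subset_span (hom_mem.2 hx))
          (Submodule.subset_span (hom_mem.2 hx0))
  have h2 : span ℝ {hom x0} ⊓ (vectorSpan ℝ S).map (iota d) = ⊥ := by
    rw [eq_bot_iff]
    rintro y ⟨hy1, hy2⟩
    obtain ⟨a, rfl⟩ := Submodule.mem_span_singleton.1 hy1
    obtain ⟨v, _, hv⟩ := hy2
    have h0 := congrFun hv 0
    simp only [iota_zero, Pi.smul_apply, hom_zero, smul_eq_mul, mul_one] at h0
    rw [← h0, zero_smul]
    exact Submodule.zero_mem _
  unfold linDim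
  have h3 := Submodule.finrank_sup_add_finrank_inf_eq (span ℝ {hom x0})
    ((vectorSpan ℝ S).map (iota d))
  have hne : hom x0 ≠ 0 := by
    intro h
    have := congrFun h 0
    simp at this
  rw [h2, finrank_bot, add_zero, finrank_span_singleton hne,
    ← (Submodule.equivMapOfInjective (iota d) iota_inj (vectorSpan ℝ S)).finrank_eq] at h3
  rw [h1, h3, add_comm]

theorem linDim_empty' : linDim (coneOf (∅ : Set (E d))) = 0 := by
  have : coneOf (∅ : Set (E d)) = {0} := by
    ext y
    constructor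
    · rintro (h | ⟨t, ht, x, hx, rfl⟩)
      · exact h
      · exact absurd hx (Set.notMem_empty x)
    · rintro rfl
      exact zero_mem_coneOf _
  unfold linDim
  rw [this]
  simp

open Classical in
/-- The cone over the convex hull of a finite set. -/
theorem coneOf_convexHull (s : Finset (E d)) :
    coneOf (convexHull ℝ (s : Set (E d))) = conicHull (s.image hom) := by
  have hinj : ∀ x ∈ s, ∀ y ∈ s, hom x = hom y → x = y := fun x _ y _ h => by
    rw [← tl_hom x, h, tl_hom]
  ext y
  constructor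
  · rintro (rfl | ⟨t, ht, x, hx, rfl⟩)
    · exact Pool.Agent.Helper101_Scrib.zero_mem_conicHull _
    · rw [Finset.mem_convexHull'] at hx
      obtain ⟨w, hw, hw1, hwx⟩ := hx
      have e : t • hom x = ∑ v ∈ s, (t * w v) • hom v := by
        ext i
        refine Fin.cases ?_ (fun j => ?_) i
        · simp only [Pi.smul_apply, hom_zero, smul_eq_mul, mul_one, Finset.sum_apply]
          rw [← Finset.mul_sum, hw1, mul_one]
        · simp only [Pi.smul_apply, hom_succ, smul_eq_mul, Finset.sum_apply]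
          rw [← hwx]
          simp only [WithLp.ofLp_sum, WithLp.ofLp_smul, Finset.sum_apply, Pi.smul_apply, smul_eq_mul,
            Finset.mul_sum, mul_assoc]
      rw [e]
      refine ⟨fun z => t * w (tl d z), ?_, ?_⟩
      · intro z hz
        obtain ⟨v, hv, rfl⟩ := Finset.mem_image.1 hz
        dsimp only
        rw [tl_hom]
        exact mul_nonneg ht.le (hw v hv)
      · rw [Finset.sum_image (fun x hx y hy => hinj x hx y hy)]
        apply Finset.sum_congr rfl
        intro v _
        dsimp only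
        rw [tl_hom]
  · rintro ⟨c, hc, rfl⟩
    rw [Finset.sum_image (fun x hx y hy => hinj x hx y hy)]
    have hc' : ∀ v ∈ s, 0 ≤ c (hom v) := fun v hv => hc _ (Finset.mem_image_of_mem _ hv)
    by_cases hT : ∑ v ∈ s, c (hom v) = 0
    · left
      rw [Finset.sum_eq_zero_iff_of_nonneg hc'] at hT
      apply Finset.sum_eq_zero
      intro v hv
      rw [hT v hv, zero_smul]
    · right
      have hTpos : 0 < ∑ v ∈ s, c (hom v) :=
        lt_of_le_of_ne (Finset.sum_nonneg hc') (Ne.symm hT)
      obtain ⟨T, hTdef⟩ : ∃ T, T = ∑ v ∈ s, c (hom v) := ⟨_, rfl⟩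
      rw [← hTdef] at hTpos
      refine ⟨T, hTpos, ∑ v ∈ s, (c (hom v) / T) • v, ?_, ?_⟩
      · rw [Finset.mem_convexHull']
        refine ⟨fun v => c (hom v) / T, fun v hv => div_nonneg (hc' v hv) hTpos.le, ?_, rfl⟩
        rw [← Finset.sum_div, ← hTdef, div_self hTpos.ne']
      · ext i
        refine Fin.cases ?_ (fun j => ?_) i
        · simp only [Pi.smul_apply, hom_zero, smul_eq_mul, mul_one, Finset.sum_apply]
          exact hTdef.symm
        · simp only [Pi.smul_apply, hom_succ, smul_eq_mul, Finset.sum_apply, WithLp.ofLp_sum,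
            WithLp.ofLp_smul, Finset.mul_sum]
          apply Finset.sum_congr rfl
          intro v _
          field_simp

/-- The cone over a polytope is a polytope cone. -/
theorem IsPolytope.cone {P : Set (E d)} (h : IsPolytope P) : IsPolytopeCone d (coneOf P) := by
  classical
  obtain ⟨⟨s, rfl⟩, hint⟩ := h
  refine ⟨⟨s.image hom, coneOf_convexHull s⟩, ?_, ?_⟩
  · rintro y (rfl | ⟨t, ht, x, hx, rfl⟩) hy'
    · rfl
    · exfalso
      rcases hy' with h | ⟨t', ht', x', hx', h⟩
      · have := congrFun h 0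
        simp at this
        exact ht.ne' this
      · have := congrFun h 0
        simp at this
        linarith
  · have hne : (convexHull ℝ (s : Set (E d))).Nonempty := hint.mono interior_subset
    have h1 := linDim_coneOf hne
    have h2 : vectorSpan ℝ (convexHull ℝ (s : Set (E d))) = ⊤ := by
      have h3 : affineSpan ℝ (convexHull ℝ (s : Set (E d))) = ⊤ := by
        rw [affineSpan_convexHull]
        exact interior_convexHull_nonempty_iff_affineSpan_eq_top.1 hint
      rw [← direction_affineSpan, h3, AffineSubspace.direction_top]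
    rw [h2, finrank_top, finrank_euclideanSpace_fin] at h1
    apply Submodule.eq_top_of_finrank_eq
    rw [Module.finrank_fin_fun]
    exact h1

theorem StronglyAvoids.cone {P F : Set (E d)} (h : StronglyAvoids P F) :
    Pool.Agent.Helper101_Scrib.StronglyAvoids (coneOf P) (coneOf F) := by
  obtain ⟨l, c, hl0, hl, hF, hb⟩ := h
  refine ⟨lift l c, ?_, lift_nonneg hl, face_cone hF, ?_⟩
  · intro h0
    apply hl0
    ext v
    have := congrArg (fun L => L (iota d v)) h0
    simp only [lift_apply, iota_zero, tl_iota, LinearMap.zero_apply] at this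
    rw [LinearMap.zero_apply]
    linarith
  · rintro y ⟨_, hy0, hy2⟩
    rw [lift_apply]
    rcases hy0.eq_or_lt with h0 | h0
    · have : tl d y = 0 := by
        rw [← h0] at hy2
        have h3 : ∑ i : Fin d, y i.succ ^ 2 = 0 := by
          apply le_antisymm
          · simpa using hy2
          · exact Finset.sum_nonneg fun i _ => sq_nonneg _
        rw [Finset.sum_eq_zero_iff_of_nonneg (fun i _ => sq_nonneg _)] at h3
        ext i
        have := pow_eq_zero_iff (two_ne_zero) |>.1 (h3 i (Finset.mem_univ i))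
        simpa using this
      rw [this, ← h0]
      simp
    · have hmem : (y 0)⁻¹ • tl d y ∈ Metric.closedBall (0 : E d) 1 := by
        rw [mem_closedBall_zero_iff, norm_smul, norm_inv, Real.norm_of_nonneg hy0, inv_mul_le_iff₀ h0,
          mul_one]
        rw [← abs_of_nonneg (norm_nonneg (tl d y)), ← abs_of_nonneg hy0, ← sq_le_sq,
          EuclideanSpace.real_norm_sq_eq]
        simpa using hy2
      have := hb _ hmem
      rw [map_smul, smul_eq_mul, inv_mul_le_iff₀ h0] at this
      linarith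

theorem StronglyCuts.cone {F : Set (E d)} (h : StronglyCuts F) :
    (coneOf F ∩ sphBall d).Nonempty := by
  obtain ⟨x, hx, hxb⟩ := h
  have hxF := intrinsicInterior_subset hx
  rw [mem_closedBall_zero_iff] at hxb
  have hN : 0 < ∑ i, hom x i ^ 2 := by
    rw [Fin.sum_univ_succ]
    have : 0 ≤ ∑ i : Fin d, hom x i.succ ^ 2 := Finset.sum_nonneg fun i _ => sq_nonneg _
    simp only [hom_zero]
    linarith
  obtain ⟨r, hr⟩ : ∃ r, r = Real.sqrt (∑ i, hom x i ^ 2) := ⟨_, rfl⟩
  have hr0 : 0 < r := by rw [hr]; exact Real.sqrt_pos.2 hN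
  have hr2 : r ^ 2 = ∑ i, hom x i ^ 2 := by rw [hr]; exact Real.sq_sqrt hN.le
  refine ⟨r⁻¹ • hom x, (smul_hom_mem (inv_pos.2 hr0)).2 hxF, ?_, ?_, ?_⟩
  · simp only [Pi.smul_apply, smul_eq_mul, mul_pow]
    rw [← Finset.mul_sum, ← hr2, ← mul_pow, inv_mul_cancel₀ hr0.ne', one_pow]
  · simp only [Pi.smul_apply, smul_eq_mul, hom_zero, mul_one]
    positivity
  · simp only [Pi.smul_apply, smul_eq_mul, hom_zero, hom_succ, mul_one, mul_pow]
    rw [← Finset.mul_sum]
    have h1 : ∑ i : Fin d, x i ^ 2 ≤ 1 := by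
      have := EuclideanSpace.real_norm_sq_eq x
      rw [← this]
      exact pow_le_one₀ (norm_nonneg _) hxb
    have h2 : (0 : ℝ) ≤ r⁻¹ ^ 2 := by positivity
    calc r⁻¹ ^ 2 * ∑ i : Fin d, x i ^ 2 ≤ r⁻¹ ^ 2 * 1 := mul_le_mul_of_nonneg_left h1 h2
      _ = r⁻¹ ^ 2 := mul_one _

/-- A polytope whose cone has no scribed realization is not scribable. -/
theorem not_scribable_of_cone (hd : 4 ≤ d) {P : Set (E d)}
    (hcone : ∀ K' : Set (Amb d), IsPolytopeCone d K' →
      Pool.Agent.Helper101_Scrib.SameType (coneOf P) K' →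
      (∀ G, Pool.Agent.Helper101_Scrib.IsFace K' G → linDim G = 1 →
        Pool.Agent.Helper101_Scrib.StronglyAvoids K' G) →
      (∀ G, Pool.Agent.Helper101_Scrib.IsFace K' G → linDim G = d → (G ∩ sphBall d).Nonempty) →
      False) : ¬ Scribable 0 (d - 1) P := by
  rintro ⟨Q, hQ, hPQ, havoid, hcuts⟩
  have hface : ∀ (G : Set (Amb d)) (i : ℕ), Pool.Agent.Helper101_Scrib.IsFace (coneOf Q) G →
      linDim G = i + 1 → IsDimFace i Q (base G) ∧ coneOf (base G) = G := by
    intro G i hG hdim
    obtain ⟨h1, h2⟩ := base_face hG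
    have hne : (base G).Nonempty := by
      rw [Set.nonempty_iff_ne_empty]
      intro h0
      rw [← h2, h0, linDim_empty'] at hdim
      omega
    refine ⟨⟨h1, hne, ?_⟩, h2⟩
    have := linDim_coneOf hne
    rw [h2, hdim] at this
    omega
  refine hcone (coneOf Q) hQ.cone (sameType_of_combEquiv hPQ) ?_ ?_
  · intro G hG hdim
    obtain ⟨h1, h2⟩ := hface G 0 hG hdim
    have := (havoid _ h1).cone
    rwa [h2] at this
  · intro G hG hdim
    obtain ⟨h1, h2⟩ := hface G (d - 1) hG (by omega)
    have := (hcuts _ h1).cone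
    rwa [h2] at this

/-- Every affine polytope cone is the cone over a polytope. -/
theorem exists_polytope {K : Set (Amb d)} (hK : IsPolytopeCone d K)
    (hpos : ∀ x ∈ K, x ≠ 0 → 0 < x 0) : ∃ P : Set (E d), IsPolytope P ∧ coneOf P = K := by
  classical
  obtain ⟨⟨s, rfl⟩, _, hspan⟩ := hK
  -- normalized generators
  let S : Finset (E d) := (s.filter fun v => v ≠ 0).image fun v => (v 0)⁻¹ • tl d v
  have hv0 : ∀ v ∈ s, v ≠ 0 → 0 < v 0 := fun v hv hne =>
    hpos v (Pool.Agent.Helper101_Scrib.subset_conicHull s hv) hne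
  have hhom : ∀ v ∈ s, v ≠ 0 → hom ((v 0)⁻¹ • tl d v) = (v 0)⁻¹ • v := by
    intro v hv hne
    have := hv0 v hv hne
    ext i
    refine Fin.cases ?_ (fun j => ?_) i
    · simp only [hom_zero, Pi.smul_apply, smul_eq_mul]
      exact (inv_mul_cancel₀ this.ne').symm
    · simp
  have hcone : coneOf (convexHull ℝ (S : Set (E d))) = conicHull s := by
    rw [coneOf_convexHull]
    apply Set.Subset.antisymm
    · apply Pool.Agent.Helper101_Scrib.conicHull_subset
      intro z hz
      obtain ⟨x, hx, rfl⟩ := Finset.mem_image.1 hz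
      obtain ⟨v, hv, rfl⟩ := Finset.mem_image.1 hx
      rw [Finset.mem_filter] at hv
      rw [hhom v hv.1 hv.2]
      exact Pool.Agent.Helper101_Scrib.smul_mem_conicHull (inv_pos.2 (hv0 v hv.1 hv.2)).le
        (Pool.Agent.Helper101_Scrib.subset_conicHull s hv.1)
    · apply Pool.Agent.Helper101_Scrib.conicHull_subset
      intro v hv
      by_cases hne : v = 0
      · rw [hne]
        exact Pool.Agent.Helper101_Scrib.zero_mem_conicHull _
      · have h1 : v = v 0 • ((v 0)⁻¹ • v) := by rw [smul_inv_smul₀ (hv0 v hv hne).ne']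
        rw [h1, ← hhom v hv hne]
        refine Pool.Agent.Helper101_Scrib.smul_mem_conicHull (hv0 v hv hne).le
          (Pool.Agent.Helper101_Scrib.subset_conicHull _ ?_)
        exact Finset.mem_image_of_mem _ (Finset.mem_image_of_mem _
          (Finset.mem_filter.2 ⟨hv, hne⟩))
  refine ⟨convexHull ℝ (S : Set (E d)), ⟨⟨S, rfl⟩, ?_⟩, hcone⟩
  have hne : (convexHull ℝ (S : Set (E d))).Nonempty := by
    rw [Set.nonempty_iff_ne_empty]
    intro h0
    have h1 := linDim_empty' (d := d)
    rw [← h0, hcone] at h1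
    unfold linDim at h1
    rw [hspan, finrank_top, Module.finrank_fin_fun] at h1
    omega
  rw [interior_convexHull_nonempty_iff_affineSpan_eq_top, ← affineSpan_convexHull]
  have h1 := linDim_coneOf hne
  rw [hcone] at h1
  unfold linDim at h1
  rw [hspan, finrank_top, Module.finrank_fin_fun] at h1
  have h2 : vectorSpan ℝ (convexHull ℝ (S : Set (E d))) = ⊤ := by
    apply Submodule.eq_top_of_finrank_eq
    rw [finrank_euclideanSpace_fin]
    omega
  rw [← AffineSubspace.direction_eq_top_iff_of_nonempty, direction_affineSpan, h2]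
  exact hne.mono (subset_affineSpan ℝ _)

/-- For every `d ≥ 4` there is a `d`-polytope that is not `(0, d-1)`-scribable. -/
theorem main (d : ℕ) (hd : 4 ≤ d) : ∃ P : Set (E d), IsPolytope P ∧ ¬ Scribable 0 (d - 1) P := by
  obtain ⟨b, hb⟩ := Pool.Agent.Helper101_Scrib.exists_affine_basis d
  obtain ⟨F, hF⟩ := exists_frm hd b
  obtain ⟨P, hP, hPK⟩ := exists_polytope (F.isPolytopeCone (by omega))
    (fun x hx hne => F.first_coord (by rw [hF]; exact hb) hx hne)
  refine ⟨P, hP, not_scribable_of_cone hd ?_⟩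
  intro K' hK' hT havoid hcuts
  rw [hPK] at hT
  exact cone_main hd F hK' hT havoid hcuts

end Pool.Agent.U285.Scrib.Euc
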