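import Pool.Agent.Helper101_Scrib.Common

/-!
# Construction of the polytope

In the plane of three basis vectors `b A, b B, b C` the polytope has a twelve-gon with the vertices
`u k l = 2 b k + b l` and `s k l m = 12 b k + 2 b l + b m`.  Further vertices `y A B C r t j` make
the twelve-gon projectively rigid in every realization.
-/

namespace Pool.Agent.U285.Scrib

open Submodule Pool.Agent.Helper101_Scrib

variable {d : ℕ}

/-- A basis together with a choice of two auxiliary indices outside each set of three indices. -/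
structure Frm (d : ℕ) where
  b : Module.Basis (Fin (d + 1)) ℝ (Amb d)
  ca : Finset (Fin (d + 1)) → Fin (d + 1)
  cb : Finset (Fin (d + 1)) → Fin (d + 1)
  hab : ∀ T, T.card ≤ 3 → cb T ≠ ca T
  ha : ∀ T, T.card ≤ 3 → ca T ∉ T
  hb : ∀ T, T.card ≤ 3 → cb T ∉ T

theorem exists_frm (hd : 4 ≤ d) (b : Module.Basis (Fin (d + 1)) ℝ (Amb d)) :
    ∃ F : Frm d, F.b = b := by
  classical
  have h : ∀ T : Finset (Fin (d + 1)), ∃ a b : Fin (d + 1), T.card ≤ 3 →
      b ≠ a ∧ a ∉ T ∧ b ∉ T := by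
    intro T
    by_cases hT : T.card ≤ 3
    · have hcard : 1 < (Finset.univ \ T).card := by
        have h1 := Finset.le_card_sdiff T Finset.univ
        rw [Finset.card_univ, Fintype.card_fin] at h1
        omega
      obtain ⟨a, ha, b, hb, hab⟩ := Finset.one_lt_card.1 hcard
      simp only [Finset.mem_sdiff, Finset.mem_univ, true_and] at ha hb
      exact ⟨a, b, fun _ => ⟨hab.symm, ha, hb⟩⟩
    · exact ⟨0, 0, fun h => absurd h hT⟩
  choose fa fb h using h
  exact ⟨⟨b, fa, fb, fun T hT => (h T hT).1, fun T hT => (h T hT).2.1,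
    fun T hT => (h T hT).2.2⟩, rfl⟩

/-- Three distinct indices. -/
def Dis (A B C : Fin (d + 1)) : Prop := A ≠ B ∧ A ≠ C ∧ B ≠ C

instance (A B C : Fin (d + 1)) : Decidable (Dis A B C) := by unfold Dis; infer_instance

/-- The set of three indices. -/
def tri (A B C : Fin (d + 1)) : Finset (Fin (d + 1)) := {A, B, C}

theorem mem_tri {A B C k : Fin (d + 1)} : k ∈ tri A B C ↔ k = A ∨ k = B ∨ k = C := by
  simp [tri]

theorem card_tri (A B C : Fin (d + 1)) : (tri A B C).card ≤ 3 := Finset.card_le_three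

/-- The number of a gadget among the gadgets of one plane. -/
def code (A B C : Fin (d + 1)) (r : Fin 3) : ℕ :=
  3 * ((if A < B then 1 else 0) + (if B < C then 2 else 0) + (if A < C then 4 else 0)) + r

theorem code_lt (A B C : Fin (d + 1)) (r : Fin 3) : code A B C r < 24 := by
  unfold code
  have := r.2
  split_ifs <;> omega

theorem code_inj {A B C A' B' C' : Fin (d + 1)} {r r' : Fin 3} (h : Dis A B C) (h' : Dis A' B' C')
    (hT : tri A' B' C' = tri A B C) (hc : code A' B' C' r' = code A B C r) :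
    A' = A ∧ B' = B ∧ C' = C ∧ r' = r := by
  obtain ⟨h1, h2, h3⟩ := h
  obtain ⟨h4, h5, h6⟩ := h'
  have hA : A' ∈ tri A B C := by rw [← hT]; simp [tri]
  have hB : B' ∈ tri A B C := by rw [← hT]; simp [tri]
  have hC : C' ∈ tri A B C := by rw [← hT]; simp [tri]
  rw [mem_tri] at hA hB hC
  unfold code at hc
  have e1 := r.2
  have e2 := r'.2
  have hr : r' = r ↔ (r' : ℕ) = r := Fin.ext_iff
  rw [hr]
  have n1 := lt_or_gt_of_ne h1
  have n2 := lt_or_gt_of_ne h2
  have n3 := lt_or_gt_of_ne h3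
  rcases hA with hA | hA | hA <;> rcases hB with hB | hB | hB <;>
    first
    | exact absurd (hA.trans hB.symm) h4
    | (rcases hC with hC | hC | hC <;>
        first
        | exact absurd (hA.trans hC.symm) h5
        | exact absurd (hB.trans hC.symm) h6
        | (subst hA; subst hB; subst hC
           rcases n1 with n1 | n1 <;> rcases n2 with n2 | n2 <;> rcases n3 with n3 | n3 <;>
             simp only [n1, n2, n3, not_lt_of_gt, if_true, if_false] at hc <;>
             first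
             | (simp only [true_and]; omega)
             | (exfalso; omega)))

/-- The horizontal position of a gadget. -/
noncomputable def pos (A B C : Fin (d + 1)) (r : Fin 3) : ℝ := 4 * code A B C r + 4

theorem pos_lo (A B C : Fin (d + 1)) (r : Fin 3) : 4 ≤ pos A B C r := by
  unfold pos
  have : (0 : ℝ) ≤ code A B C r := Nat.cast_nonneg _
  linarith

theorem pos_hi (A B C : Fin (d + 1)) (r : Fin 3) : pos A B C r ≤ 96 := by
  unfold pos
  have h := code_lt A B C r
  have h1 : code A B C r ≤ 23 := by omega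
  have h2 : (code A B C r : ℝ) ≤ 23 := by exact_mod_cast h1
  linarith

/-- Different gadgets of the same plane are far apart. -/
theorem pos_gap {A B C A' B' C' : Fin (d + 1)} {r r' : Fin 3} (h : Dis A B C) (h' : Dis A' B' C')
    (hT : tri A' B' C' = tri A B C) (hne : ¬ (A' = A ∧ B' = B ∧ C' = C ∧ r' = r)) :
    4 ≤ pos A' B' C' r' - pos A B C r ∨ 4 ≤ pos A B C r - pos A' B' C' r' := by
  have hc : code A' B' C' r' ≠ code A B C r := fun hc => hne (code_inj h h' hT hc)
  unfold pos
  rcases lt_or_gt_of_ne hc with h1 | h1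
  · right
    have h2 : (code A' B' C' r' : ℝ) + 1 ≤ code A B C r := by exact_mod_cast h1
    linarith
  · left
    have h2 : (code A B C r : ℝ) + 1 ≤ code A' B' C' r' := by exact_mod_cast h1
    linarith

namespace Frm

variable (F : Frm d)

/-- The truncation vertices. -/
noncomputable def u (k l : Fin (d + 1)) : Amb d := (2 : ℝ) • F.b k + F.b l

/-- The vertices of the deep facets. -/
noncomputable def s (k l m : Fin (d + 1)) : Amb d := (12 : ℝ) • F.b k + (2 : ℝ) • F.b l + F.b m

/-- The vertices of the twelve-gon to which the strands of the gadgets are attached. -/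
noncomputable def sg (A B C : Fin (d + 1)) (r : Fin 3) (t : Fin 2) : Amb d :=
  ![![F.u A C, F.s B A C], ![F.s A B C, F.u C B], ![F.u A B, F.u C A]] r t

/-- The scaling factors of the strands. -/
noncomputable def lam : Fin 3 → Fin 2 → ℝ
  | 0, 0 => 1
  | 0, 1 => 1
  | 1, 0 => 2
  | 1, 1 => 1
  | 2, 0 => 1
  | 2, 1 => 2

/-- The two edges of the twelve-gon used by a gadget. -/
noncomputable def eg (A B C : Fin (d + 1)) (r : Fin 3) (i : Fin 2) : Amb d × Amb d :=
  ![![(F.u A B, F.u B A), (F.u B C, F.u C B)], ![(F.u A C, F.s A C B), (F.u A B, F.u B A)],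
    ![(F.u A C, F.s A C B), (F.u B C, F.u C B)]] r i

/-- The gadget vertices. -/
noncomputable def y (A B C : Fin (d + 1)) (r : Fin 3) (t : Fin 2) (j : ℝ) : Amb d :=
  (100000 * (pos A B C r ^ 2 - 2 * pos A B C r * j)) • (F.b A + F.b B + F.b C) +
  ((1 + j ^ 2) * lam r t) • F.sg A B C r t +
  (104 - pos A B C r + j) • F.b (F.ca (tri A B C)) - F.b (F.cb (tri A B C))

/-- The functional with prescribed values on the basis. -/
noncomputable def lf (f : Fin (d + 1) → ℝ) : Amb d →ₗ[ℝ] ℝ := F.b.constr ℝ f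

theorem lf_b (f : Fin (d + 1) → ℝ) (k : Fin (d + 1)) : F.lf f (F.b k) = f k :=
  F.b.constr_basis ℝ f k

theorem lf_u (f : Fin (d + 1) → ℝ) (k l : Fin (d + 1)) :
    F.lf f (F.u k l) = 2 * f k + f l := by
  simp only [u, map_add, map_smul, lf_b, smul_eq_mul]

theorem lf_s (f : Fin (d + 1) → ℝ) (k l m : Fin (d + 1)) :
    F.lf f (F.s k l m) = 12 * f k + 2 * f l + f m := by
  simp only [s, map_add, map_smul, lf_b, smul_eq_mul]

theorem lf_y (f : Fin (d + 1) → ℝ) (A B C : Fin (d + 1)) (r : Fin 3) (t : Fin 2) (j : ℝ) :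
    F.lf f (F.y A B C r t j) =
      (100000 * (pos A B C r ^ 2 - 2 * pos A B C r * j)) * (f A + f B + f C) +
      ((1 + j ^ 2) * lam r t) * F.lf f (F.sg A B C r t) +
      (104 - pos A B C r + j) * f (F.ca (tri A B C)) - f (F.cb (tri A B C)) := by
  simp only [y, map_add, map_sub, map_smul, lf_b, smul_eq_mul]

/-- Admissible values of the third parameter. -/
def J (j : ℝ) : Prop := j = -1 ∨ j = 0 ∨ j = 1

open Classical in
/-- The vertices of the polytope. -/
noncomputable def verts : Finset (Amb d) :=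
  ((Finset.univ : Finset (Fin (d + 1) × Fin (d + 1))).filter fun p => p.1 ≠ p.2).image
    (fun p => F.u p.1 p.2) ∪
  ((Finset.univ : Finset (Fin (d + 1) × Fin (d + 1) × Fin (d + 1))).filter
    fun p => Dis p.1 p.2.1 p.2.2).image (fun p => F.s p.1 p.2.1 p.2.2) ∪
  ((((Finset.univ : Finset (Fin (d + 1) × Fin (d + 1) × Fin (d + 1))).filter
    fun p => Dis p.1 p.2.1 p.2.2) ×ˢ ((Finset.univ : Finset (Fin 3)) ×ˢ
      ((Finset.univ : Finset (Fin 2)) ×ˢ ({-1, 0, 1} : Finset ℝ))))).image
    (fun p => F.y p.1.1 p.1.2.1 p.1.2.2 p.2.1 p.2.2.1 p.2.2.2)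

theorem mem_verts (v : Amb d) : v ∈ F.verts ↔ (∃ k l, k ≠ l ∧ v = F.u k l) ∨
    (∃ k l m, Dis k l m ∧ v = F.s k l m) ∨
    ∃ A B C r t j, Dis A B C ∧ J j ∧ v = F.y A B C r t j := by
  classical
  simp only [verts, Finset.mem_union, Finset.mem_image, Finset.mem_filter, Finset.mem_univ,
    true_and, Finset.mem_product, Prod.exists, Finset.mem_insert, Finset.mem_singleton, J]
  constructor
  · rintro ((⟨k, l, h, rfl⟩ | ⟨k, l, m, h, rfl⟩) | ⟨A, B, C, r, t, j, ⟨h1, h2⟩, rfl⟩)
    · exact Or.inl ⟨k, l, h, rfl⟩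
    · exact Or.inr (Or.inl ⟨k, l, m, h, rfl⟩)
    · exact Or.inr (Or.inr ⟨A, B, C, r, t, j, h1, h2, rfl⟩)
  · rintro (⟨k, l, h, rfl⟩ | ⟨k, l, m, h, rfl⟩ | ⟨A, B, C, r, t, j, h1, h2, rfl⟩)
    · exact Or.inl (Or.inl ⟨k, l, h, rfl⟩)
    · exact Or.inl (Or.inr ⟨k, l, m, h, rfl⟩)
    · exact Or.inr ⟨A, B, C, r, t, j, ⟨h1, h2⟩, rfl⟩

theorem u_mem {k l : Fin (d + 1)} (h : k ≠ l) : F.u k l ∈ F.verts :=
  (F.mem_verts _).2 (Or.inl ⟨k, l, h, rfl⟩)

theorem s_mem {k l m : Fin (d + 1)} (h : Dis k l m) : F.s k l m ∈ F.verts :=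
  (F.mem_verts _).2 (Or.inr (Or.inl ⟨k, l, m, h, rfl⟩))

theorem y_mem {A B C : Fin (d + 1)} {r : Fin 3} {t : Fin 2} {j : ℝ} (h : Dis A B C) (hj : J j) :
    F.y A B C r t j ∈ F.verts :=
  (F.mem_verts _).2 (Or.inr (Or.inr ⟨A, B, C, r, t, j, h, hj, rfl⟩))

end Frm

end Pool.Agent.U285.Scrib
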