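import Pool.Agent.U285.Scrib.PlaneFrame

/-!
# The common frame of a realization
-/

namespace Pool.Agent.U285.Scrib

open Submodule Pool.Agent.Helper101_Scrib

variable {d : ℕ}

theorem tri_swap (A B C : Fin (d + 1)) : tri A B C = tri A C B := by
  ext k; simp only [mem_tri]; tauto

theorem tri_rot (A B C : Fin (d + 1)) : tri A B C = tri B A C := by
  ext k; simp only [mem_tri]; tauto

theorem Fr.smul {F : Frm d} {X : Amb d → Amb d} {T : Finset (Fin (d + 1))}
    {e : Fin (d + 1) → Amb d} (h : Fr F X T e) {c : ℝ} (hc : 0 < c) :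
    Fr F X T (fun m => c • e m) := by
  constructor
  · intro k l hk hl hkl
    obtain ⟨w, hw, h1⟩ := h.1 k l hk hl hkl
    refine ⟨c * w, mul_pos hc hw, ?_⟩
    rw [mul_smul, ← h1]
    module
  · intro k l m hk hl hm hd
    obtain ⟨w, hw, h1⟩ := h.2 k l m hk hl hm hd
    refine ⟨c * w, mul_pos hc hw, ?_⟩
    rw [mul_smul, ← h1]
    module

theorem Fr.congr {F : Frm d} {X : Amb d → Amb d} {T : Finset (Fin (d + 1))}
    {e e' : Fin (d + 1) → Amb d} (h : Fr F X T e) (he : ∀ k ∈ T, e' k = e k) :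
    Fr F X T e' := by
  constructor
  · intro k l hk hl hkl
    rw [he k hk, he l hl]
    exact h.1 k l hk hl hkl
  · intro k l m hk hl hm hd
    rw [he k hk, he l hl, he m hm]
    exact h.2 k l m hk hl hm hd

section

variable {F : Frm d} {X : Amb d → Amb d} (hX : Rz F.verts X)

include hX

/-- Two frames whose planes share two indices have parallel vectors. -/
theorem Fr.par {k i j l : Fin (d + 1)} (hki : k ≠ i) (hkj : k ≠ j) (hkl : k ≠ l) (hij : i ≠ j)
    (hil : i ≠ l) (hjl : j ≠ l) {e e' : Fin (d + 1) → Amb d} (h : Fr F X (tri k i l) e)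
    (h' : Fr F X (tri k j l) e') : ∃ c : ℝ, 0 < c ∧ e k = c • e' k := by
  obtain ⟨q, _, q2, q3⟩ := Frm.real_fun hX (F.pl_nonneg k i j)
  have mk : k ∈ tri k i j := by simp [tri]
  have mi : i ∈ tri k i j := by simp [tri]
  have mj : j ∈ tri k i j := by simp [tri]
  have ml : l ∉ tri k i j := by
    rw [mem_tri]
    push Not
    exact ⟨hkl.symm, hil.symm, hjl.symm⟩
  have z1 := q2 _ (F.u_mem hki) (F.pl_u mk mi)
  have z2 := q2 _ (F.u_mem hki.symm) (F.pl_u mi mk)
  have z3 := q2 _ (F.u_mem hkj) (F.pl_u mk mj)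
  have z4 := q2 _ (F.u_mem hkj.symm) (F.pl_u mj mk)
  have p1 := q3 _ (F.u_mem hkl) ((F.pl_big k i j).u_pos F fun h => ml h.2)
  have p2 := q3 _ (F.u_mem hkl.symm) ((F.pl_big k i j).u_pos F fun h => ml h.1)
  -- the first frame
  obtain ⟨w1, _, r1⟩ := h.1 k i (by simp [tri]) (by simp [tri]) hki
  obtain ⟨w2, _, r2⟩ := h.1 i k (by simp [tri]) (by simp [tri]) hki.symm
  obtain ⟨a, ha, r3⟩ := h.1 k l (by simp [tri]) (by simp [tri]) hkl
  obtain ⟨b, hb, r4⟩ := h.1 l k (by simp [tri]) (by simp [tri]) hkl.symm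
  obtain ⟨w1', _, r1'⟩ := h'.1 k j (by simp [tri]) (by simp [tri]) hkj
  obtain ⟨w2', _, r2'⟩ := h'.1 j k (by simp [tri]) (by simp [tri]) hkj.symm
  obtain ⟨a', ha', r3'⟩ := h'.1 k l (by simp [tri]) (by simp [tri]) hkl
  obtain ⟨b', hb', r4'⟩ := h'.1 l k (by simp [tri]) (by simp [tri]) hkl.symm
  have s1 := congrArg q r1
  have s2 := congrArg q r2
  have s1' := congrArg q r1'
  have s2' := congrArg q r2'
  simp only [map_add, map_smul, smul_eq_mul, z1, z2, z3, z4, mul_zero] at s1 s2 s1' s2'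
  have qe : q (e k) = 0 := by linarith
  have qe' : q (e' k) = 0 := by linarith
  have t : (3 / 4 : ℝ) • e k = a • X (F.u k l) - (b / 2) • X (F.u l k) := by
    linear_combination (norm := module) r3 - (1 / 2 : ℝ) • r4
  have t' : (3 / 4 : ℝ) • e' k = a' • X (F.u k l) - (b' / 2) • X (F.u l k) := by
    linear_combination (norm := module) r3' - (1 / 2 : ℝ) • r4'
  have v := congrArg q t
  have v' := congrArg q t'
  simp only [map_sub, map_smul, smul_eq_mul, qe, qe', mul_zero] at v v'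
  refine ⟨a / a', div_pos ha ha', ?_⟩
  have hab : a * b' = a' * b := by
    have : q (X (F.u l k)) * (a * b' - a' * b) = 0 := by
      linear_combination (-2 * a') * v + 2 * a * v'
    have := (mul_eq_zero.1 this).resolve_left p2.ne'
    linarith
  have hb2 : a / a' * b' = b := by
    field_simp
    linarith
  have hb3 : a / a' * a' = a := by field_simp
  have : e k = (4 / 3 : ℝ) • ((3 / 4 : ℝ) • e k) := by module
  rw [this, t]
  have : (a / a') • e' k = (4 / 3 : ℝ) • ((a / a') • ((3 / 4 : ℝ) • e' k)) := by module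
  rw [this, t']
  congr 1
  have e1 : (a / a') • (a' • X (F.u k l) - (b' / 2) • X (F.u l k)) =
      (a / a' * a') • X (F.u k l) - ((a / a' * b') / 2) • X (F.u l k) := by module
  rw [e1, hb2, hb3]

/-- The common frame. -/
theorem exists_common : ∃ e : Fin (d + 1) → Amb d,
    (∀ k l, k ≠ l → ∃ w : ℝ, 0 < w ∧ e k + (1 / 2 : ℝ) • e l = w • X (F.u k l)) ∧
    (∀ k l m, Dis k l m →
      ∃ w : ℝ, 0 < w ∧ e k + (1 / 6 : ℝ) • e l + (1 / 12 : ℝ) • e m = w • X (F.s k l m)) := by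
  obtain ⟨h0, _, g2, g3⟩ := Frm.real_fun hX (F.ff_nonneg 0)
  -- values of the functional on a frame
  have hval : ∀ i j : Fin (d + 1), Dis 0 i j → ∀ e, Fr F X (tri 0 i j) e →
      h0 (e 0) < 0 ∧ h0 (e i) = -4 * h0 (e 0) := by
    intro i j hd e h
    obtain ⟨hi, hj, hij⟩ := hd
    have d1 : Dis 0 i j := ⟨hi, hj, hij⟩
    have d2 : Dis 0 j i := ⟨hj, hi, hij.symm⟩
    obtain ⟨w1, _, r1⟩ := h.2 0 i j (by simp [tri]) (by simp [tri]) (by simp [tri]) d1
    obtain ⟨w2, _, r2⟩ := h.2 0 j i (by simp [tri]) (by simp [tri]) (by simp [tri]) d2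
    obtain ⟨w3, hw3, r3⟩ := h.1 0 i (by simp [tri]) (by simp [tri]) hi
    have s1 := congrArg h0 r1
    have s2 := congrArg h0 r2
    have s3 := congrArg h0 r3
    simp only [map_add, map_smul, smul_eq_mul, g2 _ (F.s_mem d1) (F.ff_s d1),
      g2 _ (F.s_mem d2) (F.ff_s d2), mul_zero] at s1 s2 s3
    have p3 := mul_pos hw3 (g3 _ (F.u_mem hi) (F.ff_u_pos 0 hi))
    constructor
    · linarith
    · linarith
  -- normalized frames
  let N : Fin (d + 1) → Fin (d + 1) → (Fin (d + 1) → Amb d) → Prop := fun i j e =>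
    Fr F X (tri 0 i j) e ∧ h0 (e 0) = -1
  have exN : ∀ i j : Fin (d + 1), Dis 0 i j → ∃ e, N i j e := by
    intro i j hd
    obtain ⟨e, h⟩ := exists_fr hX hd
    obtain ⟨h1, h2⟩ := hval i j hd e h
    refine ⟨fun m => (-(h0 (e 0)))⁻¹ • e m, h.smul (inv_pos.2 (by linarith)), ?_⟩
    rw [map_smul, smul_eq_mul, inv_neg, neg_mul, inv_mul_cancel₀ h1.ne]
  have symN : ∀ i j e, N i j e → N j i e := by
    intro i j e h
    refine ⟨?_, h.2⟩
    rw [tri_swap]
    exact h.1
  have claim0 : ∀ i j l : Fin (d + 1), Dis 0 i l → Dis 0 j l → i ≠ j → ∀ e e', N i l e →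
      N j l e' → e 0 = e' 0 := by
    intro i j l hi hj hij e e' h h'
    obtain ⟨c, hc, hce⟩ := Fr.par hX hi.1 hj.1 hi.2.1 hij hi.2.2 hj.2.2 h.1 h'.1
    have := congrArg h0 hce
    rw [map_smul, smul_eq_mul, h.2, h'.2] at this
    have hc1 : c = 1 := by linarith
    rw [hce, hc1, one_smul]
  have claim1 : ∀ i j l : Fin (d + 1), Dis 0 i l → Dis 0 j l → ∀ e e', N i l e →
      N j l e' → e 0 = e' 0 := by
    intro i j l hi hj e e' h h'
    by_cases hij : i = j
    · subst hij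
      obtain ⟨a1, a2, a3⟩ := F.ca_ne 0 i l
      have hm : Dis 0 (F.ca (tri 0 i l)) l := ⟨a1.symm, hi.2.1, a3⟩
      obtain ⟨f, hf⟩ := exN _ _ hm
      rw [claim0 i _ l hi hm a2.symm e f h hf, claim0 i _ l hi hm a2.symm e' f h' hf]
    · exact claim0 i j l hi hj hij e e' h h'
  have claim2 : ∀ i j p r : Fin (d + 1), Dis 0 i j → Dis 0 p r → ∀ e e', N i j e → N p r e' →
      e 0 = e' 0 := by
    intro i j p r hd hd' e e' h h'
    by_cases hip : i = p
    · subst hip
      exact claim1 j r i ⟨hd.2.1, hd.1, hd.2.2.symm⟩ ⟨hd'.2.1, hd'.1, hd'.2.2.symm⟩ e e'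
        (symN _ _ _ h) (symN _ _ _ h')
    · have hm : Dis 0 i p := ⟨hd.1, hd'.1, hip⟩
      obtain ⟨f, hf⟩ := exN _ _ hm
      rw [claim1 j p i ⟨hd.2.1, hd.1, hd.2.2.symm⟩ ⟨hd'.1, hd.1, Ne.symm hip⟩ e f
        (symN _ _ _ h) (symN _ _ _ hf)]
      exact claim1 i r p ⟨hd.1, hd'.1, hip⟩ ⟨hd'.2.1, hd'.1, hd'.2.2.symm⟩ f e' hf
        (symN _ _ _ h')
  -- the reference frame
  obtain ⟨a1, _, _⟩ := F.ca_ne 0 0 0
  obtain ⟨b1, b2, _⟩ := F.ca_ne 0 (F.ca (tri 0 0 0)) 0
  have hP : Dis 0 (F.ca (tri 0 0 0)) (F.ca (tri 0 (F.ca (tri 0 0 0)) 0)) :=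
    ⟨a1.symm, b1.symm, b2.symm⟩
  obtain ⟨c, hc⟩ := exN _ _ hP
  have key : ∀ i j : Fin (d + 1), Dis 0 i j → ∀ e, N i j e → e 0 = c 0 :=
    fun i j hd e h => claim2 i j _ _ hd hP e c h hc
  let γ : Fin (d + 1) → Amb d := fun k =>
    ((7 / 2) / h0 (X (F.u k 0))) • X (F.u k 0) - (1 / 2 : ℝ) • c 0
  have key2 : ∀ i j : Fin (d + 1), Dis 0 i j → ∀ e, N i j e → e i = γ i := by
    intro i j hd e h
    obtain ⟨w, hw, r⟩ := h.1.1 i 0 (by simp [tri]) (by simp [tri]) hd.1.symm
    have s := congrArg h0 r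
    obtain ⟨_, v2⟩ := hval i j hd e h.1
    simp only [map_add, map_smul, smul_eq_mul, v2, h.2] at s
    have hp := g3 _ (F.u_mem hd.1.symm) (F.ff_u_pos 0 hd.1.symm)
    have hw' : w = (7 / 2) / h0 (X (F.u i 0)) := by
      rw [eq_div_iff hp.ne']
      linarith
    simp only [γ]
    rw [← hw', ← r, key i j hd e h]
    module
  let E : Fin (d + 1) → Amb d := fun k => if k = 0 then c 0 else γ k
  have E0 : E 0 = c 0 := by simp [E]
  have Ek : ∀ k, k ≠ 0 → E k = γ k := by
    intro k hk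
    simp [E, hk]
  -- the planes containing the index zero
  have fr0 : ∀ i j : Fin (d + 1), Dis 0 i j → Fr F X (tri 0 i j) E := by
    intro i j hd
    obtain ⟨e, h⟩ := exN i j hd
    refine h.1.congr ?_
    intro k hk
    rw [mem_tri] at hk
    rcases hk with rfl | rfl | rfl
    · rw [E0, key i j hd e h]
    · rw [Ek k hd.1.symm, key2 k j hd e h]
    · rw [Ek k hd.2.1.symm, key2 k i ⟨hd.2.1, hd.1, hd.2.2.symm⟩ e (symN _ _ _ h)]
  -- the other planes
  have fr1 : ∀ k l m : Fin (d + 1), Dis k l m → k ≠ 0 → l ≠ 0 → m ≠ 0 →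
      Fr F X (tri k l m) E := by
    intro k l m hd hk hl hm
    obtain ⟨e, h⟩ := exists_fr hX hd
    obtain ⟨h1, h2, h3⟩ := hd
    -- parallel vectors
    have par1 : ∀ a b c : Fin (d + 1), Dis a b c → a ≠ 0 → b ≠ 0 → c ≠ 0 →
        Fr F X (tri a b c) e → ∃ t : ℝ, 0 < t ∧ e a = t • E a := by
      intro a b c hdis ha hb hc hf
      have f0 : Fr F X (tri a 0 c) E := by
        rw [tri_rot]
        exact fr0 a c ⟨ha.symm, hc.symm, hdis.2.1⟩
      exact Fr.par hX hdis.1 ha hdis.2.1 hb hdis.2.2 (Ne.symm hc) hf f0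
    have par2 : ∀ a b c : Fin (d + 1), Dis a b c → a ≠ 0 → b ≠ 0 → c ≠ 0 →
        Fr F X (tri a b c) e → ∀ t s : ℝ, e a = t • E a → e b = s • E b → t = s := by
      intro a b c hdis ha hb hc hf t s ht hs
      obtain ⟨w, hw, r⟩ := hf.1 a b (by simp [tri]) (by simp [tri]) hdis.1
      have f0 := fr0 a b ⟨ha.symm, hb.symm, hdis.1⟩
      obtain ⟨w', hw', r'⟩ := f0.1 a b (by simp [tri]) (by simp [tri]) hdis.1
      obtain ⟨x, _, x2, x3⟩ := Frm.real_fun hX (F.ef_verts_nonneg b 0)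
      obtain ⟨z, _, z2, z3⟩ := Frm.real_fun hX (F.ef_verts_nonneg a 0)
      obtain ⟨_, _, q1⟩ := f0.1 b 0 (by simp [tri]) (by simp [tri]) hb
      obtain ⟨_, _, q2⟩ := f0.1 0 b (by simp [tri]) (by simp [tri]) hb.symm
      obtain ⟨_, _, q3⟩ := f0.1 a 0 (by simp [tri]) (by simp [tri]) ha
      obtain ⟨_, _, q4⟩ := f0.1 0 a (by simp [tri]) (by simp [tri]) ha.symm
      have y1 := congrArg x q1
      have y2 := congrArg x q2
      have y3 := congrArg z q3
      have y4 := congrArg z q4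
      simp only [map_add, map_smul, smul_eq_mul, x2 _ (F.u_mem hb) (F.lf_ef_u b 0),
        x2 _ (F.u_mem hb.symm) (F.lf_ef_u' b 0), z2 _ (F.u_mem ha) (F.lf_ef_u a 0),
        z2 _ (F.u_mem ha.symm) (F.lf_ef_u' a 0), mul_zero] at y1 y2 y3 y4
      have xb : x (E b) = 0 := by linarith
      have za : z (E a) = 0 := by linarith
      have hne1 : ¬ ((a = b ∨ a = 0) ∧ (b = b ∨ b = 0)) := fun h => by
        rcases h.1 with h | h
        · exact hdis.1 h
        · exact ha h
      have hne2 : ¬ ((a = a ∨ a = 0) ∧ (b = a ∨ b = 0)) := fun h => by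
        rcases h.2 with h | h
        · exact hdis.1 h.symm
        · exact hb h
      have px := x3 _ (F.u_mem hdis.1) (F.ef_u_pos hne1)
      have pz := z3 _ (F.u_mem hdis.1) (F.ef_u_pos hne2)
      rw [ht, hs] at r
      have R : w' • (t • E a + (1 / 2 : ℝ) • s • E b) = w • (E a + (1 / 2 : ℝ) • E b) := by
        rw [r, r', smul_smul, smul_smul, mul_comm]
      have v1 := congrArg x R
      have v2 := congrArg z R
      have v3 := congrArg x r'
      have v4 := congrArg z r'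
      simp only [map_add, map_smul, smul_eq_mul, xb, za, mul_zero, add_zero, zero_add]
        at v1 v2 v3 v4
      have pa : 0 < x (E a) := by
        rw [v3]
        positivity
      have pb : 0 < z (E b) := by
        have : 0 < 1 / 2 * z (E b) := by
          rw [v4]
          positivity
        linarith
      have w1 : w' * t = w := by
        have : x (E a) * (w' * t - w) = 0 := by linear_combination v1
        have := (mul_eq_zero.1 this).resolve_left pa.ne'
        linarith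
      have w2 : w' * s = w := by
        have : z (E b) * (w' * s - w) = 0 := by linear_combination 2 * v2
        have := (mul_eq_zero.1 this).resolve_left pb.ne'
        linarith
      have : w' * (t - s) = 0 := by linarith
      have := (mul_eq_zero.1 this).resolve_left hw'.ne'
      linarith
    obtain ⟨tk, htk, hek⟩ := par1 k l m ⟨h1, h2, h3⟩ hk hl hm h
    obtain ⟨tl, htl, hel⟩ := par1 l k m ⟨h1.symm, h3, h2⟩ hl hk hm (by rw [tri_rot]; exact h)
    obtain ⟨tm, htm, hem⟩ := par1 m k l ⟨h2.symm, h3.symm, h1⟩ hm hk hl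
      (by rw [tri_rot, tri_swap]; exact h)
    have t1 := par2 k l m ⟨h1, h2, h3⟩ hk hl hm h tk tl hek hel
    have t2 := par2 k m l ⟨h2, h1, h3.symm⟩ hk hm hl (by rw [tri_swap]; exact h) tk tm hek hem
    subst t1
    subst t2
    have h' := h.smul (inv_pos.2 htk)
    refine h'.congr ?_
    intro n hn
    rw [mem_tri] at hn
    rcases hn with rfl | rfl | rfl
    · rw [hek, inv_smul_smul₀ htk.ne']
    · rw [hel, inv_smul_smul₀ htk.ne']
    · rw [hem, inv_smul_smul₀ htk.ne']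
  -- all planes
  have fr : ∀ k l m : Fin (d + 1), Dis k l m → Fr F X (tri k l m) E := by
    intro k l m hd
    obtain ⟨h1, h2, h3⟩ := hd
    by_cases hk : k = 0
    · subst hk
      exact fr0 l m ⟨h1, h2, h3⟩
    · by_cases hl : l = 0
      · subst hl
        rw [tri_rot]
        exact fr0 k m ⟨h1.symm, h3, h2⟩
      · by_cases hm : m = 0
        · subst hm
          rw [tri_swap, tri_rot]
          exact fr0 k l ⟨h2.symm, h3.symm, h1⟩
        · exact fr1 k l m ⟨h1, h2, h3⟩ hk hl hm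
  refine ⟨E, fun k l hkl => ?_, fun k l m hd => ?_⟩
  · obtain ⟨c1, c2, _⟩ := F.ca_ne k l l
    exact (fr k l (F.ca (tri k l l)) ⟨hkl, c1.symm, c2.symm⟩).1 k l (by simp [tri])
      (by simp [tri]) hkl
  · exact (fr k l m hd).2 k l m (by simp [tri]) (by simp [tri]) (by simp [tri]) hd

end

end Pool.Agent.U285.Scrib
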