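import Pool.Agent.U285.Scrib.Common

/-!
# The final contradiction
-/

namespace Pool.Agent.U285.Scrib

open Submodule Pool.Agent.Helper101_Scrib

variable {d : ℕ}

/-- Two causal vectors on the same side with nonnegative product are parallel. -/
theorem parallel_of_causal {x y : Amb d} (hx : bil x x ≤ 0) (hy : bil y y ≤ 0)
    (hxy : 0 ≤ bil x y) (h0 : 0 < x 0 * y 0) : y 0 • x + (-(x 0)) • y = 0 := by
  obtain ⟨z, hz⟩ : ∃ z, z = y 0 • x + (-(x 0)) • y := ⟨_, rfl⟩
  rw [← hz]
  have hz0 : z 0 = 0 := by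
    rw [hz]
    simp only [Pi.add_apply, Pi.smul_apply, smul_eq_mul]
    ring
  have h1 : bil z z = y 0 ^ 2 * bil x x - 2 * (x 0 * y 0) * bil x y + x 0 ^ 2 * bil y y := by
    rw [hz]
    simp only [map_add, LinearMap.add_apply, map_smul, LinearMap.smul_apply, smul_eq_mul]
    rw [bil_comm y x]
    ring
  have h2 : bil z z ≤ 0 := by
    rw [h1]
    have a1 : y 0 ^ 2 * bil x x ≤ 0 := mul_nonpos_of_nonneg_of_nonpos (sq_nonneg _) hx
    have a2 : 0 ≤ 2 * (x 0 * y 0) * bil x y := by positivity
    have a3 : x 0 ^ 2 * bil y y ≤ 0 := mul_nonpos_of_nonneg_of_nonpos (sq_nonneg _) hy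
    linarith
  rw [bil_self, hz0] at h2
  have h3 : ∑ i : Fin d, z i.succ ^ 2 = 0 := by
    apply le_antisymm
    · have : (-(0 : ℝ) ^ 2) = 0 := by norm_num
      linarith
    · exact Finset.sum_nonneg fun i _ => sq_nonneg _
  rw [Finset.sum_eq_zero_iff_of_nonneg (fun i _ => sq_nonneg _)] at h3
  ext i
  refine Fin.cases hz0 (fun j => ?_) i
  exact pow_eq_zero_iff (two_ne_zero) |>.1 (h3 j (Finset.mem_univ j))

theorem eq_zero_of_causal {x : Amb d} (hx : bil x x ≤ 0) (h0 : x 0 = 0) : x = 0 := by
  rw [bil_self, h0] at hx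
  have h3 : ∑ i : Fin d, x i.succ ^ 2 = 0 := by
    apply le_antisymm
    · have : (-(0 : ℝ) ^ 2) = 0 := by norm_num
      linarith
    · exact Finset.sum_nonneg fun i _ => sq_nonneg _
  rw [Finset.sum_eq_zero_iff_of_nonneg (fun i _ => sq_nonneg _)] at h3
  ext i
  refine Fin.cases h0 (fun j => ?_) i
  exact pow_eq_zero_iff (two_ne_zero) |>.1 (h3 j (Finset.mem_univ j))

/-- The final contradiction. -/
theorem contradiction_of_frame (hd : 2 ≤ d) {e : Fin (d + 1) → Amb d}
    (hv : ∀ k l, k ≠ l →
      0 ≤ bil (e k + (1 / 2 : ℝ) • e l) (e k + (1 / 2 : ℝ) • e l))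
    (hcut : ∀ k, ∃ x : Amb d, x ≠ 0 ∧ bil x x ≤ 0 ∧ ∃ W : ℝ, ∃ t : Fin (d + 1) → ℝ,
      0 ≤ W ∧ (∀ l, 0 ≤ t l) ∧ t k = 0 ∧ ∑ l, t l ≤ (1 / 4) * W ∧ x = W • e k + ∑ l, t l • e l)
    (hli : ∀ k l, k ≠ l → ∀ s t : ℝ, s • e k + t • e l = 0 → s = 0 ∧ t = 0) : False := by
  classical
  obtain ⟨m, _, hm⟩ := Finset.exists_max_image (Finset.univ : Finset (Fin (d + 1)))
    (fun k => bil (e k) (e k)) ⟨0, Finset.mem_univ 0⟩
  have hm' : ∀ k, bil (e k) (e k) ≤ bil (e m) (e m) := fun k => hm k (Finset.mem_univ k)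
  have hv' : ∀ k l, k ≠ l → 0 ≤ bil (e k) (e k) + bil (e k) (e l) + (1 / 4) * bil (e l) (e l) := by
    intro k l hkl
    have := hv k l hkl
    simp only [map_add, LinearMap.add_apply, map_smul, LinearMap.smul_apply, smul_eq_mul] at this
    rw [bil_comm (e l) (e k)] at this
    linarith
  obtain ⟨M, hM⟩ : ∃ M, M = bil (e m) (e m) := ⟨_, rfl⟩
  rw [← hM] at hm'
  by_cases hMpos : 0 < M
  · obtain ⟨x, hx0, hxx, W, t, hW, ht, htm, hts, hx⟩ := hcut m
    have hWpos : 0 < W := by
      refine lt_of_le_of_ne hW (fun h => hx0 ?_)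
      rw [← h, mul_zero] at hts
      have h1 : ∑ l, t l = 0 := le_antisymm hts (Finset.sum_nonneg fun l _ => ht l)
      rw [Finset.sum_eq_zero_iff_of_nonneg (fun l _ => ht l)] at h1
      rw [hx, ← h, zero_smul, zero_add]
      apply Finset.sum_eq_zero
      intro l hl
      rw [h1 l hl, zero_smul]
    obtain ⟨S, hS⟩ : ∃ S, S = ∑ l, t l := ⟨_, rfl⟩
    have hS0 : 0 ≤ S := by rw [hS]; exact Finset.sum_nonneg fun l _ => ht l
    have htS : ∀ l, t l ≤ S := by
      intro l
      rw [hS]
      exact Finset.single_le_sum (fun i _ => ht i) (Finset.mem_univ l)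
    rw [← hS] at hts
    -- the expansion of the form
    have b3 : bil x x = W ^ 2 * M + 2 * W * ∑ l, t l * bil (e m) (e l) +
        ∑ l, ∑ n, t l * t n * bil (e l) (e n) := by
      have c1 : bil (∑ l, t l • e l) (∑ l, t l • e l) =
          ∑ l, ∑ n, t l * t n * bil (e l) (e n) := by
        have c0 : ∀ z, bil (∑ l, t l • e l) z = ∑ l, t l * bil (e l) z := by
          intro z
          rw [bil_comm, map_sum]
          apply Finset.sum_congr rfl
          intro l _
          rw [map_smul, smul_eq_mul, bil_comm]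
        rw [c0]
        apply Finset.sum_congr rfl
        intro l _
        rw [map_sum, Finset.mul_sum]
        apply Finset.sum_congr rfl
        intro n _
        rw [map_smul, smul_eq_mul]
        ring
      have c2 : bil (e m) (∑ l, t l • e l) = ∑ l, t l * bil (e m) (e l) := by
        rw [map_sum]
        apply Finset.sum_congr rfl
        intro l _
        rw [map_smul, smul_eq_mul]
      rw [hx]
      have c3 : bil (W • e m + ∑ l, t l • e l) (W • e m + ∑ l, t l • e l) =
          W ^ 2 * bil (e m) (e m) + 2 * W * bil (e m) (∑ l, t l • e l) +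
          bil (∑ l, t l • e l) (∑ l, t l • e l) := by
        obtain ⟨y, hy⟩ : ∃ y, y = ∑ l, t l • e l := ⟨_, rfl⟩
        rw [← hy]
        simp only [map_add, LinearMap.add_apply, map_smul, LinearMap.smul_apply, smul_eq_mul]
        rw [bil_comm y (e m)]
        ring
      rw [c3, c1, c2, hM]
    -- off-diagonal products
    have off : ∀ l n, l ≠ n → -(5 / 4) * M ≤ bil (e l) (e n) := by
      intro l n hln
      have h1 := hv' l n hln
      have h2 := hm' l
      have h3 := hm' n
      linarith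
    have d1 : ∑ l, (-(5 / 2) * W * M * t l) ≤
        ∑ l, (2 * W * (t l * bil (e m) (e l)) + t l ^ 2 * bil (e l) (e l)) := by
      apply Finset.sum_le_sum
      intro l _
      by_cases hlm : l = m
      · subst hlm
        rw [htm]
        simp
      · have h1 := hv' l m hlm
        rw [bil_comm (e l) (e m), ← hM] at h1
        have h2 := off m l (Ne.symm hlm)
        have h3 := ht l
        have h4 : t l ≤ W / 4 := by
          have := htS l
          linarith
        by_cases hneg : 0 ≤ bil (e l) (e l)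
        · have p1 : 0 ≤ t l ^ 2 * bil (e l) (e l) := by positivity
          have p2 : 2 * W * t l * (-(5 / 4) * M) ≤ 2 * W * t l * bil (e m) (e l) :=
            mul_le_mul_of_nonneg_left h2 (by positivity)
          linarith
        · push Not at hneg
          have p1 : 2 * W * t l * (-(bil (e l) (e l)) - 1 / 4 * M) ≤
              2 * W * t l * bil (e m) (e l) :=
            mul_le_mul_of_nonneg_left (by linarith) (by positivity)
          have p2 : 0 ≤ t l * (2 * W - t l) * (-(bil (e l) (e l))) :=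
            mul_nonneg (mul_nonneg h3 (by linarith)) (by linarith)
          have p3 : 0 ≤ W * M * t l := by positivity
          nlinarith
    have d2 : ∑ l, ∑ n, (-(5 / 4) * M * (t l * t n) +
        if l = n then t l ^ 2 * bil (e l) (e l) else 0) ≤
        ∑ l, ∑ n, t l * t n * bil (e l) (e n) := by
      apply Finset.sum_le_sum
      intro l _
      apply Finset.sum_le_sum
      intro n _
      have q := mul_nonneg (ht l) (ht n)
      split_ifs with h
      · subst h
        have : 0 ≤ 5 / 4 * M * (t l * t l) := by positivity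
        nlinarith
      · have := mul_le_mul_of_nonneg_left (off l n h) q
        linarith
    have d3 : ∑ l, ∑ n, (-(5 / 4) * M * (t l * t n) +
        if l = n then t l ^ 2 * bil (e l) (e l) else 0) =
        -(5 / 4) * M * S ^ 2 + ∑ l, t l ^ 2 * bil (e l) (e l) := by
      simp only [Finset.sum_add_distrib, Finset.sum_ite_eq, Finset.mem_univ, if_true]
      congr 1
      rw [hS, sq, Finset.sum_mul_sum, Finset.mul_sum]
      apply Finset.sum_congr rfl
      intro l _
      rw [Finset.mul_sum]
    have d4 : ∑ l, (-(5 / 2) * W * M * t l) = -(5 / 2) * W * M * S := by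
      rw [← Finset.mul_sum, hS]
    have d5 : ∑ l, (2 * W * (t l * bil (e m) (e l)) + t l ^ 2 * bil (e l) (e l)) =
        2 * W * ∑ l, t l * bil (e m) (e l) + ∑ l, t l ^ 2 * bil (e l) (e l) := by
      rw [Finset.sum_add_distrib, Finset.mul_sum]
    rw [d4, d5] at d1
    rw [d3] at d2
    have d6 : W ^ 2 * M - 5 / 2 * W * M * S - 5 / 4 * M * S ^ 2 ≤ bil x x := by
      rw [b3]
      linarith
    have d7 : W * M * S ≤ W * M * (W / 4) :=
      mul_le_mul_of_nonneg_left (by linarith) (by positivity)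
    have d8 : M * S ^ 2 ≤ M * (W / 4) ^ 2 := by
      apply mul_le_mul_of_nonneg_left _ hMpos.le
      apply pow_le_pow_left₀ hS0
      linarith
    have d9 : 0 < W ^ 2 * M := by positivity
    nlinarith
  · push Not at hMpos
    have hneg : ∀ k, bil (e k) (e k) ≤ 0 := fun k => (hm' k).trans hMpos
    have hprod : ∀ k l, k ≠ l → 0 ≤ bil (e k) (e l) := by
      intro k l hkl
      have h1 := hv' k l hkl
      have h2 := hneg k
      have h3 := hneg l
      linarith
    -- three indices
    let i0 : Fin (d + 1) := ⟨0, by omega⟩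
    let i1 : Fin (d + 1) := ⟨1, by omega⟩
    let i2 : Fin (d + 1) := ⟨2, by omega⟩
    have n01 : i0 ≠ i1 := by simp [i0, i1]
    have n02 : i0 ≠ i2 := by simp [i0, i2]
    have n12 : i1 ≠ i2 := by simp [i1, i2]
    have hne : ∀ k l, k ≠ l → e k 0 ≠ 0 := by
      intro k l hkl h0
      have h1 := eq_zero_of_causal (hneg k) h0
      have := hli k l hkl 1 0 (by rw [h1]; simp)
      exact one_ne_zero this.1
    have pair : ∀ k l, k ≠ l → ¬ 0 < e k 0 * e l 0 := by
      intro k l hkl h
      have h1 := parallel_of_causal (hneg k) (hneg l) (hprod k l hkl) h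
      have h2 := hli k l hkl _ _ h1
      exact hne l k hkl.symm h2.1
    have p01 := pair _ _ n01
    have p02 := pair _ _ n02
    have p12 := pair _ _ n12
    have z0 := hne _ _ n01
    have z1 := hne _ _ n12
    have z2 := hne _ _ n12.symm
    have q01 : e i0 0 * e i1 0 < 0 := lt_of_le_of_ne (not_lt.1 p01) (mul_ne_zero z0 z1)
    have q02 : e i0 0 * e i2 0 < 0 := lt_of_le_of_ne (not_lt.1 p02) (mul_ne_zero z0 z2)
    have q12 : e i1 0 * e i2 0 < 0 := lt_of_le_of_ne (not_lt.1 p12) (mul_ne_zero z1 z2)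
    have r1 := mul_pos_of_neg_of_neg q01 q02
    have r2 : e i0 0 * e i1 0 * (e i0 0 * e i2 0) = (e i0 0) ^ 2 * (e i1 0 * e i2 0) := by ring
    rw [r2] at r1
    have r3 : (e i0 0) ^ 2 * (e i1 0 * e i2 0) ≤ 0 :=
      mul_nonpos_of_nonneg_of_nonpos (sq_nonneg _) q12.le
    linarith

end Pool.Agent.U285.Scrib
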