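import Pool.Agent.U285.Scrib.Zero

/-!
# Vertices, edges and dimensions of the faces
-/

set_option linter.unusedSimpArgs false

namespace Pool.Agent.U285.Scrib

open Submodule Pool.Agent.Helper101_Scrib

variable {d : ℕ}

namespace Frm

variable (F : Frm d)

theorem zero_face {h : Fin (d + 1) → ℝ} (hn : ∀ v ∈ F.verts, 0 ≤ F.lf h v) :
    IsFace (F.verts : Set (Amb d)) {v | v ∈ F.verts ∧ F.lf h v = 0} :=
  ⟨F.lf h, fun v hv => hn v hv, by ext v; simp⟩

theorem y_inj {A B C : Fin (d + 1)} (hd : Dis A B C) (r : Fin 3) {t t' : Fin 2} {j j' : ℝ}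
    (hj : J j) (h : F.y A B C r t j = F.y A B C r t' j') : t = t' ∧ j = j' := by
  constructor
  · by_contra ht
    have h1 := F.st_y hd r t' j'
    rw [← h] at h1
    exact (F.st_y_pos hd r t' t ht j).ne' h1
  · have h1 := F.cr_y hd r 0 t hj j
    rw [h, F.cr_y hd r 0 t' hj] at h1
    have h2 := crE_pos r 0
    have h3 : (j' - j) ^ 2 = 0 := by
      have : crE r 0 * (j' - j) ^ 2 = 0 := by rw [h1]; ring
      exact (mul_eq_zero.1 this).resolve_left h2.ne'
    exact (sub_eq_zero.1 (pow_eq_zero_iff (two_ne_zero) |>.1 h3)).symm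

theorem y_ne_u {A B C : Fin (d + 1)} (hd : Dis A B C) (r : Fin 3) (t : Fin 2) {j : ℝ} (hj : J j)
    {k l : Fin (d + 1)} : F.y A B C r t j ≠ F.u k l := by
  intro h
  have h1 := F.pl_y_pos (A := k) (B := l) (C := l) hd r t hj
  rw [h, F.pl_u (by simp [tri]) (by simp [tri])] at h1
  exact lt_irrefl _ h1

theorem y_ne_s {A B C : Fin (d + 1)} (hd : Dis A B C) (r : Fin 3) (t : Fin 2) {j : ℝ} (hj : J j)
    {k l m : Fin (d + 1)} : F.y A B C r t j ≠ F.s k l m := by
  intro h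
  have h1 := F.pl_y_pos (A := k) (B := l) (C := m) hd r t hj
  rw [h, F.pl_s (by simp [tri]) (by simp [tri]) (by simp [tri])] at h1
  exact lt_irrefl _ h1

theorem u_ne_s {k l : Fin (d + 1)} (hkl : k ≠ l) {m n p : Fin (d + 1)} (h : Dis m n p) :
    F.u k l ≠ F.s m n p := by
  intro he
  have h1 := F.ff_u_pos m hkl
  rw [he, F.ff_s h] at h1
  exact lt_irrefl _ h1

theorem y_ne_sg {A B C A' B' C' : Fin (d + 1)} (hd : Dis A B C) (r r' : Fin 3) (t t' : Fin 2)
    {j : ℝ} (hj : J j) : F.y A B C r t j ≠ F.sg A' B' C' r' t' := by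
  apply F.sg_cases A' B' C' r' t' (P := fun v => F.y A B C r t j ≠ v)
  · exact F.y_ne_u hd r t hj
  · exact F.y_ne_s hd r t hj
  · exact F.y_ne_s hd r t hj
  · exact F.y_ne_u hd r t hj
  · exact F.y_ne_u hd r t hj
  · exact F.y_ne_u hd r t hj

theorem eg_cases (A B C : Fin (d + 1)) (r : Fin 3) (i : Fin 2) {P : Amb d → Amb d → Prop}
    (h1 : P (F.u A B) (F.u B A)) (h2 : P (F.u B C) (F.u C B)) (h3 : P (F.u A C) (F.s A C B)) :
    P (F.eg A B C r i).1 (F.eg A B C r i).2 := by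
  fin_cases r <;> fin_cases i <;> assumption

theorem y_ne_eg {A B C A' B' C' : Fin (d + 1)} (hd : Dis A B C) (r r' : Fin 3) (t i : Fin 2)
    {j : ℝ} (hj : J j) :
    F.y A B C r t j ≠ (F.eg A' B' C' r' i).1 ∧ F.y A B C r t j ≠ (F.eg A' B' C' r' i).2 := by
  apply F.eg_cases A' B' C' r' i (P := fun v w => F.y A B C r t j ≠ v ∧ F.y A B C r t j ≠ w)
  · exact ⟨F.y_ne_u hd r t hj, F.y_ne_u hd r t hj⟩
  · exact ⟨F.y_ne_u hd r t hj, F.y_ne_u hd r t hj⟩
  · exact ⟨F.y_ne_u hd r t hj, F.y_ne_s hd r t hj⟩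

theorem sg_ne_eg {A B C : Fin (d + 1)} (hd : Dis A B C) (r : Fin 3) (t i : Fin 2) :
    F.sg A B C r t ≠ (F.eg A B C r i).1 ∧ F.sg A B C r t ≠ (F.eg A B C r i).2 := by
  have h := F.cr_sg_pos hd r i t 0
  constructor
  · intro h1
    rw [h1, F.cr_eg1 hd] at h
    exact lt_irrefl _ h
  · intro h1
    rw [h1, F.cr_eg2 hd] at h
    exact lt_irrefl _ h

theorem sg_ne_sg {A B C : Fin (d + 1)} (hd : Dis A B C) (r : Fin 3) {t t' : Fin 2} (ht : t' ≠ t) :
    F.sg A B C r t' ≠ F.sg A B C r t := by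
  intro h
  have h1 := F.st_sg_pos hd r t t' ht
  rw [h, F.st_sg hd] at h1
  exact lt_irrefl _ h1

theorem u_ne_u {k l m n : Fin (d + 1)} (hkl : k ≠ l) (hne : ¬ (k = m ∧ l = n)) :
    F.u k l ≠ F.u m n := by
  intro h
  have h1 := congrArg (F.lf (fun p => if p = k then 1 else 0)) h
  have h2 := congrArg (F.lf (fun p => if p = l then 1 else 0)) h
  simp only [lf_u, if_true, if_neg hkl, if_neg hkl.symm] at h1 h2
  apply hne
  by_cases c1 : m = k
  · refine ⟨c1.symm, ?_⟩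
    by_contra c2
    have c3 : ¬ n = l := fun h => c2 h.symm
    have c4 : ¬ m = l := fun h => hkl (c1.symm.trans h)
    rw [if_neg c3, if_neg c4] at h2
    norm_num at h2
  · exfalso
    rw [if_neg c1] at h1
    split_ifs at h1 <;> norm_num at h1

theorem eg_ne {A B C : Fin (d + 1)} (hd : Dis A B C) (r : Fin 3) (i : Fin 2) :
    (F.eg A B C r i).1 ≠ (F.eg A B C r i).2 := by
  apply F.eg_cases A B C r i (P := fun v w => v ≠ w)
  · exact F.u_ne_u hd.1 fun h => hd.1 h.1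
  · exact F.u_ne_u hd.2.2 fun h => hd.2.2 h.1
  · exact F.u_ne_s hd.2.1 ⟨hd.2.1, hd.1, hd.2.2.symm⟩

theorem eg_mem {A B C : Fin (d + 1)} (hd : Dis A B C) (r : Fin 3) (i : Fin 2) :
    (F.eg A B C r i).1 ∈ F.verts ∧ (F.eg A B C r i).2 ∈ F.verts := by
  apply F.eg_cases A B C r i (P := fun v w => v ∈ F.verts ∧ w ∈ F.verts)
  · exact ⟨F.u_mem hd.1, F.u_mem hd.1.symm⟩
  · exact ⟨F.u_mem hd.2.2, F.u_mem hd.2.2.symm⟩
  · exact ⟨F.u_mem hd.2.1, F.s_mem ⟨hd.2.1, hd.1, hd.2.2.symm⟩⟩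

theorem sg_mem {A B C : Fin (d + 1)} (hd : Dis A B C) (r : Fin 3) (t : Fin 2) :
    F.sg A B C r t ∈ F.verts := by
  obtain ⟨h1, h2, h3⟩ := hd
  apply F.sg_cases A B C r t (P := fun v => v ∈ F.verts)
  · exact F.u_mem h2
  · exact F.s_mem ⟨h1.symm, h3, h2⟩
  · exact F.s_mem ⟨h1, h2, h3⟩
  · exact F.u_mem h3.symm
  · exact F.u_mem h1
  · exact F.u_mem h2.symm

theorem pl_sg {A B C : Fin (d + 1)} (r : Fin 3) (t : Fin 2) :
    F.lf (F.pl A B C) (F.sg A B C r t) = 0 := by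
  have hA : A ∈ tri A B C := by simp [tri]
  have hB : B ∈ tri A B C := by simp [tri]
  have hC : C ∈ tri A B C := by simp [tri]
  apply F.sg_cases A B C r t (P := fun v => F.lf (F.pl A B C) v = 0)
  · exact F.pl_u hA hC
  · exact F.pl_s hB hA hC
  · exact F.pl_s hA hB hC
  · exact F.pl_u hC hB
  · exact F.pl_u hA hB
  · exact F.pl_u hC hA

theorem pl_eg {A B C : Fin (d + 1)} (r : Fin 3) (i : Fin 2) :
    F.lf (F.pl A B C) (F.eg A B C r i).1 = 0 ∧ F.lf (F.pl A B C) (F.eg A B C r i).2 = 0 := by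
  have hA : A ∈ tri A B C := by simp [tri]
  have hB : B ∈ tri A B C := by simp [tri]
  have hC : C ∈ tri A B C := by simp [tri]
  apply F.eg_cases A B C r i
    (P := fun v w => F.lf (F.pl A B C) v = 0 ∧ F.lf (F.pl A B C) w = 0)
  · exact ⟨F.pl_u hA hB, F.pl_u hB hA⟩
  · exact ⟨F.pl_u hB hC, F.pl_u hC hB⟩
  · exact ⟨F.pl_u hA hC, F.pl_s hA hC hB⟩

/-- The attaching vertices are vertices. -/
theorem sg_vertex {A B C : Fin (d + 1)} (hd : Dis A B C) (r : Fin 3) (t : Fin 2) :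
    IsFace (F.verts : Set (Amb d)) {F.sg A B C r t} := by
  have h := (F.zero_face (F.st_Loc hd r t).nonneg).inter (F.zero_face (F.pl_nonneg A B C))
  convert h using 1
  ext v
  simp only [Set.mem_singleton_iff, Set.mem_inter_iff, Set.mem_ofPred_eq]
  constructor
  · rintro rfl
    exact ⟨⟨F.sg_mem hd r t, F.st_sg hd r t⟩, F.sg_mem hd r t, F.pl_sg r t⟩
  · rintro ⟨⟨hv, h1⟩, _, h2⟩
    rcases F.st_zero hd r t hv h1 with h3 | ⟨j, hj, rfl⟩
    · exact h3
    · exact absurd h2 (F.pl_y_pos hd r t hj).ne'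

theorem u_vertex {k l : Fin (d + 1)} (h : k ≠ l) : IsFace (F.verts : Set (Amb d)) {F.u k l} := by
  obtain ⟨h1, h2, _⟩ := F.ca_ne k l l
  have := F.sg_vertex (A := k) (B := F.ca (tri k l l)) (C := l) ⟨h1.symm, h, h2⟩ 0 0
  exact this

theorem s_vertex {k l m : Fin (d + 1)} (h : Dis k l m) :
    IsFace (F.verts : Set (Amb d)) {F.s k l m} := by
  have := F.sg_vertex (A := l) (B := k) (C := m) ⟨h.1.symm, h.2.2, h.2.1⟩ 0 1
  exact this

theorem y_vertex {A B C : Fin (d + 1)} (hd : Dis A B C) (r : Fin 3) (t : Fin 2) {j : ℝ}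
    (hj : J j) : IsFace (F.verts : Set (Amb d)) {F.y A B C r t j} := by
  have h := (F.zero_face (F.st_Loc hd r t).nonneg).inter
    (F.zero_face (F.cr_Loc hd r 0 hj).nonneg)
  convert h using 1
  ext v
  simp only [Set.mem_singleton_iff, Set.mem_inter_iff, Set.mem_ofPred_eq]
  constructor
  · rintro rfl
    refine ⟨⟨F.y_mem hd hj, F.st_y hd r t j⟩, F.y_mem hd hj, ?_⟩
    show F.lf (F.cr A B C r 0 j) _ = 0
    rw [F.cr_y hd r 0 t hj]
    ring
  · rintro ⟨⟨hv, h1⟩, _, h2⟩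
    have h2' : F.lf (F.cr A B C r 0 j) v = 0 := h2
    rcases F.st_zero hd r t hv h1 with rfl | ⟨j', hj', rfl⟩
    · exact absurd h2' (F.cr_sg_pos hd r 0 t j).ne'
    · rw [F.cr_y hd r 0 t hj] at h2'
      have h3 := crE_pos r 0
      have h4 : (j' - j) ^ 2 = 0 := (mul_eq_zero.1 h2').resolve_left h3.ne'
      rw [sub_eq_zero.1 (pow_eq_zero_iff (two_ne_zero) |>.1 h4)]

theorem vertex {v : Amb d} (hv : v ∈ F.verts) : IsFace (F.verts : Set (Amb d)) {v} := by
  rcases (F.mem_verts v).1 hv with ⟨m, n, hmn, rfl⟩ | ⟨m, n, p, hd, rfl⟩ |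
    ⟨A', B', C', r', t, j, hd, hj, rfl⟩
  · exact F.u_vertex hmn
  · exact F.s_vertex hd
  · exact F.y_vertex hd r' t hj

/-- The twelve-gon has dimension two. -/
theorem linDim_pl (A B C : Fin (d + 1)) :
    linDim {v | v ∈ F.verts ∧ F.lf (F.pl A B C) v = 0} ≤ 3 := by
  apply Frame.linDim_le_three (a := F.b A) (b := F.b B) (c := F.b C)
  have hmem : ∀ k ∈ tri A B C, F.b k ∈ span ℝ ({F.b A, F.b B, F.b C} : Set (Amb d)) := by
    intro k hk
    rw [mem_tri] at hk
    apply Submodule.subset_span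
    rcases hk with rfl | rfl | rfl <;> simp
  rintro v ⟨hv, h0⟩
  rcases F.pl_zero hv h0 with ⟨k, l, hk, hl, _, rfl⟩ | ⟨k, l, m, hk, hl, hm, _, rfl⟩
  · exact Submodule.add_mem _ (Submodule.smul_mem _ _ (hmem k hk)) (hmem l hl)
  · exact Submodule.add_mem _ (Submodule.add_mem _ (Submodule.smul_mem _ _ (hmem k hk))
      (Submodule.smul_mem _ _ (hmem l hl))) (hmem m hm)

/-- The strand faces have dimension two. -/
theorem linDim_st {A B C : Fin (d + 1)} (hd : Dis A B C) (r : Fin 3) (t : Fin 2) :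
    linDim {v | v ∈ F.verts ∧ F.lf (F.st A B C r t) v = 0} ≤ 3 := by
  apply Frame.linDim_le_three (a := F.sg A B C r t) (b := F.y A B C r t 0) (c := F.y A B C r t 1)
  rintro v ⟨hv, h0⟩
  have m1 : F.sg A B C r t ∈ span ℝ ({F.sg A B C r t, F.y A B C r t 0, F.y A B C r t 1} :
      Set (Amb d)) := Submodule.subset_span (by simp)
  have m2 : F.y A B C r t 0 ∈ span ℝ ({F.sg A B C r t, F.y A B C r t 0, F.y A B C r t 1} :
      Set (Amb d)) := Submodule.subset_span (by simp)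
  have m3 : F.y A B C r t 1 ∈ span ℝ ({F.sg A B C r t, F.y A B C r t 0, F.y A B C r t 1} :
      Set (Amb d)) := Submodule.subset_span (by simp)
  rcases F.st_zero hd r t hv h0 with rfl | ⟨j, hj, rfl⟩
  · exact m1
  · rcases hj with rfl | rfl | rfl
    · have e : F.y A B C r t (-1) = (2 : ℝ) • F.y A B C r t 0 - F.y A B C r t 1 +
          (2 * lam r t) • F.sg A B C r t := by
        unfold y
        module
      rw [e]
      exact Submodule.add_mem _ (Submodule.sub_mem _ (Submodule.smul_mem _ _ m2) m3)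
        (Submodule.smul_mem _ _ m1)
    · exact m2
    · exact m3

theorem sg_diff {A B C : Fin (d + 1)} (r : Fin 3) (i : Fin 2) :
    ∃ x y : ℝ, lam r 1 • F.sg A B C r 1 - lam r 0 • F.sg A B C r 0 =
      x • (F.eg A B C r i).1 + y • (F.eg A B C r i).2 := by
  revert r i
  apply rt_cases
  · refine ⟨-4, 8, ?_⟩
    show lam 0 1 • F.s B A C - lam 0 0 • F.u A C = (-4 : ℝ) • F.u A B + (8 : ℝ) • F.u B A
    unfold u s
    norm_num [lam]
    module
  · refine ⟨8, -4, ?_⟩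
    show lam 0 1 • F.s B A C - lam 0 0 • F.u A C = (8 : ℝ) • F.u B C + (-4 : ℝ) • F.u C B
    unfold u s
    norm_num [lam]
    module
  · refine ⟨6, -3, ?_⟩
    show lam 1 1 • F.u C B - lam 1 0 • F.s A B C = (6 : ℝ) • F.u A C + (-3 : ℝ) • F.s A C B
    unfold u s
    norm_num [lam]
    module
  · refine ⟨-15, 6, ?_⟩
    show lam 1 1 • F.u C B - lam 1 0 • F.s A B C = (-15 : ℝ) • F.u A B + (6 : ℝ) • F.u B A
    unfold u s
    norm_num [lam]
    module
  · refine ⟨6, -1, ?_⟩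
    show lam 2 1 • F.u C A - lam 2 0 • F.u A B = (6 : ℝ) • F.u A C + (-1 : ℝ) • F.s A C B
    unfold u s
    norm_num [lam]
    module
  · refine ⟨-2, 3, ?_⟩
    show lam 2 1 • F.u C A - lam 2 0 • F.u A B = (-2 : ℝ) • F.u B C + (3 : ℝ) • F.u C B
    unfold u
    norm_num [lam]
    module

/-- The quadrilaterals joining the strands have dimension two. -/
theorem linDim_cr {A B C : Fin (d + 1)} (hd : Dis A B C) (r : Fin 3) (i : Fin 2) {j : ℝ}
    (hj : J j) : linDim {v | v ∈ F.verts ∧ F.lf (F.cr A B C r i j) v = 0} ≤ 3 := by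
  apply Frame.linDim_le_three (a := (F.eg A B C r i).1) (b := (F.eg A B C r i).2)
    (c := F.y A B C r 0 j)
  rintro v ⟨hv, h0⟩
  have m1 : (F.eg A B C r i).1 ∈ span ℝ ({(F.eg A B C r i).1, (F.eg A B C r i).2,
      F.y A B C r 0 j} : Set (Amb d)) := Submodule.subset_span (by simp)
  have m2 : (F.eg A B C r i).2 ∈ span ℝ ({(F.eg A B C r i).1, (F.eg A B C r i).2,
      F.y A B C r 0 j} : Set (Amb d)) := Submodule.subset_span (by simp)
  have m3 : F.y A B C r 0 j ∈ span ℝ ({(F.eg A B C r i).1, (F.eg A B C r i).2,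
      F.y A B C r 0 j} : Set (Amb d)) := Submodule.subset_span (by simp)
  rcases F.cr_zero hd r i hj hv h0 with rfl | rfl | ⟨t, rfl⟩
  · exact m1
  · exact m2
  · have ht : t = 0 ∨ t = 1 := by omega
    rcases ht with rfl | rfl
    · exact m3
    · obtain ⟨x, z, hxz⟩ := F.sg_diff (A := A) (B := B) (C := C) r i
      have e : F.y A B C r 1 j = F.y A B C r 0 j + (1 + j ^ 2) •
          (lam r 1 • F.sg A B C r 1 - lam r 0 • F.sg A B C r 0) := by
        unfold y
        module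
      rw [e, hxz]
      exact Submodule.add_mem _ m3 (Submodule.smul_mem _ _ (Submodule.add_mem _
        (Submodule.smul_mem _ _ m1) (Submodule.smul_mem _ _ m2)))

/-- The functional exposing an edge on a side line. -/
noncomputable def ef (k l : Fin (d + 1)) : Fin (d + 1) → ℝ := fun m =>
  if m = k ∨ m = l then 0 else 1

theorem ef_nonneg (k l m : Fin (d + 1)) : 0 ≤ ef k l m := by unfold ef; split_ifs <;> norm_num

theorem ef_le (k l m : Fin (d + 1)) : ef k l m ≤ 1 := by unfold ef; split_ifs <;> norm_num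

theorem ef_zero {k l m : Fin (d + 1)} (h : m = k ∨ m = l) : ef k l m = 0 := by simp [ef, h]

theorem ef_one {k l m : Fin (d + 1)} (h : ¬ (m = k ∨ m = l)) : ef k l m = 1 := by
  unfold ef; rw [if_neg h]

theorem ef_y_pos (k l : Fin (d + 1)) {A B C : Fin (d + 1)} (h : Dis A B C) (r : Fin 3)
    (t : Fin 2) {j : ℝ} (hj : J j) : 0 < F.lf (ef k l) (F.y A B C r t j) := by
  rw [F.lf_y]
  obtain ⟨j1, j2, j3, j4⟩ := J.bounds hj
  have z1 := pos_lo A B C r
  have z2 := pos_hi A B C r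
  obtain ⟨Z, hZ⟩ : ∃ Z, Z = pos A B C r := ⟨_, rfl⟩
  rw [← hZ] at z1 z2 ⊢
  have e1 := ef_nonneg k l A
  have e2 := ef_nonneg k l B
  have e3 := ef_nonneg k l C
  have hS : 1 ≤ ef k l A + ef k l B + ef k l C := by
    by_cases hA : A = k ∨ A = l
    · by_cases hB : B = k ∨ B = l
      · have hC : ¬ (C = k ∨ C = l) := by
          intro hC
          obtain ⟨h1, h2, h3⟩ := h
          rcases hA with rfl | rfl <;> rcases hB with rfl | rfl <;> rcases hC with rfl | rfl <;>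
            simp_all
        rw [ef_one hC]; linarith
      · rw [ef_one hB]; linarith
    · rw [ef_one hA]; linarith
  have hc : 800000 ≤ 100000 * (Z ^ 2 - 2 * Z * j) := by nlinarith
  have p1 : 800000 * 1 ≤ 100000 * (Z ^ 2 - 2 * Z * j) * (ef k l A + ef k l B + ef k l C) :=
    mul_le_mul hc hS (by norm_num) (by linarith)
  have q1 := Frm.lam_lo r t
  have q5 : 0 ≤ F.lf (ef k l) (F.sg A B C r t) := by
    apply F.sg_cases A B C r t (P := fun v => 0 ≤ F.lf (ef k l) v) <;>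
      simp only [lf_u, lf_s] <;> linarith
  have p2 : 0 ≤ (1 + j ^ 2) * Frm.lam r t * F.lf (ef k l) (F.sg A B C r t) := by positivity
  have p3 : 0 ≤ (104 - Z + j) * ef k l (F.ca (tri A B C)) :=
    mul_nonneg (by linarith) (ef_nonneg _ _ _)
  have p4 := ef_le k l (F.cb (tri A B C))
  linarith

theorem ef_verts_nonneg (k l : Fin (d + 1)) : ∀ v ∈ F.verts, 0 ≤ F.lf (ef k l) v := by
  intro v hv
  rcases (F.mem_verts v).1 hv with ⟨m, n, hmn, rfl⟩ | ⟨m, n, p, hd, rfl⟩ |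
    ⟨A', B', C', r', t, j, hd, hj, rfl⟩
  · rw [F.lf_u]
    have := ef_nonneg k l m
    have := ef_nonneg k l n
    linarith
  · rw [F.lf_s]
    have := ef_nonneg k l m
    have := ef_nonneg k l n
    have := ef_nonneg k l p
    linarith
  · exact (F.ef_y_pos k l hd r' t hj).le

theorem lf_ef_u (k l : Fin (d + 1)) : F.lf (ef k l) (F.u k l) = 0 := by
  rw [F.lf_u, ef_zero (Or.inl rfl), ef_zero (Or.inr rfl)]; ring

theorem lf_ef_u' (k l : Fin (d + 1)) : F.lf (ef k l) (F.u l k) = 0 := by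
  rw [F.lf_u, ef_zero (Or.inl rfl), ef_zero (Or.inr rfl)]; ring

theorem ef_u_pos {k l m n : Fin (d + 1)} (h : ¬ ((m = k ∨ m = l) ∧ (n = k ∨ n = l))) :
    0 < F.lf (ef k l) (F.u m n) := by
  rw [F.lf_u]
  have := ef_nonneg k l m
  have := ef_nonneg k l n
  by_cases h1 : m = k ∨ m = l
  · have h2 : ¬ (n = k ∨ n = l) := fun h2 => h ⟨h1, h2⟩
    rw [ef_one h2]; linarith
  · rw [ef_one h1]; linarith

theorem ef_s_pos (k l : Fin (d + 1)) {m n p : Fin (d + 1)} (h : Dis m n p) :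
    0 < F.lf (ef k l) (F.s m n p) := by
  rw [F.lf_s]
  have := ef_nonneg k l m
  have := ef_nonneg k l n
  have := ef_nonneg k l p
  by_cases h1 : m = k ∨ m = l
  · by_cases h2 : n = k ∨ n = l
    · have h3 : ¬ (p = k ∨ p = l) := by
        intro h3
        obtain ⟨e1, e2, e3⟩ := h
        rcases h1 with rfl | rfl <;> rcases h2 with rfl | rfl <;> rcases h3 with rfl | rfl <;>
          simp_all
      rw [ef_one h3]; linarith
    · rw [ef_one h2]; linarith
  · rw [ef_one h1]; linarith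

end Frm

end Pool.Agent.U285.Scrib
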