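import Pool.Agent.U285.Scrib.Pos

/-!
# The functionals exposing the faces that are used
-/

namespace Pool.Agent.U285.Scrib

open Submodule Pool.Agent.Helper101_Scrib

variable {d : ℕ}

namespace Frm

variable (F : Frm d)

/-- A functional attached to a gadget. -/
noncomputable def loc (A B C : Fin (d + 1)) (r : Fin 3) (f : Fin 3 → ℝ) (α β : ℝ) :
    Fin (d + 1) → ℝ := fun m =>
  if m = A then f 0 else if m = B then f 1 else if m = C then f 2 else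
  if m = F.ca (tri A B C) then 200000 * pos A B C r * (f 0 + f 1 + f 2) + α else
  if m = F.cb (tri A B C) then 100000 * pos A B C r ^ 2 * (f 0 + f 1 + f 2) +
    (200000 * pos A B C r * (f 0 + f 1 + f 2) + α) * (104 - pos A B C r) + β else 100000

section

variable {A B C : Fin (d + 1)} (hd : Dis A B C) (r : Fin 3) (f : Fin 3 → ℝ) (α β : ℝ)

theorem loc_A : F.loc A B C r f α β A = f 0 := by simp [loc]

include hd

theorem loc_B : F.loc A B C r f α β B = f 1 := by simp [loc, hd.1.symm]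

theorem loc_C : F.loc A B C r f α β C = f 2 := by simp [loc, hd.2.1.symm, hd.2.2.symm]

omit hd

theorem ca_ne (A B C : Fin (d + 1)) : F.ca (tri A B C) ≠ A ∧ F.ca (tri A B C) ≠ B ∧
    F.ca (tri A B C) ≠ C := by
  have := F.ha (tri A B C) (card_tri _ _ _)
  rw [mem_tri] at this
  push Not at this
  exact this

theorem cb_ne (A B C : Fin (d + 1)) : F.cb (tri A B C) ≠ A ∧ F.cb (tri A B C) ≠ B ∧
    F.cb (tri A B C) ≠ C := by
  have := F.hb (tri A B C) (card_tri _ _ _)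
  rw [mem_tri] at this
  push Not at this
  exact this

theorem loc_ca : F.loc A B C r f α β (F.ca (tri A B C)) =
    200000 * pos A B C r * (f 0 + f 1 + f 2) + α := by
  obtain ⟨h1, h2, h3⟩ := F.ca_ne A B C
  unfold loc
  rw [if_neg h1, if_neg h2, if_neg h3, if_pos rfl]

theorem loc_cb : F.loc A B C r f α β (F.cb (tri A B C)) =
    100000 * pos A B C r ^ 2 * (f 0 + f 1 + f 2) +
    (200000 * pos A B C r * (f 0 + f 1 + f 2) + α) * (104 - pos A B C r) + β := by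
  obtain ⟨h1, h2, h3⟩ := F.cb_ne A B C
  have h4 := F.hab (tri A B C) (card_tri _ _ _)
  unfold loc
  rw [if_neg h1, if_neg h2, if_neg h3, if_neg h4, if_pos rfl]

end

/-- The coefficient bounds hold for `loc`. -/
theorem loc_big (A B C : Fin (d + 1)) (r : Fin 3) {f : Fin 3 → ℝ} {α β : ℝ}
    (h0 : ∀ i, -1 ≤ f i) (h0' : ∀ i, f i ≤ 9) (h1 : 1 ≤ f 0 + f 1 + f 2)
    (h2 : f 0 + f 1 + f 2 ≤ 10) (hα : -24 ≤ α) (hα' : α ≤ 24) (hβ : -12 ≤ β) (hβ' : β ≤ 12) :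
    Big (tri A B C) (F.loc A B C r f α β) := by
  have z1 := pos_lo A B C r
  have z2 := pos_hi A B C r
  obtain ⟨Z, hZ⟩ : ∃ Z, Z = pos A B C r := ⟨_, rfl⟩
  obtain ⟨S, hS⟩ : ∃ S, S = f 0 + f 1 + f 2 := ⟨_, rfl⟩
  rw [← hZ] at z1 z2
  rw [← hS] at h1 h2
  have a0 : 4 * 1 ≤ Z * S := mul_le_mul z1 h1 (by norm_num) (by linarith)
  have a0' : Z * S ≤ 96 * 10 := mul_le_mul z2 h2 (by linarith) (by norm_num)
  have a1 : 100000 ≤ 200000 * Z * S + α := by nlinarith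
  have a2 : 200000 * Z * S + α ≤ 11000000000 := by nlinarith
  have b0 : 0 ≤ (200000 * Z * S + α) * (104 - Z) := mul_nonneg (by linarith) (by linarith)
  have b0' : 4 * (4 * 1) ≤ Z * (Z * S) := mul_le_mul z1 a0 (by norm_num) (by linarith)
  have b1 : 100000 ≤ 100000 * Z ^ 2 * S + (200000 * Z * S + α) * (104 - Z) + β := by nlinarith
  have b2 : 100000 * Z ^ 2 * S + (200000 * Z * S + α) * (104 - Z) + β ≤ 11000000000 := by
    have c1 : 100000 * Z ^ 2 * S + (200000 * Z * S + α) * (104 - Z) + β =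
        100000 * S * (208 * Z - Z ^ 2) + α * (104 - Z) + β := by ring
    have c2 : 208 * Z - Z ^ 2 ≤ 10816 := by nlinarith [sq_nonneg (Z - 104)]
    have c3 : 100000 * S * (208 * Z - Z ^ 2) ≤ 100000 * 10 * 10816 :=
      mul_le_mul (by linarith) c2 (by nlinarith) (by norm_num)
    have c4 : α * (104 - Z) ≤ 24 * 104 := mul_le_mul hα' (by linarith) (by linarith) (by norm_num)
    rw [c1]
    linarith
  have hcase : ∀ m, (F.loc A B C r f α β m = f 0 ∧ m ∈ tri A B C) ∨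
      (F.loc A B C r f α β m = f 1 ∧ m ∈ tri A B C) ∨
      (F.loc A B C r f α β m = f 2 ∧ m ∈ tri A B C) ∨
      F.loc A B C r f α β m = 200000 * Z * S + α ∨
      F.loc A B C r f α β m = 100000 * Z ^ 2 * S + (200000 * Z * S + α) * (104 - Z) + β ∨
      F.loc A B C r f α β m = 100000 := by
    intro m
    unfold loc
    rw [← hZ, ← hS]
    split_ifs with k1 k2 k3
    · exact Or.inl ⟨rfl, by rw [mem_tri]; exact Or.inl k1⟩
    · exact Or.inr (Or.inl ⟨rfl, by rw [mem_tri]; exact Or.inr (Or.inl k2)⟩)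
    · exact Or.inr (Or.inr (Or.inl ⟨rfl, by rw [mem_tri]; exact Or.inr (Or.inr k3)⟩))
    · exact Or.inr (Or.inr (Or.inr (Or.inl rfl)))
    · exact Or.inr (Or.inr (Or.inr (Or.inr (Or.inl rfl))))
    · exact Or.inr (Or.inr (Or.inr (Or.inr (Or.inr rfl))))
  have f0 := h0 0
  have f1 := h0 1
  have f2 := h0 2
  have g0 := h0' 0
  have g1 := h0' 1
  have g2 := h0' 2
  refine ⟨fun m => ?_, fun m => ?_, fun m hm => ?_⟩
  · rcases hcase m with ⟨h, _⟩ | ⟨h, _⟩ | ⟨h, _⟩ | h | h | h <;> rw [h] <;> linarith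
  · rcases hcase m with ⟨h, _⟩ | ⟨h, _⟩ | ⟨h, _⟩ | h | h | h <;> rw [h] <;> linarith
  · rcases hcase m with ⟨_, h⟩ | ⟨_, h⟩ | ⟨_, h⟩ | h | h | h
    · exact absurd h hm
    · exact absurd h hm
    · exact absurd h hm
    · rw [h]; linarith
    · rw [h]; linarith
    · rw [h]

/-- The strand functionals. -/
noncomputable def stf : Fin 3 → Fin 2 → Fin 3 → ℝ
  | 0, 0, 0 => -1
  | 0, 0, 1 => 9
  | 0, 0, 2 => 2
  | 0, 1, 0 => 3
  | 0, 1, 1 => -1
  | 0, 1, 2 => 6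
  | 1, 0, 0 => -1
  | 1, 0, 1 => 3
  | 1, 0, 2 => 6
  | 1, 1, 0 => 9
  | 1, 1, 1 => 2
  | 1, 1, 2 => -1
  | 2, 0, 0 => -1
  | 2, 0, 1 => 2
  | 2, 0, 2 => 9
  | 2, 1, 0 => 2
  | 2, 1, 1 => 9
  | 2, 1, 2 => -1

/-- The edge functionals. -/
noncomputable def crf : Fin 3 → Fin 2 → Fin 3 → ℝ
  | 0, 0, 0 => 0
  | 0, 0, 1 => 0
  | 0, 0, 2 => 1
  | 0, 1, 0 => 1
  | 0, 1, 1 => 0
  | 0, 1, 2 => 0
  | 1, 0, 0 => -1
  | 1, 0, 1 => 8
  | 1, 0, 2 => 2
  | 1, 1, 0 => 0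
  | 1, 1, 1 => 0
  | 1, 1, 2 => 1
  | 2, 0, 0 => -1
  | 2, 0, 1 => 8
  | 2, 0, 2 => 2
  | 2, 1, 0 => 1
  | 2, 1, 1 => 0
  | 2, 1, 2 => 0

/-- The common value of the edge functionals. -/
noncomputable def crE : Fin 3 → Fin 2 → ℝ
  | 0, 0 => 1
  | 0, 1 => 2
  | 1, 0 => 12
  | 1, 1 => 2
  | 2, 0 => 6
  | 2, 1 => 2

/-- The functional of a strand. -/
noncomputable def st (A B C : Fin (d + 1)) (r : Fin 3) (t : Fin 2) : Fin (d + 1) → ℝ :=
  F.loc A B C r (stf r t) 0 0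

/-- The functional of a quadrilateral joining the two strands. -/
noncomputable def cr (A B C : Fin (d + 1)) (r : Fin 3) (i : Fin 2) (j : ℝ) : Fin (d + 1) → ℝ :=
  F.loc A B C r (crf r i) (-2 * j * crE r i) (crE r i * (1 - j ^ 2))

/-- Case distinction on the type of a gadget and its strand. -/
theorem rt_cases {P : Fin 3 → Fin 2 → Prop} (h00 : P 0 0) (h01 : P 0 1) (h10 : P 1 0) (h11 : P 1 1)
    (h20 : P 2 0) (h21 : P 2 1) (r : Fin 3) (t : Fin 2) : P r t := by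
  fin_cases r <;> fin_cases t <;> assumption

theorem st_sg {A B C : Fin (d + 1)} (hd : Dis A B C) (r : Fin 3) (t : Fin 2) :
    F.lf (F.st A B C r t) (F.sg A B C r t) = 0 := by
  revert r t
  apply rt_cases
  · show F.lf _ (F.u A C) = 0
    rw [lf_u, st, F.loc_A, F.loc_C hd]
    norm_num [stf]
  · show F.lf _ (F.s B A C) = 0
    rw [lf_s, st, F.loc_A, F.loc_B hd, F.loc_C hd]
    norm_num [stf]
  · show F.lf _ (F.s A B C) = 0
    rw [lf_s, st, F.loc_A, F.loc_B hd, F.loc_C hd]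
    norm_num [stf]
  · show F.lf _ (F.u C B) = 0
    rw [lf_u, st, F.loc_B hd, F.loc_C hd]
    norm_num [stf]
  · show F.lf _ (F.u A B) = 0
    rw [lf_u, st, F.loc_A, F.loc_B hd]
    norm_num [stf]
  · show F.lf _ (F.u C A) = 0
    rw [lf_u, st, F.loc_A, F.loc_C hd]
    norm_num [stf]

/-- The strand functional is positive at the attaching vertex of the other strand. -/
theorem st_sg_pos {A B C : Fin (d + 1)} (hd : Dis A B C) (r : Fin 3) (t t' : Fin 2)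
    (ht : t' ≠ t) : 0 < F.lf (F.st A B C r t) (F.sg A B C r t') := by
  have ht' : t = 0 ∧ t' = 1 ∨ t = 1 ∧ t' = 0 := by omega
  rcases ht' with ⟨rfl, rfl⟩ | ⟨rfl, rfl⟩
  · revert r
    intro r
    fin_cases r
    · show 0 < F.lf _ (F.s B A C)
      simp only [lf_s, st, F.loc_A, F.loc_B hd, F.loc_C hd]
      norm_num [stf]
    · show 0 < F.lf _ (F.u C B)
      simp only [lf_u, st, F.loc_A, F.loc_B hd, F.loc_C hd]
      norm_num [stf]
    · show 0 < F.lf _ (F.u C A)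
      simp only [lf_u, st, F.loc_A, F.loc_B hd, F.loc_C hd]
      norm_num [stf]
  · fin_cases r
    · show 0 < F.lf _ (F.u A C)
      simp only [lf_u, st, F.loc_A, F.loc_B hd, F.loc_C hd]
      norm_num [stf]
    · show 0 < F.lf _ (F.s A B C)
      simp only [lf_s, st, F.loc_A, F.loc_B hd, F.loc_C hd]
      norm_num [stf]
    · show 0 < F.lf _ (F.u A B)
      simp only [lf_u, st, F.loc_A, F.loc_B hd, F.loc_C hd]
      norm_num [stf]

/-- The edge functional has the same value on the scaled attaching vertices. -/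
theorem cr_sg {A B C : Fin (d + 1)} (hd : Dis A B C) (r : Fin 3) (i : Fin 2) (j : ℝ) (t : Fin 2) :
    lam r t * F.lf (F.cr A B C r i j) (F.sg A B C r t) = crE r i := by
  revert i
  revert r t
  apply rt_cases
  · intro i
    show lam 0 0 * F.lf _ (F.u A C) = _
    simp only [lf_u, cr, F.loc_A, F.loc_B hd, F.loc_C hd]
    fin_cases i <;> norm_num [crf, crE, lam]
  · intro i
    show lam 0 1 * F.lf _ (F.s B A C) = _
    simp only [lf_s, cr, F.loc_A, F.loc_B hd, F.loc_C hd]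
    fin_cases i <;> norm_num [crf, crE, lam]
  · intro i
    show lam 1 0 * F.lf _ (F.s A B C) = _
    simp only [lf_s, cr, F.loc_A, F.loc_B hd, F.loc_C hd]
    fin_cases i <;> norm_num [crf, crE, lam]
  · intro i
    show lam 1 1 * F.lf _ (F.u C B) = _
    simp only [lf_u, cr, F.loc_A, F.loc_B hd, F.loc_C hd]
    fin_cases i <;> norm_num [crf, crE, lam]
  · intro i
    show lam 2 0 * F.lf _ (F.u A B) = _
    simp only [lf_u, cr, F.loc_A, F.loc_B hd, F.loc_C hd]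
    fin_cases i <;> norm_num [crf, crE, lam]
  · intro i
    show lam 2 1 * F.lf _ (F.u C A) = _
    simp only [lf_u, cr, F.loc_A, F.loc_B hd, F.loc_C hd]
    fin_cases i <;> norm_num [crf, crE, lam]

theorem loc_hu {A B C : Fin (d + 1)} (hd : Dis A B C) (r : Fin 3) {f : Fin 3 → ℝ} (α β : ℝ)
    (h01 : 0 ≤ 2 * f 0 + f 1) (h02 : 0 ≤ 2 * f 0 + f 2) (h10 : 0 ≤ 2 * f 1 + f 0)
    (h12 : 0 ≤ 2 * f 1 + f 2) (h20 : 0 ≤ 2 * f 2 + f 0) (h21 : 0 ≤ 2 * f 2 + f 1) :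
    ∀ k l, k ∈ tri A B C → l ∈ tri A B C → k ≠ l →
      0 ≤ 2 * F.loc A B C r f α β k + F.loc A B C r f α β l := by
  apply forall_tri2 <;> simpa only [F.loc_A, F.loc_B hd, F.loc_C hd]

theorem loc_hs {A B C : Fin (d + 1)} (hd : Dis A B C) (r : Fin 3) {f : Fin 3 → ℝ} (α β : ℝ)
    (h012 : 0 ≤ 12 * f 0 + 2 * f 1 + f 2) (h021 : 0 ≤ 12 * f 0 + 2 * f 2 + f 1)
    (h102 : 0 ≤ 12 * f 1 + 2 * f 0 + f 2) (h120 : 0 ≤ 12 * f 1 + 2 * f 2 + f 0)
    (h201 : 0 ≤ 12 * f 2 + 2 * f 0 + f 1) (h210 : 0 ≤ 12 * f 2 + 2 * f 1 + f 0) :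
    ∀ k l m, k ∈ tri A B C → l ∈ tri A B C → m ∈ tri A B C → Dis k l m →
      0 ≤ 12 * F.loc A B C r f α β k + 2 * F.loc A B C r f α β l + F.loc A B C r f α β m := by
  apply forall_tri3 <;> simpa only [F.loc_A, F.loc_B hd, F.loc_C hd]

theorem loc_loc {A B C : Fin (d + 1)} (hd : Dis A B C) (r : Fin 3) {f : Fin 3 → ℝ} {α β : ℝ}
    (h0 : ∀ i, -1 ≤ f i) (h0' : ∀ i, f i ≤ 9) (h1 : 1 ≤ f 0 + f 1 + f 2)
    (h2 : f 0 + f 1 + f 2 ≤ 10) (hα : -24 ≤ α) (hα' : α ≤ 24) (hβ : -12 ≤ β) (hβ' : β ≤ 12)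
    (h01 : 0 ≤ 2 * f 0 + f 1) (h02 : 0 ≤ 2 * f 0 + f 2) (h10 : 0 ≤ 2 * f 1 + f 0)
    (h12 : 0 ≤ 2 * f 1 + f 2) (h20 : 0 ≤ 2 * f 2 + f 0) (h21 : 0 ≤ 2 * f 2 + f 1)
    (h012 : 0 ≤ 12 * f 0 + 2 * f 1 + f 2) (h021 : 0 ≤ 12 * f 0 + 2 * f 2 + f 1)
    (h102 : 0 ≤ 12 * f 1 + 2 * f 0 + f 2) (h120 : 0 ≤ 12 * f 1 + 2 * f 2 + f 0)
    (h201 : 0 ≤ 12 * f 2 + 2 * f 0 + f 1) (h210 : 0 ≤ 12 * f 2 + 2 * f 1 + f 0)
    (hown : ∀ t j, Frm.J j → 0 ≤ (1 + j ^ 2) * Frm.lam r t *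
      F.lf (F.loc A B C r f α β) (F.sg A B C r t) + α * j - β) :
    Loc F A B C r (F.loc A B C r f α β) α β where
  dis := hd
  big := F.loc_big A B C r h0 h0' h1 h2 hα hα' hβ hβ'
  sum_lo := by rw [F.loc_A, F.loc_B hd, F.loc_C hd]; exact h1
  ha := by rw [F.loc_ca, F.loc_A, F.loc_B hd, F.loc_C hd]
  hb := by rw [F.loc_cb, F.loc_A, F.loc_B hd, F.loc_C hd]
  α_lo := hα
  α_hi := hα'
  β_hi := hβ'
  hu := F.loc_hu hd r α β h01 h02 h10 h12 h20 h21
  hs := F.loc_hs hd r α β h012 h021 h102 h120 h201 h210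
  own := hown

theorem st_Loc {A B C : Fin (d + 1)} (hd : Dis A B C) (r : Fin 3) (t : Fin 2) :
    Loc F A B C r (F.st A B C r t) 0 0 := by
  have hown : ∀ t' j, Frm.J j → 0 ≤ (1 + j ^ 2) * Frm.lam r t' *
      F.lf (F.st A B C r t) (F.sg A B C r t') + 0 * j - 0 := by
    intro t' j _
    have h1 : 0 ≤ F.lf (F.st A B C r t) (F.sg A B C r t') := by
      by_cases ht : t' = t
      · subst ht
        rw [F.st_sg hd]
      · exact (F.st_sg_pos hd r t t' ht).le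
    have h2 := lam_lo r t'
    have : 0 ≤ (1 + j ^ 2) * Frm.lam r t' * F.lf (F.st A B C r t) (F.sg A B C r t') := by
      positivity
    linarith
  revert hown
  revert r t
  apply rt_cases <;> intro hown
  all_goals
    refine F.loc_loc hd _ ?_ ?_ ?_ ?_ ?_ ?_ ?_ ?_ ?_ ?_ ?_ ?_ ?_ ?_ ?_ ?_ ?_ ?_ ?_ ?_ hown
    · intro i; fin_cases i <;> norm_num [stf]
    · intro i; fin_cases i <;> norm_num [stf]
    all_goals norm_num [stf]

theorem cr_Loc {A B C : Fin (d + 1)} (hd : Dis A B C) (r : Fin 3) (i : Fin 2) {j : ℝ} (hj : J j) :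
    Loc F A B C r (F.cr A B C r i j) (-2 * j * crE r i) (crE r i * (1 - j ^ 2)) := by
  have hE : 0 < crE r i ∧ crE r i ≤ 12 := by
    revert r i
    apply rt_cases <;> norm_num [crE]
  obtain ⟨j1, j2, j3, j4⟩ := J.bounds hj
  have hown : ∀ t j', Frm.J j' → 0 ≤ (1 + j' ^ 2) * Frm.lam r t *
      F.lf (F.cr A B C r i j) (F.sg A B C r t) + (-2 * j * crE r i) * j' -
        crE r i * (1 - j ^ 2) := by
    intro t j' _
    rw [mul_assoc (1 + j' ^ 2), F.cr_sg hd]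
    have : (1 + j' ^ 2) * crE r i + -2 * j * crE r i * j' - crE r i * (1 - j ^ 2) =
      crE r i * (j' - j) ^ 2 := by ring
    rw [this]
    have := hE.1
    positivity
  have b1 : -24 ≤ -2 * j * crE r i := by nlinarith [hE.1, hE.2]
  have b2 : -2 * j * crE r i ≤ 24 := by nlinarith [hE.1, hE.2]
  have b3 : -12 ≤ crE r i * (1 - j ^ 2) := by nlinarith [hE.1, hE.2]
  have b4 : crE r i * (1 - j ^ 2) ≤ 12 := by nlinarith [hE.1, hE.2]
  clear hE
  revert hown b1 b2 b3 b4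
  revert r i
  apply rt_cases <;> intro hown b1 b2 b3 b4
  all_goals
    refine F.loc_loc hd _ ?_ ?_ ?_ ?_ b1 b2 b3 b4 ?_ ?_ ?_ ?_ ?_ ?_ ?_ ?_ ?_ ?_ ?_ ?_ hown
    · intro i; fin_cases i <;> norm_num [crf]
    · intro i; fin_cases i <;> norm_num [crf]
    all_goals norm_num [crf]

end Frm

end Pool.Agent.U285.Scrib
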