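import Pool.Agent.U285.Scrib.Faces

/-!
# The relation forced by a gadget
-/

namespace Pool.Agent.U285.Scrib

open Submodule Pool.Agent.Helper101_Scrib

variable {d : ℕ}

theorem cross_rel {E : Type*} [AddCommGroup E] [Module ℝ E] {y0 y1 p p' : E}
    (h : L4 y0 y1 p p') {χ θ : E →ₗ[ℝ] ℝ} (hp : χ p = 0) (hp' : χ p' = 0)
    (tp : θ p = 0) (tp' : θ p' = 0) : θ y1 * χ y0 = θ y0 * χ y1 := by
  obtain ⟨α, β, γ, δ, hα, hβ, _, _, e⟩ := h
  have e1 := congrArg χ e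
  have e2 := congrArg θ e
  simp only [map_add, map_smul, smul_eq_mul, map_zero, hp, hp', tp, tp', mul_zero,
    add_zero] at e1 e2
  have : β * (θ y1 * χ y0 - θ y0 * χ y1) = 0 := by
    linear_combination χ y0 * e2 - θ y0 * e1
  have := (mul_eq_zero.1 this).resolve_left hβ
  linarith

/-- The linear algebra behind a gadget. -/
theorem gadget_abs {E : Type*} [AddCommGroup E] [Module ℝ E] {y0 y1 : ℝ → E}
    {p p' q q' σ0 σ1 : E} {χ f g : E →ₗ[ℝ] ℝ}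
    (χp : χ p = 0) (χp' : χ p' = 0) (χq : χ q = 0) (χq' : χ q' = 0)
    (χσ0 : χ σ0 = 0) (χσ1 : χ σ1 = 0)
    (χy0 : ∀ j, Frm.J j → 0 < χ (y0 j)) (χy1 : ∀ j, Frm.J j → 0 < χ (y1 j))
    (hcr : ∀ j, Frm.J j → L4 (y0 j) (y1 j) p p') (hcr' : ∀ j, Frm.J j → L4 (y0 j) (y1 j) q q')
    (hs0 : L4 (y0 (-1)) (y0 0) (y0 1) σ0) (hs1 : L4 (y1 (-1)) (y1 0) (y1 1) σ1)
    (hpl : L4 σ1 p p' σ0)
    (fp : f p = 0) (fp' : f p' = 0) (fy : f (y0 (-1)) = 0) (fy' : 0 < f (y0 1)) (fσ : 0 < f σ0)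
    (gp : g p = 0) (gp' : g p' = 0) (gy : g (y0 1) = 0) (gy' : 0 < g (y0 (-1))) (gσ : 0 < g σ0)
    (φ ψ : E →ₗ[ℝ] ℝ) (φp : φ p = 0) (φp' : φ p' = 0) (ψq : ψ q = 0) (ψq' : ψ q' = 0) :
    φ σ0 * ψ σ1 = φ σ1 * ψ σ0 := by
  have Jm : Frm.J (-1) := Or.inl rfl
  have J0 : Frm.J 0 := Or.inr (Or.inl rfl)
  have J1 : Frm.J 1 := Or.inr (Or.inr rfl)
  have xm := χy0 _ Jm
  have x0 := χy0 _ J0
  have x1 := χy0 _ J1
  -- the relations of the quadrilaterals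
  have F1 := fun j hj => cross_rel (hcr j hj) χp χp' fp fp'
  have G1 := fun j hj => cross_rel (hcr j hj) χp χp' gp gp'
  have P1 := fun j hj => cross_rel (hcr j hj) χp χp' φp φp'
  have Q1 := fun j hj => cross_rel (hcr' j hj) χq χq' ψq ψq'
  -- the functionals `f` and `g` are proportional on the plane
  have hfg : f σ1 * g σ0 = f σ0 * g σ1 := by
    obtain ⟨α, β, γ, δ, hα, _, _, _, e⟩ := hpl
    have e1 := congrArg f e
    have e2 := congrArg g e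
    simp only [map_add, map_smul, smul_eq_mul, map_zero, fp, fp', gp, gp', mul_zero,
      add_zero] at e1 e2
    have : α * (f σ1 * g σ0 - f σ0 * g σ1) = 0 := by
      linear_combination g σ0 * e1 - f σ0 * e2
    have := (mul_eq_zero.1 this).resolve_left hα
    linarith
  obtain ⟨am, a0, a1, aσ, ham, ha0, ha1, haσ, ea⟩ := hs0
  obtain ⟨bm, b0, b1, bσ, hbm, hb0, hb1, hbσ, eb⟩ := hs1
  have ea1 := congrArg χ ea
  have ea2 := congrArg f ea
  have ea3 := congrArg g ea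
  have ea4 := congrArg φ ea
  have ea5 := congrArg ψ ea
  have eb1 := congrArg χ eb
  have eb2 := congrArg f eb
  have eb3 := congrArg g eb
  have eb4 := congrArg φ eb
  have eb5 := congrArg ψ eb
  simp only [map_add, map_smul, smul_eq_mul, map_zero, χσ0, χσ1, mul_zero, add_zero]
    at ea1 ea2 ea3 ea4 ea5 eb1 eb2 eb3 eb4 eb5
  -- abbreviations
  obtain ⟨tm, htm⟩ : ∃ t, χ (y1 (-1)) = t * χ (y0 (-1)) :=
    ⟨χ (y1 (-1)) / χ (y0 (-1)), by field_simp⟩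
  obtain ⟨t0, ht0⟩ : ∃ t, χ (y1 0) = t * χ (y0 0) := ⟨χ (y1 0) / χ (y0 0), by field_simp⟩
  obtain ⟨t1, ht1⟩ : ∃ t, χ (y1 1) = t * χ (y0 1) := ⟨χ (y1 1) / χ (y0 1), by field_simp⟩
  have tm0 : tm ≠ 0 := by
    rintro rfl
    have := χy1 _ Jm
    rw [htm, zero_mul] at this
    exact lt_irrefl _ this
  have t00 : t0 ≠ 0 := by
    rintro rfl
    have := χy1 _ J0
    rw [ht0, zero_mul] at this
    exact lt_irrefl _ this
  have cancel : ∀ {a b x t c : ℝ}, 0 < x → c = t * x → a * x = b * c → a = t * b := by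
    intro a b x t c hx hc h
    have : x * (a - t * b) = 0 := by linear_combination h + b * hc
    have := (mul_eq_zero.1 this).resolve_left hx.ne'
    linarith
  have fm := cancel xm htm (F1 _ Jm)
  have f0 := cancel x0 ht0 (F1 _ J0)
  have f1 := cancel x1 ht1 (F1 _ J1)
  have gm := cancel xm htm (G1 _ Jm)
  have g0 := cancel x0 ht0 (G1 _ J0)
  have g1 := cancel x1 ht1 (G1 _ J1)
  have pm := cancel xm htm (P1 _ Jm)
  have p0 := cancel x0 ht0 (P1 _ J0)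
  have p1 := cancel x1 ht1 (P1 _ J1)
  have qm := cancel xm htm (Q1 _ Jm)
  have q0 := cancel x0 ht0 (Q1 _ J0)
  have q1 := cancel x1 ht1 (Q1 _ J1)
  rw [fm, f0, f1] at eb2
  rw [gm, g0, g1] at eb3
  rw [pm, p0, p1] at eb4
  rw [qm, q0, q1] at eb5
  rw [htm, ht0, ht1] at eb1
  rw [fy] at ea2 eb2
  rw [gy] at ea3 eb3
  -- the second functional
  have ea6 : am * (-(f σ0 * g (y0 (-1)))) + a0 * (g σ0 * f (y0 0) - f σ0 * g (y0 0)) +
      a1 * (g σ0 * f (y0 1)) = 0 := by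
    linear_combination g σ0 * ea2 - f σ0 * ea3
  have eb6 : (bm * tm) * (-(f σ0 * g (y0 (-1)))) +
      (b0 * t0) * (g σ0 * f (y0 0) - f σ0 * g (y0 0)) + (b1 * t1) * (g σ0 * f (y0 1)) = 0 := by
    linear_combination g σ0 * eb2 - f σ0 * eb3 - bσ * hfg
  have hD : 0 < χ (y0 (-1)) * (g σ0 * f (y0 1)) + χ (y0 1) * (f σ0 * g (y0 (-1))) := by
    positivity
  have r1 : am * (b0 * t0) = (bm * tm) * a0 := by
    have : (χ (y0 (-1)) * (g σ0 * f (y0 1)) + χ (y0 1) * (f σ0 * g (y0 (-1)))) *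
        (am * (b0 * t0) - (bm * tm) * a0) = 0 := by
      linear_combination (g σ0 * f (y0 1)) * ((b0 * t0) * ea1 - a0 * eb1) -
        χ (y0 1) * ((b0 * t0) * ea6 - a0 * eb6)
    have := (mul_eq_zero.1 this).resolve_left hD.ne'
    linarith
  have r2 : a1 * (b0 * t0) = (b1 * t1) * a0 := by
    have : (χ (y0 (-1)) * (g σ0 * f (y0 1)) + χ (y0 1) * (f σ0 * g (y0 (-1)))) *
        (a1 * (b0 * t0) - (b1 * t1) * a0) = 0 := by
      linear_combination (f σ0 * g (y0 (-1))) * ((b0 * t0) * ea1 - a0 * eb1) +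
        χ (y0 (-1)) * ((b0 * t0) * ea6 - a0 * eb6)
    have := (mul_eq_zero.1 this).resolve_left hD.ne'
    linarith
  -- the final comparison
  have s1 : a0 * bσ * φ σ1 = b0 * t0 * aσ * φ σ0 := by
    linear_combination a0 * eb4 - (b0 * t0) * ea4 + φ (y0 (-1)) * r1 + φ (y0 1) * r2
  have s2 : a0 * bσ * ψ σ1 = b0 * t0 * aσ * ψ σ0 := by
    linear_combination a0 * eb5 - (b0 * t0) * ea5 + ψ (y0 (-1)) * r1 + ψ (y0 1) * r2
  have : a0 * bσ * (φ σ0 * ψ σ1 - φ σ1 * ψ σ0) = 0 := by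
    linear_combination φ σ0 * s2 - ψ σ0 * s1
  have := (mul_eq_zero.1 this).resolve_left (mul_ne_zero ha0 hbσ)
  linarith

namespace Frm

variable {F : Frm d} {X : Amb d → Amb d}

/-- The functional of a realization corresponding to a given one. -/
theorem real_fun (hX : Rz F.verts X) {h : Fin (d + 1) → ℝ} (hn : ∀ v ∈ F.verts, 0 ≤ F.lf h v) :
    ∃ φ : Amb d →ₗ[ℝ] ℝ, (∀ v ∈ F.verts, 0 ≤ φ (X v)) ∧
      (∀ v ∈ F.verts, F.lf h v = 0 → φ (X v) = 0) ∧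
      (∀ v ∈ F.verts, 0 < F.lf h v → 0 < φ (X v)) := by
  obtain ⟨φ, h1, h2, _⟩ := hX (F.lf h) hn
  refine ⟨φ, h1, fun v hv h0 => (h2 v hv).2 h0, fun v hv hpos => ?_⟩
  refine lt_of_le_of_ne (h1 v hv) (fun h0 => ?_)
  have := (h2 v hv).1 h0.symm
  linarith

/-- The relation forced by a gadget. -/
theorem gadget_rel (hX : Rz F.verts X) {A B C : Fin (d + 1)} (hd : Dis A B C) (r : Fin 3)
    (φ ψ : Amb d →ₗ[ℝ] ℝ) (φp : φ (X (F.eg A B C r 0).1) = 0)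
    (φp' : φ (X (F.eg A B C r 0).2) = 0) (ψq : ψ (X (F.eg A B C r 1).1) = 0)
    (ψq' : ψ (X (F.eg A B C r 1).2) = 0) :
    φ (X (F.sg A B C r 0)) * ψ (X (F.sg A B C r 1)) =
      φ (X (F.sg A B C r 1)) * ψ (X (F.sg A B C r 0)) := by
  have hv : ∀ v ∈ F.verts, IsFace (F.verts : Set (Amb d)) {v} := fun v hv => F.vertex hv
  have Jm : J (-1) := Or.inl rfl
  have J0 : J 0 := Or.inr (Or.inl rfl)
  have J1 : J 1 := Or.inr (Or.inr rfl)
  obtain ⟨χ, c1, c2, c3⟩ := real_fun hX (F.pl_nonneg A B C)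
  obtain ⟨f, f1, f2, f3⟩ := real_fun hX (F.cr_Loc hd r 0 Jm).nonneg
  obtain ⟨g, g1, g2, g3⟩ := real_fun hX (F.cr_Loc hd r 0 J1).nonneg
  have me := fun i => F.eg_mem hd r i
  have ms := fun t => F.sg_mem hd r t
  have my : ∀ t j, J j → F.y A B C r t j ∈ F.verts := fun t j hj => F.y_mem hd hj
  have cross : ∀ i j, J j → L4 (X (F.y A B C r 0 j)) (X (F.y A B C r 1 j))
      (X (F.eg A B C r i).1) (X (F.eg A B C r i).2) := by
    intro i j hj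
    refine hX.rel4 hv (F.lf (F.cr A B C r i j)) (F.cr_Loc hd r i hj).nonneg
      (F.linDim_cr hd r i hj) (my 0 j hj) (my 1 j hj) (me i).1 (me i).2 ?_ ?_ (F.cr_eg1 hd r i j)
      (F.cr_eg2 hd r i j) ?_ (F.y_ne_eg hd r r 0 i hj).1 (F.y_ne_eg hd r r 0 i hj).2
      (F.y_ne_eg hd r r 1 i hj).1 (F.y_ne_eg hd r r 1 i hj).2 (F.eg_ne hd r i)
    · rw [F.cr_y hd r i 0 hj]; ring
    · rw [F.cr_y hd r i 1 hj]; ring
    · intro h
      have := (F.y_inj hd r hj h).1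
      omega
  have strand : ∀ t, L4 (X (F.y A B C r t (-1))) (X (F.y A B C r t 0)) (X (F.y A B C r t 1))
      (X (F.sg A B C r t)) := by
    intro t
    refine hX.rel4 hv (F.lf (F.st A B C r t)) (F.st_Loc hd r t).nonneg
      (F.linDim_st hd r t) (my t _ Jm) (my t _ J0) (my t _ J1) (ms t) (F.st_y hd r t _)
      (F.st_y hd r t _) (F.st_y hd r t _) (F.st_sg hd r t) ?_ ?_
      (F.y_ne_sg hd r r t t Jm) ?_ (F.y_ne_sg hd r r t t J0) (F.y_ne_sg hd r r t t J1)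
    · intro h
      have := (F.y_inj hd r Jm h).2
      norm_num at this
    · intro h
      have := (F.y_inj hd r Jm h).2
      norm_num at this
    · intro h
      have := (F.y_inj hd r J0 h).2
      norm_num at this
  have plane : L4 (X (F.sg A B C r 1)) (X (F.eg A B C r 0).1) (X (F.eg A B C r 0).2)
      (X (F.sg A B C r 0)) := by
    refine hX.rel4 hv (F.lf (F.pl A B C)) (F.pl_nonneg A B C) (F.linDim_pl A B C)
      (ms 1) (me 0).1 (me 0).2 (ms 0) (F.pl_sg r 1) (F.pl_eg r 0).1 (F.pl_eg r 0).2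
      (F.pl_sg r 0) (F.sg_ne_eg hd r 1 0).1 (F.sg_ne_eg hd r 1 0).2
      (F.sg_ne_sg hd r (by omega)) (F.eg_ne hd r 0) (F.sg_ne_eg hd r 0 0).1.symm
      (F.sg_ne_eg hd r 0 0).2.symm
  have crpos : ∀ j j' : ℝ, J j → j' ≠ j → 0 < F.lf (F.cr A B C r 0 j) (F.y A B C r 0 j') := by
    intro j j' hj hne
    rw [F.cr_y hd r 0 0 hj]
    have h1 := crE_pos r 0
    have h2 : 0 < (j' - j) ^ 2 := by
      have : j' - j ≠ 0 := sub_ne_zero.2 hne
      positivity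
    exact mul_pos h1 h2
  have crz : ∀ j : ℝ, J j → F.lf (F.cr A B C r 0 j) (F.y A B C r 0 j) = 0 := by
    intro j hj
    rw [F.cr_y hd r 0 0 hj]
    ring
  exact gadget_abs (y0 := fun j => X (F.y A B C r 0 j)) (y1 := fun j => X (F.y A B C r 1 j))
    (c2 _ (me 0).1 (F.pl_eg r 0).1) (c2 _ (me 0).2 (F.pl_eg r 0).2)
    (c2 _ (me 1).1 (F.pl_eg r 1).1) (c2 _ (me 1).2 (F.pl_eg r 1).2)
    (c2 _ (ms 0) (F.pl_sg r 0)) (c2 _ (ms 1) (F.pl_sg r 1))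
    (fun j hj => c3 _ (my 0 j hj) (F.pl_y_pos hd r 0 hj))
    (fun j hj => c3 _ (my 1 j hj) (F.pl_y_pos hd r 1 hj))
    (cross 0) (cross 1) (strand 0) (strand 1) plane
    (f2 _ (me 0).1 (F.cr_eg1 hd r 0 _)) (f2 _ (me 0).2 (F.cr_eg2 hd r 0 _))
    (f2 _ (my 0 _ Jm) (crz _ Jm)) (f3 _ (my 0 _ J1) (crpos _ _ Jm (by norm_num)))
    (f3 _ (ms 0) (F.cr_sg_pos hd r 0 0 _))
    (g2 _ (me 0).1 (F.cr_eg1 hd r 0 _)) (g2 _ (me 0).2 (F.cr_eg2 hd r 0 _))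
    (g2 _ (my 0 _ J1) (crz _ J1)) (g3 _ (my 0 _ Jm) (crpos _ _ J1 (by norm_num)))
    (g3 _ (ms 0) (F.cr_sg_pos hd r 0 0 _)) φ ψ φp φp' ψq ψq'

end Frm

end Pool.Agent.U285.Scrib
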