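import Pool.Agent.U285.Scrib.Gadget
import Pool.Agent.U285.Scrib.Alg

/-!
# Rigidity of the twelve-gon in a realization
-/

namespace Pool.Agent.U285.Scrib

open Submodule Pool.Agent.Helper101_Scrib

variable {d : ℕ}

/-- Coordinate functionals on a plane of the realization. -/
structure Crd (F : Frm d) (X : Amb d → Amb d) (T : Finset (Fin (d + 1)))
    (x : Fin (d + 1) → (Amb d →ₗ[ℝ] ℝ)) : Prop where
  z : ∀ k l m, k ∈ T → l ∈ T → m ∈ T → Dis k l m → x m (X (F.u k l)) = 0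
  p1 : ∀ k l, k ∈ T → l ∈ T → k ≠ l → 0 < x k (X (F.u k l))
  p2 : ∀ k l, k ∈ T → l ∈ T → k ≠ l → 0 < x l (X (F.u k l))
  s1 : ∀ k l m, k ∈ T → l ∈ T → m ∈ T → Dis k l m → 0 < x k (X (F.s k l m))
  s2 : ∀ k l m, k ∈ T → l ∈ T → m ∈ T → Dis k l m → 0 < x l (X (F.s k l m))
  s3 : ∀ k l m, k ∈ T → l ∈ T → m ∈ T → Dis k l m → 0 < x m (X (F.s k l m))

theorem exists_crd {F : Frm d} {X : Amb d → Amb d} (hX : Rz F.verts X) {A B C : Fin (d + 1)}
    (hd : Dis A B C) : ∃ x, Crd F X (tri A B C) x := by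
  obtain ⟨xA, _, a2, a3⟩ := Frm.real_fun hX (F.ef_verts_nonneg B C)
  obtain ⟨xB, _, b2, b3⟩ := Frm.real_fun hX (F.ef_verts_nonneg C A)
  obtain ⟨xC, _, c2, c3⟩ := Frm.real_fun hX (F.ef_verts_nonneg A B)
  obtain ⟨h1, h2, h3⟩ := hd
  refine ⟨fun m => if m = A then xA else if m = B then xB else xC, ?_, ?_, ?_, ?_, ?_, ?_⟩
  · apply forall_tri3 <;> simp only [if_true, if_neg h1.symm, if_neg h2.symm, if_neg h3.symm]
    · exact c2 _ (F.u_mem h1) (F.lf_ef_u A B)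
    · exact b2 _ (F.u_mem h2) (F.lf_ef_u' C A)
    · exact c2 _ (F.u_mem h1.symm) (F.lf_ef_u' A B)
    · exact a2 _ (F.u_mem h3) (F.lf_ef_u B C)
    · exact b2 _ (F.u_mem h2.symm) (F.lf_ef_u C A)
    · exact a2 _ (F.u_mem h3.symm) (F.lf_ef_u' B C)
  · apply forall_tri2 <;> simp only [if_true, if_neg h1.symm, if_neg h2.symm, if_neg h3.symm]
    · exact a3 _ (F.u_mem h1) (F.ef_u_pos (by tauto))
    · exact a3 _ (F.u_mem h2) (F.ef_u_pos (by tauto))
    · exact b3 _ (F.u_mem h1.symm) (F.ef_u_pos (by tauto))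
    · exact b3 _ (F.u_mem h3) (F.ef_u_pos (by tauto))
    · exact c3 _ (F.u_mem h2.symm) (F.ef_u_pos (by tauto))
    · exact c3 _ (F.u_mem h3.symm) (F.ef_u_pos (by tauto))
  · apply forall_tri2 <;> simp only [if_true, if_neg h1.symm, if_neg h2.symm, if_neg h3.symm]
    · exact b3 _ (F.u_mem h1) (F.ef_u_pos (by tauto))
    · exact c3 _ (F.u_mem h2) (F.ef_u_pos (by tauto))
    · exact a3 _ (F.u_mem h1.symm) (F.ef_u_pos (by tauto))
    · exact c3 _ (F.u_mem h3) (F.ef_u_pos (by tauto))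
    · exact a3 _ (F.u_mem h2.symm) (F.ef_u_pos (by tauto))
    · exact b3 _ (F.u_mem h3.symm) (F.ef_u_pos (by tauto))
  all_goals
    intro k l m _ _ _ hdis
    have q1 := a3 _ (F.s_mem hdis) (F.ef_s_pos B C hdis)
    have q2 := b3 _ (F.s_mem hdis) (F.ef_s_pos C A hdis)
    have q3 := c3 _ (F.s_mem hdis) (F.ef_s_pos A B hdis)
    split_ifs <;> assumption

namespace Crd

variable {F : Frm d} {X : Amb d → Amb d} {T : Finset (Fin (d + 1))}
  {x : Fin (d + 1) → (Amb d →ₗ[ℝ] ℝ)}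

/-- The position of a truncation vertex. -/
noncomputable def ep (F : Frm d) (X : Amb d → Amb d) (x : Fin (d + 1) → (Amb d →ₗ[ℝ] ℝ))
    (k l : Fin (d + 1)) : ℝ := x l (X (F.u k l)) / x k (X (F.u k l))

/-- The position of a deep vertex. -/
noncomputable def mu (F : Frm d) (X : Amb d → Amb d) (x : Fin (d + 1) → (Amb d →ₗ[ℝ] ℝ))
    (k l m : Fin (d + 1)) : ℝ := x l (X (F.s k l m)) / x k (X (F.s k l m))

theorem ep_pos (c : Crd F X T x) {k l : Fin (d + 1)} (hk : k ∈ T) (hl : l ∈ T) (h : k ≠ l) :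
    0 < ep F X x k l := div_pos (c.p2 k l hk hl h) (c.p1 k l hk hl h)

theorem mu_pos (c : Crd F X T x) {k l m : Fin (d + 1)} (hk : k ∈ T) (hl : l ∈ T) (hm : m ∈ T)
    (h : Dis k l m) : 0 < mu F X x k l m := div_pos (c.s2 k l m hk hl hm h) (c.s1 k l m hk hl hm h)

theorem ul (c : Crd F X T x) {k l : Fin (d + 1)} (hk : k ∈ T) (hl : l ∈ T) (h : k ≠ l) :
    x l (X (F.u k l)) = ep F X x k l * x k (X (F.u k l)) := by
  have := c.p1 k l hk hl h
  unfold ep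
  field_simp

theorem sl (c : Crd F X T x) {k l m : Fin (d + 1)} (hk : k ∈ T) (hl : l ∈ T) (hm : m ∈ T)
    (h : Dis k l m) : x l (X (F.s k l m)) = mu F X x k l m * x k (X (F.s k l m)) := by
  have := c.s1 k l m hk hl hm h
  unfold mu
  field_simp

theorem sm (c : Crd F X T x) (hX : Rz F.verts X) {k l m : Fin (d + 1)} (hk : k ∈ T) (hl : l ∈ T)
    (hm : m ∈ T) (h : Dis k l m) :
    x m (X (F.s k l m)) = ep F X x l m * (mu F X x k l m * x k (X (F.s k l m))) := by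
  obtain ⟨h1, h2, h3⟩ := h
  have hrel : x m (X (F.u l m)) * x l (X (F.s k l m)) = x m (X (F.s k l m)) * x l (X (F.u l m)) :=
    Frm.gadget_rel hX (A := l) (B := k) (C := m) ⟨h1.symm, h3, h2⟩ 0 (x m) (x l)
      (c.z l k m hl hk hm ⟨h1.symm, h3, h2⟩) (c.z k l m hk hl hm ⟨h1, h2, h3⟩)
      (c.z k m l hk hm hl ⟨h2, h1, h3.symm⟩) (c.z m k l hm hk hl ⟨h2.symm, h3.symm, h1⟩)
  rw [← c.sl hk hl hm ⟨h1, h2, h3⟩]
  rw [c.ul hl hm h3] at hrel
  have hp := c.p1 l m hl hm h3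
  have : x l (X (F.u l m)) * (x m (X (F.s k l m)) - ep F X x l m * x l (X (F.s k l m))) = 0 := by
    linear_combination -hrel
  have := (mul_eq_zero.1 this).resolve_left hp.ne'
  linarith

/-- The two main relations. -/
theorem rel (c : Crd F X T x) (hX : Rz F.verts X) {A B C : Fin (d + 1)} (hA : A ∈ T) (hB : B ∈ T)
    (hC : C ∈ T) (hd : Dis A B C) :
    mu F X x A B C * (1 - ep F X x B C * ep F X x C B) * (ep F X x A C - mu F X x A C B) =
      ep F X x A C * mu F X x A C B * ep F X x C B ∧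
    mu F X x A C B * ep F X x C B =
      (ep F X x A C - mu F X x A C B) * (ep F X x A B * ep F X x C A) := by
  obtain ⟨h1, h2, h3⟩ := hd
  have dABC : Dis A B C := ⟨h1, h2, h3⟩
  have dACB : Dis A C B := ⟨h2, h1, h3.symm⟩
  have dBAC : Dis B A C := ⟨h1.symm, h3, h2⟩
  have dBCA : Dis B C A := ⟨h3, h1.symm, h2.symm⟩
  have dCAB : Dis C A B := ⟨h2.symm, h3.symm, h1⟩
  have dCBA : Dis C B A := ⟨h3.symm, h2.symm, h1.symm⟩
  obtain ⟨ab, hab⟩ : ∃ t, t = ep F X x A B := ⟨_, rfl⟩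
  obtain ⟨ac, hac⟩ : ∃ t, t = ep F X x A C := ⟨_, rfl⟩
  obtain ⟨ca, hca⟩ : ∃ t, t = ep F X x C A := ⟨_, rfl⟩
  obtain ⟨cb, hcb⟩ : ∃ t, t = ep F X x C B := ⟨_, rfl⟩
  obtain ⟨bc, hbc⟩ : ∃ t, t = ep F X x B C := ⟨_, rfl⟩
  obtain ⟨mac, hmac⟩ : ∃ t, t = mu F X x A C B := ⟨_, rfl⟩
  obtain ⟨mab, hmab⟩ : ∃ t, t = mu F X x A B C := ⟨_, rfl⟩
  -- coordinates of the vectors
  have uAC_B := c.z A C B hA hC hB dACB
  have uAC_C := c.ul hA hC h2
  have uAC_p := c.p1 A C hA hC h2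
  have uAB_C := c.z A B C hA hB hC dABC
  have uAB_B := c.ul hA hB h1
  have uAB_p := c.p1 A B hA hB h1
  have uBA_C := c.z B A C hB hA hC dBAC
  have uBC_A := c.z B C A hB hC hA dBCA
  have uCB_A := c.z C B A hC hB hA dCBA
  have uCB_B := c.ul hC hB h3.symm
  have uCB_p := c.p1 C B hC hB h3.symm
  have uCA_B := c.z C A B hC hA hB dCAB
  have uCA_A := c.ul hC hA h2.symm
  have uCA_p := c.p1 C A hC hA h2.symm
  have sACB_C := c.sl hA hC hB dACB
  have sACB_B := c.sm hX hA hC hB dACB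
  have sACB_p := c.s1 A C B hA hC hB dACB
  have sABC_B := c.sl hA hB hC dABC
  have sABC_C := c.sm hX hA hB hC dABC
  have sABC_p := c.s1 A B C hA hB hC dABC
  rw [← hab, ← hac, ← hca, ← hcb, ← hbc, ← hmac, ← hmab]
  rw [← hac] at uAC_C
  rw [← hab] at uAB_B
  rw [← hcb] at uCB_B
  rw [← hca] at uCA_A
  rw [← hmac] at sACB_C
  rw [← hcb, ← hmac] at sACB_B
  rw [← hmab] at sABC_B
  rw [← hbc, ← hmab] at sABC_C
  -- the functional of the shoulder edge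
  let φ : Amb d →ₗ[ℝ] ℝ := (-(ac * mac * cb)) • x A + (ac - mac) • x B + (mac * cb) • x C
  have hφ : ∀ v, φ v = -(ac * mac * cb) * x A v + (ac - mac) * x B v + mac * cb * x C v :=
    fun v => rfl
  have φ1 : φ (X (F.u A C)) = 0 := by
    rw [hφ, uAC_B, uAC_C]; ring
  have φ2 : φ (X (F.s A C B)) = 0 := by
    rw [hφ, sACB_B, sACB_C]; ring
  have r1 : φ (X (F.s A B C)) * x C (X (F.u C B)) = φ (X (F.u C B)) * x C (X (F.s A B C)) :=
    Frm.gadget_rel hX dABC 1 φ (x C) φ1 φ2 uAB_C uBA_C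
  have r2 : φ (X (F.u A B)) * x A (X (F.u C A)) = φ (X (F.u C A)) * x A (X (F.u A B)) :=
    Frm.gadget_rel hX dABC 2 φ (x A) φ1 φ2 uBC_A uCB_A
  rw [hφ, hφ, sABC_B, sABC_C, uCB_A, uCB_B] at r1
  rw [hφ, hφ, uAB_B, uAB_C, uCA_A, uCA_B] at r2
  constructor
  · have : x A (X (F.s A B C)) * x C (X (F.u C B)) *
        (mab * (1 - bc * cb) * (ac - mac) - ac * mac * cb) = 0 := by
      linear_combination r1
    have := (mul_eq_zero.1 this).resolve_left (by positivity)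
    linarith
  · have : x A (X (F.u A B)) * x C (X (F.u C A)) *
        (mac * cb - (ac - mac) * (ab * ca)) = 0 := by
      linear_combination -r2
    have := (mul_eq_zero.1 this).resolve_left (by positivity)
    linarith

end Crd

end Pool.Agent.U285.Scrib
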