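import Pool.Agent.U285.Scrib.Plane

/-!
# The frame of a plane of a realization
-/

namespace Pool.Agent.U285.Scrib

open Submodule Pool.Agent.Helper101_Scrib

variable {d : ℕ}

/-- `e` is a frame for the realized vertices with indices in `T`. -/
def Fr (F : Frm d) (X : Amb d → Amb d) (T : Finset (Fin (d + 1))) (e : Fin (d + 1) → Amb d) :
    Prop :=
  (∀ k l, k ∈ T → l ∈ T → k ≠ l → ∃ w : ℝ, 0 < w ∧ e k + (1 / 2 : ℝ) • e l = w • X (F.u k l)) ∧
  (∀ k l m, k ∈ T → l ∈ T → m ∈ T → Dis k l m →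
    ∃ w : ℝ, 0 < w ∧ e k + (1 / 6 : ℝ) • e l + (1 / 12 : ℝ) • e m = w • X (F.s k l m))

theorem mem_span_of_L4 {E : Type*} [AddCommGroup E] [Module ℝ E] {a b c e : E}
    (h : L4 e a b c) : e ∈ span ℝ ({a, b, c} : Set E) := by
  obtain ⟨α, β, γ, δ, hα, _, _, _, h⟩ := h
  have h1 : α • e = -(β • a) - γ • b - δ • c := by
    linear_combination (norm := module) h
  have h2 : e = α⁻¹ • (α • e) := by rw [inv_smul_smul₀ hα]
  rw [h2, h1]
  have ha : a ∈ span ℝ ({a, b, c} : Set E) := Submodule.subset_span (by simp)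
  have hb : b ∈ span ℝ ({a, b, c} : Set E) := Submodule.subset_span (by simp)
  have hc : c ∈ span ℝ ({a, b, c} : Set E) := Submodule.subset_span (by simp)
  exact Submodule.smul_mem _ _ (Submodule.sub_mem _ (Submodule.sub_mem _
    (Submodule.neg_mem _ (Submodule.smul_mem _ _ ha)) (Submodule.smul_mem _ _ hb))
    (Submodule.smul_mem _ _ hc))

theorem s_ne_s (F : Frm d) {k l m k' l' m' : Fin (d + 1)} (h : Dis k l m) (h' : Dis k' l' m')
    (hne : ¬ (k = k' ∧ l = l' ∧ m = m')) : F.s k l m ≠ F.s k' l' m' := by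
  intro he
  apply hne
  have h1 := congrArg (F.lf (Frm.ff k)) he
  rw [F.ff_s h] at h1
  have hk : k' = k := by
    by_contra hk
    exact (F.ff_s_pos (n := l') (p := m') hk).ne h1
  subst hk
  have h2 := congrArg (F.lf (fun p => if p = l then 1 else 0)) he
  have h3 := congrArg (F.lf (fun p => if p = m then 1 else 0)) he
  obtain ⟨a1, a2, a3⟩ := h
  obtain ⟨b1, b2, b3⟩ := h'
  simp only [Frm.lf_s, if_true, if_neg a1, if_neg a2, if_neg a3, if_neg a3.symm] at h2 h3
  have hl : l' = l := by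
    by_contra hl
    rw [if_neg hl] at h2
    split_ifs at h2 <;> norm_num at h2
  subst hl
  have hm : m' = m := by
    by_contra hm
    rw [if_neg hm, if_neg a3] at h3
    norm_num at h3
  exact ⟨rfl, rfl, hm.symm⟩

section

variable {F : Frm d} {X : Amb d → Amb d} (hX : Rz F.verts X) {A B C : Fin (d + 1)}
  (hd : Dis A B C)

include hX hd

/-- All realized vertices of the twelve-gon lie in a three-dimensional space. -/
theorem mem_W {v : Amb d} (hv : v ∈ F.verts) (h0 : F.lf (F.pl A B C) v = 0) :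
    X v ∈ span ℝ ({X (F.u A B), X (F.u B A), X (F.u A C)} : Set (Amb d)) := by
  obtain ⟨h1, h2, h3⟩ := hd
  have hA : A ∈ tri A B C := by simp [tri]
  have hB : B ∈ tri A B C := by simp [tri]
  have hC : C ∈ tri A B C := by simp [tri]
  by_cases c1 : v = F.u A B
  · rw [c1]; exact Submodule.subset_span (by simp)
  by_cases c2 : v = F.u B A
  · rw [c2]; exact Submodule.subset_span (by simp)
  by_cases c3 : v = F.u A C
  · rw [c3]; exact Submodule.subset_span (by simp)
  apply mem_span_of_L4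
  exact hX.rel4 (fun v hv => F.vertex hv) (F.lf (F.pl A B C)) (F.pl_nonneg A B C)
    (F.linDim_pl A B C) hv (F.u_mem h1) (F.u_mem h1.symm) (F.u_mem h2) h0 (F.pl_u hA hB)
    (F.pl_u hB hA) (F.pl_u hA hC) c1 c2 c3 (F.u_ne_u h1 fun h => h1 h.1)
    (F.u_ne_u h1 fun h => h3 h.2) (F.u_ne_u h1.symm fun h => h1 h.1.symm)

/-- A vector of the realized plane is determined by its coordinates. -/
theorem eq_zero_of_crd {x : Fin (d + 1) → (Amb d →ₗ[ℝ] ℝ)} (c : Crd F X (tri A B C) x)
    {v : Amb d} (hv : v ∈ span ℝ ({X (F.u A B), X (F.u B A), X (F.u A C)} : Set (Amb d)))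
    (hA : x A v = 0) (hB : x B v = 0) (hC : x C v = 0) : v = 0 := by
  obtain ⟨h1, h2, h3⟩ := hd
  have mA : A ∈ tri A B C := by simp [tri]
  have mB : B ∈ tri A B C := by simp [tri]
  have mC : C ∈ tri A B C := by simp [tri]
  have dABC : Dis A B C := ⟨h1, h2, h3⟩
  have dACB : Dis A C B := ⟨h2, h1, h3.symm⟩
  have dBAC : Dis B A C := ⟨h1.symm, h3, h2⟩
  have dBCA : Dis B C A := ⟨h3, h1.symm, h2.symm⟩
  have uAB_C := c.z A B C mA mB mC dABC
  have uBA_C := c.z B A C mB mA mC dBAC
  have uAC_B := c.z A C B mA mC mB dACB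
  have uBC_A := c.z B C A mB mC mA dBCA
  have uAC_C := c.p2 A C mA mC h2
  have uAC_A := c.p1 A C mA mC h2
  have uBC_C := c.p2 B C mB mC h3
  have uBC_B := c.p1 B C mB mC h3
  have pAB_A := c.p1 A B mA mB h1
  have pAB_B := c.p2 A B mA mB h1
  have pBA_A := c.p2 B A mB mA h1.symm
  have pBA_B := c.p1 B A mB mA h1.symm
  -- the determinant does not vanish
  have hdet : x A (X (F.u A B)) * x B (X (F.u B A)) - x B (X (F.u A B)) * x A (X (F.u B A)) ≠ 0 := by
    intro h0
    have hw := mem_W hX dABC (F.u_mem h3) (F.pl_u mB mC)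
    rw [Submodule.mem_span_triple] at hw
    obtain ⟨p, q, r, hw⟩ := hw
    have e1 := congrArg (x A) hw
    have e2 := congrArg (x B) hw
    have e3 := congrArg (x C) hw
    simp only [map_add, map_smul, smul_eq_mul] at e1 e2 e3
    rw [uAB_C, uBA_C] at e3
    rw [uAC_B] at e2
    rw [uBC_A] at e1
    have hr : 0 < r := by
      have : 0 < r * x C (X (F.u A C)) := by linarith
      exact (pos_iff_pos_of_mul_pos this).2 uAC_C
    have k1 : p * x A (X (F.u A B)) + q * x A (X (F.u B A)) < 0 := by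
      have := mul_pos hr uAC_A
      linarith
    have k2 : 0 < p * x B (X (F.u A B)) + q * x B (X (F.u B A)) := by linarith
    -- proportional positive vectors
    have k3 : (p * x A (X (F.u A B)) + q * x A (X (F.u B A))) * x B (X (F.u B A)) =
        (p * x B (X (F.u A B)) + q * x B (X (F.u B A))) * x A (X (F.u B A)) := by
      linear_combination p * h0
    have k4 := mul_pos k2 pBA_A
    have k5 := mul_neg_of_neg_of_pos k1 pBA_B
    linarith
  rw [Submodule.mem_span_triple] at hv
  obtain ⟨p, q, r, rfl⟩ := hv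
  simp only [map_add, map_smul, smul_eq_mul] at hA hB hC
  rw [uAB_C, uBA_C] at hC
  have hr : r = 0 := by
    have : r * x C (X (F.u A C)) = 0 := by linarith
    exact (mul_eq_zero.1 this).resolve_right uAC_C.ne'
  subst hr
  rw [zero_mul, add_zero] at hA hB
  have hp : p = 0 := by
    have : p * (x A (X (F.u A B)) * x B (X (F.u B A)) -
        x B (X (F.u A B)) * x A (X (F.u B A))) = 0 := by
      linear_combination x B (X (F.u B A)) * hA - x A (X (F.u B A)) * hB
    exact (mul_eq_zero.1 this).resolve_right hdet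
  subst hp
  have hq : q = 0 := by
    have : q * x B (X (F.u B A)) = 0 := by linarith
    exact (mul_eq_zero.1 this).resolve_right pBA_B.ne'
  subst hq
  simp

/-- Every plane of a realization has a frame. -/
theorem exists_fr : ∃ e, Fr F X (tri A B C) e := by
  obtain ⟨x, c⟩ := exists_crd hX hd
  have mA : A ∈ tri A B C := by simp [tri]
  have mB : B ∈ tri A B C := by simp [tri]
  have mC : C ∈ tri A B C := by simp [tri]
  obtain ⟨h1, h2, h3⟩ := hd
  have dABC : Dis A B C := ⟨h1, h2, h3⟩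
  have dACB : Dis A C B := ⟨h2, h1, h3.symm⟩
  have dBAC : Dis B A C := ⟨h1.symm, h3, h2⟩
  have dBCA : Dis B C A := ⟨h3, h1.symm, h2.symm⟩
  have dCAB : Dis C A B := ⟨h2.symm, h3.symm, h1⟩
  have dCBA : Dis C B A := ⟨h3.symm, h2.symm, h1.symm⟩
  obtain ⟨i1, j1⟩ := c.rel hX mA mB mC dABC
  obtain ⟨i2, j2⟩ := c.rel hX mA mC mB dACB
  obtain ⟨i3, j3⟩ := c.rel hX mB mA mC dBAC
  obtain ⟨i4, j4⟩ := c.rel hX mB mC mA dBCA
  obtain ⟨i5, j5⟩ := c.rel hX mC mA mB dCAB
  obtain ⟨i6, j6⟩ := c.rel hX mC mB mA dCBA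
  have pab := c.ep_pos mA mB h1
  have pba := c.ep_pos mB mA h1.symm
  have pac := c.ep_pos mA mC h2
  have pca := c.ep_pos mC mA h2.symm
  have pbc := c.ep_pos mB mC h3
  have pcb := c.ep_pos mC mB h3.symm
  obtain ⟨⟨e1, e2, e3, e4, e5⟩, f1, f2, f3, f4, f5, f6⟩ := alg pab pba pbc pcb pca pac
    (c.mu_pos mA mB mC dABC) (c.mu_pos mA mC mB dACB) (c.mu_pos mB mA mC dBAC)
    (c.mu_pos mB mC mA dBCA) (c.mu_pos mC mA mB dCAB) (c.mu_pos mC mB mA dCBA)
    i1 j1 i2 j2 i3 j3 i4 j4 i5 j5 i6 j6
  obtain ⟨ab, hab⟩ : ∃ t, t = Crd.ep F X x A B := ⟨_, rfl⟩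
  obtain ⟨ac, hac⟩ : ∃ t, t = Crd.ep F X x A C := ⟨_, rfl⟩
  obtain ⟨ca, hca⟩ : ∃ t, t = Crd.ep F X x C A := ⟨_, rfl⟩
  obtain ⟨cb, hcb⟩ : ∃ t, t = Crd.ep F X x C B := ⟨_, rfl⟩
  obtain ⟨bc, hbc⟩ : ∃ t, t = Crd.ep F X x B C := ⟨_, rfl⟩
  obtain ⟨ba, hba⟩ : ∃ t, t = Crd.ep F X x B A := ⟨_, rfl⟩
  -- the weights
  let la : Fin (d + 1) → ℝ := fun m => if m = A then 1 else if m = B then 2 * ab else 2 * ac
  have laA : la A = 1 := by simp [la]
  have laB : la B = 2 * ab := by simp [la, h1.symm]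
  have laC : la C = 2 * ac := by simp [la, h2.symm, h3.symm]
  have lapos : ∀ m, 0 < la m := by
    intro m
    simp only [la]
    rw [← hab] at pab
    rw [← hac] at pac
    split_ifs
    · norm_num
    · linarith
    · linarith
  have hla : ∀ k l, k ∈ tri A B C → l ∈ tri A B C → k ≠ l →
      la k * Crd.ep F X x k l = 1 / 2 * la l := by
    rw [← hab, ← hba] at e1
    rw [← hbc, ← hcb] at e2
    rw [← hca, ← hac] at e3
    rw [← hab, ← hbc, ← hca] at e4
    rw [← hac, ← hcb, ← hba] at e5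
    rw [← hab] at pab
    rw [← hac] at pac
    rw [← hbc] at pbc
    rw [← hcb] at pcb
    apply forall_tri2
    · rw [laA, laB, ← hab]; ring
    · rw [laA, laC, ← hac]; ring
    · rw [laA, laB, ← hba]; linarith
    · rw [laB, laC, ← hbc]
      have : ac * (ab * bc * ca) = ac * (1 / 8) := by rw [e4]
      have : ab * bc * (ca * ac) = ac * (1 / 8) := by rw [← this]; ring
      rw [e3] at this
      linarith
    · rw [laA, laC, ← hca]; linarith
    · rw [laB, laC, ← hcb]
      have : ab * (ac * cb * ba) = ab * (1 / 8) := by rw [e5]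
      have : ac * cb * (ab * ba) = ab * (1 / 8) := by rw [← this]; ring
      rw [e1] at this
      linarith
  have hmu : ∀ k l m, k ∈ tri A B C → l ∈ tri A B C → m ∈ tri A B C → Dis k l m →
      Crd.mu F X x k l m = Crd.ep F X x k l / 3 := by
    apply forall_tri3 <;> assumption
  -- normalized vertices
  let U : Fin (d + 1) → Fin (d + 1) → Amb d := fun k l => (la k / x k (X (F.u k l))) • X (F.u k l)
  have hU1 : ∀ k l, k ∈ tri A B C → l ∈ tri A B C → k ≠ l → x k (U k l) = la k := by
    intro k l hk hl hkl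
    have := c.p1 k l hk hl hkl
    simp only [U, map_smul, smul_eq_mul]
    field_simp
  have hU2 : ∀ k l, k ∈ tri A B C → l ∈ tri A B C → k ≠ l → x l (U k l) = 1 / 2 * la l := by
    intro k l hk hl hkl
    have := c.p1 k l hk hl hkl
    simp only [U, map_smul, smul_eq_mul]
    rw [c.ul hk hl hkl, ← hla k l hk hl hkl]
    field_simp
  have hU3 : ∀ k l m, k ∈ tri A B C → l ∈ tri A B C → m ∈ tri A B C → Dis k l m →
      x m (U k l) = 0 := by
    intro k l m hk hl hm hkl
    simp only [U, map_smul, smul_eq_mul]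
    rw [c.z k l m hk hl hm hkl, mul_zero]
  have hUW : ∀ k l, k ∈ tri A B C → l ∈ tri A B C → k ≠ l →
      U k l ∈ span ℝ ({X (F.u A B), X (F.u B A), X (F.u A C)} : Set (Amb d)) := by
    intro k l hk hl hkl
    exact Submodule.smul_mem _ _ (mem_W hX dABC (F.u_mem hkl) (F.pl_u hk hl))
  let e : Fin (d + 1) → Amb d := fun m =>
    if m = A then (4 / 3 : ℝ) • (U A B - (1 / 2 : ℝ) • U B A) else
    if m = B then (4 / 3 : ℝ) • (U B A - (1 / 2 : ℝ) • U A B) else
      (4 / 3 : ℝ) • (U C A - (1 / 2 : ℝ) • U A C)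
  have eA : e A = (4 / 3 : ℝ) • (U A B - (1 / 2 : ℝ) • U B A) := by simp [e]
  have eB : e B = (4 / 3 : ℝ) • (U B A - (1 / 2 : ℝ) • U A B) := by simp [e, h1.symm]
  have eC : e C = (4 / 3 : ℝ) • (U C A - (1 / 2 : ℝ) • U A C) := by simp [e, h2.symm, h3.symm]
  have hx1 : ∀ k, k ∈ tri A B C → x k (e k) = la k := by
    intro k hk
    rw [mem_tri] at hk
    rcases hk with rfl | rfl | rfl
    · rw [eA]
      simp only [map_smul, map_sub, smul_eq_mul]
      rw [hU1 _ _ mA mB h1, hU2 _ _ mB mA h1.symm]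
      ring
    · rw [eB]
      simp only [map_smul, map_sub, smul_eq_mul]
      rw [hU2 _ _ mA mB h1, hU1 _ _ mB mA h1.symm]
      ring
    · rw [eC]
      simp only [map_smul, map_sub, smul_eq_mul]
      rw [hU2 _ _ mA mC h2, hU1 _ _ mC mA h2.symm]
      ring
  have hx2 : ∀ k l, k ∈ tri A B C → l ∈ tri A B C → k ≠ l → x l (e k) = 0 := by
    apply forall_tri2
    · rw [eA]
      simp only [map_smul, map_sub, smul_eq_mul]
      rw [hU2 _ _ mA mB h1, hU1 _ _ mB mA h1.symm]
      ring
    · rw [eA]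
      simp only [map_smul, map_sub, smul_eq_mul]
      rw [hU3 _ _ _ mA mB mC dABC, hU3 _ _ _ mB mA mC dBAC]
      ring
    · rw [eB]
      simp only [map_smul, map_sub, smul_eq_mul]
      rw [hU1 _ _ mA mB h1, hU2 _ _ mB mA h1.symm]
      ring
    · rw [eB]
      simp only [map_smul, map_sub, smul_eq_mul]
      rw [hU3 _ _ _ mA mB mC dABC, hU3 _ _ _ mB mA mC dBAC]
      ring
    · rw [eC]
      simp only [map_smul, map_sub, smul_eq_mul]
      rw [hU1 _ _ mA mC h2, hU2 _ _ mC mA h2.symm]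
      ring
    · rw [eC]
      simp only [map_smul, map_sub, smul_eq_mul]
      rw [hU3 _ _ _ mA mC mB dACB, hU3 _ _ _ mC mA mB dCAB]
      ring
  have heW : ∀ k, k ∈ tri A B C →
      e k ∈ span ℝ ({X (F.u A B), X (F.u B A), X (F.u A C)} : Set (Amb d)) := by
    intro k hk
    rw [mem_tri] at hk
    rcases hk with rfl | rfl | rfl
    · rw [eA]
      exact Submodule.smul_mem _ _ (Submodule.sub_mem _ (hUW _ _ mA mB h1)
        (Submodule.smul_mem _ _ (hUW _ _ mB mA h1.symm)))
    · rw [eB]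
      exact Submodule.smul_mem _ _ (Submodule.sub_mem _ (hUW _ _ mB mA h1.symm)
        (Submodule.smul_mem _ _ (hUW _ _ mA mB h1)))
    · rw [eC]
      exact Submodule.smul_mem _ _ (Submodule.sub_mem _ (hUW _ _ mC mA h2.symm)
        (Submodule.smul_mem _ _ (hUW _ _ mA mC h2)))
  have hzero : ∀ v ∈ span ℝ ({X (F.u A B), X (F.u B A), X (F.u A C)} : Set (Amb d)),
      (∀ m ∈ tri A B C, x m v = 0) → v = 0 := fun v hv h =>
    eq_zero_of_crd hX dABC c hv (h A mA) (h B mB) (h C mC)
  refine ⟨e, ?_, ?_⟩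
  · intro k l hk hl hkl
    refine ⟨la k / x k (X (F.u k l)), div_pos (lapos k) (c.p1 k l hk hl hkl), ?_⟩
    have : e k + (1 / 2 : ℝ) • e l - U k l = 0 := by
      apply hzero
      · exact Submodule.sub_mem _ (Submodule.add_mem _ (heW k hk)
          (Submodule.smul_mem _ _ (heW l hl))) (hUW k l hk hl hkl)
      · intro m hm
        simp only [map_add, map_sub, map_smul, smul_eq_mul]
        by_cases c1 : m = k
        · subst c1
          rw [hx1 m hm, hx2 l m hl hm hkl.symm, hU1 m l hm hl hkl]; ring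
        · by_cases c2 : m = l
          · subst c2
            rw [hx1 m hm, hx2 k m hk hm hkl, hU2 k m hk hm hkl]; ring
          · rw [hx2 k m hk hm (Ne.symm c1), hx2 l m hl hm (Ne.symm c2),
              hU3 k l m hk hl hm ⟨hkl, Ne.symm c1, Ne.symm c2⟩]; ring
    exact sub_eq_zero.1 this
  · intro k l m hk hl hm hdis
    obtain ⟨a1, a2, a3⟩ := hdis
    have hs1 := c.s1 k l m hk hl hm ⟨a1, a2, a3⟩
    refine ⟨la k / x k (X (F.s k l m)), div_pos (lapos k) hs1, ?_⟩
    have : e k + (1 / 6 : ℝ) • e l + (1 / 12 : ℝ) • e m -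
        (la k / x k (X (F.s k l m))) • X (F.s k l m) = 0 := by
      apply hzero
      · exact Submodule.sub_mem _ (Submodule.add_mem _ (Submodule.add_mem _ (heW k hk)
          (Submodule.smul_mem _ _ (heW l hl))) (Submodule.smul_mem _ _ (heW m hm)))
          (Submodule.smul_mem _ _ (mem_W hX dABC (F.s_mem ⟨a1, a2, a3⟩) (F.pl_s hk hl hm)))
      · have g1 : x k (e k + (1 / 6 : ℝ) • e l + (1 / 12 : ℝ) • e m -
            (la k / x k (X (F.s k l m))) • X (F.s k l m)) = 0 := by
          simp only [map_add, map_sub, map_smul, smul_eq_mul]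
          rw [hx1 k hk, hx2 l k hl hk a1.symm, hx2 m k hm hk a2.symm]
          field_simp
          ring
        have g2 : x l (e k + (1 / 6 : ℝ) • e l + (1 / 12 : ℝ) • e m -
            (la k / x k (X (F.s k l m))) • X (F.s k l m)) = 0 := by
          simp only [map_add, map_sub, map_smul, smul_eq_mul]
          rw [hx1 l hl, hx2 k l hk hl a1, hx2 m l hm hl a3.symm,
            c.sl hk hl hm ⟨a1, a2, a3⟩, hmu k l m hk hl hm ⟨a1, a2, a3⟩]
          have t1 := hla k l hk hl a1
          have t3 : la k / x k (X (F.s k l m)) *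
              (Crd.ep F X x k l / 3 * x k (X (F.s k l m))) =
              la k * Crd.ep F X x k l / 3 := by
            field_simp
          rw [t3]
          linear_combination (-(1 / 3)) * t1
        have g3 : x m (e k + (1 / 6 : ℝ) • e l + (1 / 12 : ℝ) • e m -
            (la k / x k (X (F.s k l m))) • X (F.s k l m)) = 0 := by
          simp only [map_add, map_sub, map_smul, smul_eq_mul]
          rw [hx1 m hm, hx2 k m hk hm a2, hx2 l m hl hm a3,
            c.sm hX hk hl hm ⟨a1, a2, a3⟩, hmu k l m hk hl hm ⟨a1, a2, a3⟩]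
          have t1 := hla k l hk hl a1
          have t2 := hla l m hl hm a3
          have t3 : la k / x k (X (F.s k l m)) *
              (Crd.ep F X x l m * (Crd.ep F X x k l / 3 * x k (X (F.s k l m)))) =
              la k * Crd.ep F X x k l * Crd.ep F X x l m / 3 := by
            field_simp
          rw [t3]
          linear_combination (-(1 / 3) * Crd.ep F X x l m) * t1 - (1 / 6) * t2
        have hsub : ∀ n, n ∈ tri A B C → n = k ∨ n = l ∨ n = m := by
          rw [mem_tri] at hk hl hm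
          intro n hn
          rw [mem_tri] at hn
          rcases hk with rfl | rfl | rfl <;> rcases hl with rfl | rfl | rfl <;>
            rcases hm with rfl | rfl | rfl <;>
              first
              | exact absurd rfl a1
              | exact absurd rfl a2
              | exact absurd rfl a3
              | tauto
        intro n hn
        rcases hsub n hn with rfl | rfl | rfl
        · exact g1
        · exact g2
        · exact g3
    exact sub_eq_zero.1 this

end

end Pool.Agent.U285.Scrib
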