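import Pool.Agent.U285.Scrib.Contra

/-!
# The polytope cone, and the theorem for cones
-/

namespace Pool.Agent.U285.Scrib

open Submodule Pool.Agent.Helper101_Scrib

variable {d : ℕ}

namespace Frm

variable (F : Frm d)

theorem lf_one_pos {v : Amb d} (hv : v ∈ F.verts) : 0 < F.lf (fun _ => 1) v := by
  rcases (F.mem_verts v).1 hv with ⟨m, n, hmn, rfl⟩ | ⟨m, n, p, hd, rfl⟩ |
    ⟨A', B', C', r', t, j, hd, hj, rfl⟩
  · rw [F.lf_u]; norm_num
  · rw [F.lf_s]; norm_num
  · rw [F.lf_y]
    obtain ⟨j1, j2, j3, j4⟩ := J.bounds hj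
    have z1 := pos_lo A' B' C' r'
    have z2 := pos_hi A' B' C' r'
    have h1 := lam_lo r' t
    have h2 : 0 ≤ F.lf (fun _ => 1) (F.sg A' B' C' r' t) := by
      apply F.sg_cases A' B' C' r' t (P := fun v => 0 ≤ F.lf (fun _ => 1) v) <;>
        simp only [lf_u, lf_s] <;> norm_num
    have h3 : 0 ≤ (1 + j ^ 2) * lam r' t * F.lf (fun _ => 1) (F.sg A' B' C' r' t) := by positivity
    nlinarith

theorem empty_face : IsFace (F.verts : Set (Amb d)) ∅ := by
  refine ⟨F.lf (fun _ => 1), fun v hv => (F.lf_one_pos hv).le, ?_⟩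
  ext v
  simp only [Set.mem_empty_iff_false, Set.mem_ofPred_eq, false_iff, not_and]
  intro hv
  exact (F.lf_one_pos hv).ne'

theorem b_mem_span (hd : 1 ≤ d) (k : Fin (d + 1)) :
    F.b k ∈ span ℝ (F.verts : Set (Amb d)) := by
  obtain ⟨l, hl⟩ : ∃ l : Fin (d + 1), l ≠ k := by
    by_cases h : k = 0
    · refine ⟨⟨1, by omega⟩, ?_⟩
      rw [h]
      intro h'
      have := congrArg Fin.val h'
      simp at this
    · exact ⟨0, fun h' => h h'.symm⟩
  have h1 : F.u k l ∈ span ℝ (F.verts : Set (Amb d)) := Submodule.subset_span (F.u_mem hl.symm)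
  have h2 : F.u l k ∈ span ℝ (F.verts : Set (Amb d)) := Submodule.subset_span (F.u_mem hl)
  have h4 : F.b k = (1 / 3 : ℝ) • ((2 : ℝ) • F.u k l - F.u l k) := by
    unfold u
    module
  rw [h4]
  exact Submodule.smul_mem _ _ (Submodule.sub_mem _ (Submodule.smul_mem _ _ h1) h2)

theorem isPolytopeCone (hd : 1 ≤ d) : IsPolytopeCone d (conicHull F.verts) := by
  refine ⟨⟨F.verts, rfl⟩, ?_, ?_⟩
  · intro x hx hx'
    have h1 := conicHull_nonneg (fun v hv => (F.lf_one_pos hv).le) hx
    have h2 := conicHull_nonneg (fun v hv => (F.lf_one_pos hv).le) hx'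
    rw [map_neg] at h2
    obtain ⟨c, _, hc, hxe⟩ := face_repr (fun v hv => (F.lf_one_pos hv).le) hx
      (le_antisymm (by linarith) h1)
    rw [hxe]
    apply Finset.sum_eq_zero
    intro v hv
    rw [hc v hv (F.lf_one_pos hv).ne', zero_smul]
  · rw [span_conicHull, eq_top_iff, ← F.b.span_eq, Submodule.span_le]
    rintro _ ⟨k, rfl⟩
    exact F.b_mem_span hd k

theorem first_coord (h : ∀ k, F.b k 0 = 1) {x : Amb d}
    (hx : x ∈ conicHull F.verts) (hne : x ≠ 0) : 0 < x 0 := by
  have h1 : ∀ x : Amb d, F.lf (fun _ => 1) x = x 0 := by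
    intro x
    have : F.lf (fun _ => 1) = (LinearMap.proj 0 : Amb d →ₗ[ℝ] ℝ) := by
      apply F.b.ext
      intro k
      rw [F.lf_b, LinearMap.proj_apply, h k]
    rw [this, LinearMap.proj_apply]
  have h2 := conicHull_nonneg (fun v hv => (F.lf_one_pos hv).le) hx
  rw [← h1 x]
  refine lt_of_le_of_ne h2 (fun h0 => hne ?_)
  obtain ⟨c, _, hc, hxe⟩ := face_repr (fun v hv => (F.lf_one_pos hv).le) hx h0.symm
  rw [hxe]
  apply Finset.sum_eq_zero
  intro v hv
  rw [hc v hv (F.lf_one_pos hv).ne', zero_smul]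

theorem u_ne_zero {k l : Fin (d + 1)} (h : k ≠ l) : F.u k l ≠ 0 := by
  intro h0
  have := F.lf_one_pos (F.u_mem h)
  rw [h0, map_zero] at this
  exact lt_irrefl _ this

theorem linDim_u {k l : Fin (d + 1)} (h : k ≠ l) : linDim ({F.u k l} : Set (Amb d)) = 1 := by
  unfold linDim
  exact finrank_span_singleton (F.u_ne_zero h)

/-- The deep facets are facets. -/
theorem linDim_facet (k : Fin (d + 1)) :
    linDim {v | v ∈ F.verts ∧ F.lf (ff k) v = 0} = d := by
  have hspan : span ℝ {v | v ∈ F.verts ∧ F.lf (ff k) v = 0} = LinearMap.ker (F.lf (ff k)) := by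
    apply le_antisymm
    · rw [Submodule.span_le]
      intro v hv
      exact hv.2
    · intro x hx
      rw [LinearMap.mem_ker] at hx
      have hs : ∀ l m, Dis k l m →
          F.s k l m ∈ span ℝ {v | v ∈ F.verts ∧ F.lf (ff k) v = 0} := fun l m h =>
        Submodule.subset_span ⟨F.s_mem h, F.ff_s h⟩
      have hdiff : ∀ l m, Dis k l m →
          F.b l - F.b m ∈ span ℝ {v | v ∈ F.verts ∧ F.lf (ff k) v = 0} := by
        intro l m h
        have e : F.b l - F.b m = F.s k l m - F.s k m l := by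
          unfold s
          module
        rw [e]
        exact Submodule.sub_mem _ (hs l m h) (hs m l ⟨h.2.1, h.1, h.2.2.symm⟩)
      obtain ⟨a1, _, _⟩ := F.ca_ne k k k
      obtain ⟨b1, b2, _⟩ := F.ca_ne k (F.ca (tri k k k)) k
      obtain ⟨l0, hl0⟩ : ∃ l0, l0 = F.ca (tri k k k) := ⟨_, rfl⟩
      rw [← hl0] at a1 b1 b2
      obtain ⟨m0, hm0⟩ : ∃ m0, m0 = F.ca (tri k l0 k) := ⟨_, rfl⟩
      rw [← hm0] at b1 b2
      have hd0 : Dis k l0 m0 := ⟨a1.symm, b1.symm, b2.symm⟩
      have h12 : F.b k + (1 / 4 : ℝ) • F.b l0 ∈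
          span ℝ {v | v ∈ F.verts ∧ F.lf (ff k) v = 0} := by
        have e : F.b k + (1 / 4 : ℝ) • F.b l0 = (1 / 12 : ℝ) • F.s k l0 m0 +
            (1 / 12 : ℝ) • (F.b l0 - F.b m0) := by
          unfold s
          module
        rw [e]
        exact Submodule.add_mem _ (Submodule.smul_mem _ _ (hs _ _ hd0))
          (Submodule.smul_mem _ _ (hdiff _ _ hd0))
      -- expansion in the basis
      have hx2 : x = ∑ m, F.b.repr x m • F.b m := (F.b.sum_repr x).symm
      have hval : ∑ m, F.b.repr x m * ff k m = 0 := by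
        have := hx
        rw [hx2, map_sum] at this
        rw [← this]
        apply Finset.sum_congr rfl
        intro m _
        rw [map_smul, F.lf_b, smul_eq_mul]
      have hterm : ∀ m, F.b.repr x m • F.b m - (F.b.repr x m * ff k m / 4) • F.b l0 ∈
          span ℝ {v | v ∈ F.verts ∧ F.lf (ff k) v = 0} := by
        intro m
        by_cases hm : m = k
        · subst hm
          rw [ff_self]
          have e : F.b.repr x m • F.b m - (F.b.repr x m * -1 / 4) • F.b l0 =
              F.b.repr x m • (F.b m + (1 / 4 : ℝ) • F.b l0) := by module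
          rw [e]
          exact Submodule.smul_mem _ _ h12
        · rw [ff_ne hm]
          by_cases hml : m = l0
          · subst hml
            have e : F.b.repr x m • F.b m - (F.b.repr x m * 4 / 4) • F.b m = 0 := by module
            rw [e]
            exact Submodule.zero_mem _
          · have e : F.b.repr x m • F.b m - (F.b.repr x m * 4 / 4) • F.b l0 =
                F.b.repr x m • (F.b m - F.b l0) := by module
            rw [e]
            exact Submodule.smul_mem _ _ (hdiff m l0 ⟨Ne.symm hm, hd0.1, hml⟩)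
      have hsum := Submodule.sum_mem (span ℝ {v | v ∈ F.verts ∧ F.lf (ff k) v = 0})
        (t := Finset.univ) (fun m _ => hterm m)
      rw [Finset.sum_sub_distrib, ← hx2, ← Finset.sum_smul, ← Finset.sum_div, hval, zero_div,
        zero_smul, sub_zero] at hsum
      exact hsum
  unfold linDim
  rw [hspan]
  have hne : F.lf (ff k) ≠ 0 := by
    intro h
    have h1 := F.lf_b (ff k) k
    rw [h, ff_self] at h1
    norm_num at h1
  have hrange : LinearMap.range (F.lf (ff k)) = ⊤ := by
    rw [LinearMap.range_eq_top]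
    exact LinearMap.surjective_of_ne_zero hne
  have := LinearMap.finrank_range_add_finrank_ker (F.lf (ff k))
  rw [hrange, finrank_top, Module.finrank_self, Module.finrank_fin_fun] at this
  omega

end Frm

/-- The theorem for cones: no realization of the polytope has all vertices avoiding and all
facets meeting the ball. -/
theorem cone_main (hd : 4 ≤ d) (F : Frm d) {K' : Set (Amb d)} (hK' : IsPolytopeCone d K')
    (hT : SameType (conicHull F.verts) K')
    (havoid : ∀ G, IsFace K' G → linDim G = 1 → StronglyAvoids K' G)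
    (hcuts : ∀ G, IsFace K' G → linDim G = d → (G ∩ sphBall d).Nonempty) : False := by
  classical
  have hvert : ∀ v ∈ F.verts, IsFace (F.verts : Set (Amb d)) {v} := fun v hv => F.vertex hv
  obtain ⟨X, hXK, hreal⟩ := realization (by omega) F.empty_face hvert hK' hT
  have hX : Rz F.verts X := by
    intro φ hφ
    obtain ⟨φ', h1, h2, h3, _⟩ := hreal φ hφ
    exact ⟨φ', fun v hv => h1 _ (hXK v hv), h2, h3⟩
  obtain ⟨e, he1, he2⟩ := exists_common hX
  -- vertices avoid
  have hv : ∀ k l, k ≠ l → 0 ≤ bil (e k + (1 / 2 : ℝ) • e l) (e k + (1 / 2 : ℝ) • e l) := by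
    intro k l hkl
    obtain ⟨φ, hφ, hφv⟩ := F.u_vertex hkl
    obtain ⟨φ', h1, h2, _, h4, _⟩ := hreal φ hφ
    have hset : {v | v ∈ F.verts ∧ φ v = 0} = ({F.u k l} : Set (Amb d)) := by
      rw [hφv]
      rfl
    rw [hset, F.linDim_u hkl] at h4
    obtain ⟨m, hm0, _, hm2, hm3⟩ := havoid _ ⟨φ', h1, rfl⟩ h4
    have hz : φ (F.u k l) = 0 := by
      have : F.u k l ∈ ({F.u k l} : Set (Amb d)) := rfl
      rw [hφv] at this
      exact this.2
    have k1 : m (X (F.u k l)) = 0 := by
      have : X (F.u k l) ∈ {x | x ∈ K' ∧ φ' x = 0} :=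
        ⟨hXK _ (F.u_mem hkl), (h2 _ (F.u_mem hkl)).2 hz⟩
      rw [hm2] at this
      exact this.2
    obtain ⟨w, _, hw⟩ := he1 k l hkl
    rw [hw]
    apply lorentz hm0 hm3
    rw [map_smul, k1, smul_zero]
  -- facets cut
  have hcut : ∀ k, ∃ x : Amb d, x ≠ 0 ∧ bil x x ≤ 0 ∧ ∃ W : ℝ, ∃ t : Fin (d + 1) → ℝ,
      0 ≤ W ∧ (∀ l, 0 ≤ t l) ∧ t k = 0 ∧ ∑ l, t l ≤ (1 / 4) * W ∧
        x = W • e k + ∑ l, t l • e l := by
    intro k
    obtain ⟨φ', h1, _, _, h4, h5⟩ := hreal (F.lf (Frm.ff k)) (F.ff_nonneg k)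
    rw [F.linDim_facet k] at h4
    obtain ⟨x, hxF, hxb⟩ := hcuts _ ⟨φ', h1, rfl⟩ h4
    obtain ⟨c, hc0, hc1, hcx⟩ := h5 x hxF.1 hxF.2
    refine ⟨x, ne_zero_of_ball hxb, bil_le_of_ball hxb, ?_⟩
    rw [hcx]
    refine Finset.sum_induction (fun v => c v • X v) (fun x => ∃ W : ℝ, ∃ t : Fin (d + 1) → ℝ,
      0 ≤ W ∧ (∀ l, 0 ≤ t l) ∧ t k = 0 ∧ ∑ l, t l ≤ (1 / 4) * W ∧
        x = W • e k + ∑ l, t l • e l) ?_ ?_ ?_
    · rintro x y ⟨W, t, hW, ht, ht0, hts, rfl⟩ ⟨W', t', hW', ht', ht0', hts', rfl⟩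
      refine ⟨W + W', t + t', add_nonneg hW hW', fun l => add_nonneg (ht l) (ht' l), ?_, ?_, ?_⟩
      · rw [Pi.add_apply, ht0, ht0', add_zero]
      · simp only [Pi.add_apply, Finset.sum_add_distrib]
        linarith
      · simp only [Pi.add_apply, add_smul, Finset.sum_add_distrib]
        abel
    · exact ⟨0, 0, le_rfl, fun l => le_rfl, rfl, by simp, by simp⟩
    · intro v hv
      by_cases h0 : F.lf (Frm.ff k) v = 0
      · obtain ⟨l, m, hl, rfl⟩ := F.ff_zero hv h0
        obtain ⟨w, hw, hwe⟩ := he2 k l m hl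
        obtain ⟨hkl, hkm, hlm⟩ := hl
        have hc := hc0 _ hv
        have hX2 : X (F.s k l m) = w⁻¹ • (e k + (1 / 6 : ℝ) • e l + (1 / 12 : ℝ) • e m) := by
          rw [hwe, inv_smul_smul₀ hw.ne']
        obtain ⟨a, ha⟩ : ∃ a, a = c (F.s k l m) * w⁻¹ := ⟨_, rfl⟩
        have ha0 : 0 ≤ a := by
          rw [ha]
          positivity
        refine ⟨a, fun n => (if n = l then a / 6 else 0) + (if n = m then a / 12 else 0),
          ha0, fun n => ?_, ?_, ?_, ?_⟩
        · apply add_nonneg <;> split_ifs <;> positivity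
        · simp only [if_neg hkl, if_neg hkm, add_zero]
        · rw [Finset.sum_add_distrib, Finset.sum_ite_eq' Finset.univ l,
            Finset.sum_ite_eq' Finset.univ m, if_pos (Finset.mem_univ l),
            if_pos (Finset.mem_univ m)]
          linarith
        · rw [hX2, smul_smul, ← ha]
          simp only [add_smul, ite_smul, zero_smul, Finset.sum_add_distrib]
          rw [Finset.sum_ite_eq' Finset.univ l, Finset.sum_ite_eq' Finset.univ m,
            if_pos (Finset.mem_univ l), if_pos (Finset.mem_univ m)]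
          module
      · refine ⟨0, 0, le_rfl, fun l => le_rfl, rfl, by simp, ?_⟩
        rw [hc1 v hv h0]
        simp
  refine contradiction_of_frame (by omega) hv hcut ?_
  -- independence
  intro k l hkl s t hst
  obtain ⟨a, ha, hA⟩ := he1 k l hkl
  obtain ⟨b, hb, hB⟩ := he1 l k hkl.symm
  obtain ⟨c1, c2, _⟩ := F.ca_ne k l l
  have ek : (3 / 4 : ℝ) • e k = a • X (F.u k l) - (b / 2) • X (F.u l k) := by
    linear_combination (norm := module) hA - (1 / 2 : ℝ) • hB
  have el : (3 / 4 : ℝ) • e l = b • X (F.u l k) - (a / 2) • X (F.u k l) := by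
    linear_combination (norm := module) hB - (1 / 2 : ℝ) • hA
  have hcomb : (s * a - t * (a / 2)) • X (F.u k l) + (t * b - s * (b / 2)) • X (F.u l k) +
      (0 : ℝ) • X (F.u k (F.ca (tri k l l))) = 0 := by
    linear_combination (norm := module) (3 / 4 : ℝ) • hst - s • ek - t • el
  have := hX.indep3 hvert (F.u_mem hkl) (F.u_mem hkl.symm) (F.u_mem c1.symm)
    (F.u_ne_u hkl fun h => hkl h.1) (F.u_ne_u hkl fun h => c2 h.2.symm)
    (F.u_ne_u hkl.symm fun h => hkl h.1.symm) hcomb
  have e1 : s - t / 2 = 0 := by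
    have : a * (s - t / 2) = 0 := by linarith [this.1]
    exact (mul_eq_zero.1 this).resolve_left ha.ne'
  have e2 : t - s / 2 = 0 := by
    have : b * (t - s / 2) = 0 := by linarith [this.2.1]
    exact (mul_eq_zero.1 this).resolve_left hb.ne'
  constructor <;> linarith

/-- The theorem for cones: the polytope is not `(0, d-1)`-scribable. -/
theorem not_scribable (hd : 4 ≤ d) (F : Frm d) : ¬ Scribable d 0 (d - 1) (conicHull F.verts) := by
  rintro ⟨K', hK', hT, havoid, hcuts⟩
  refine cone_main hd F hK' hT (fun G hG h => havoid G hG (by omega)) (fun G hG h => ?_)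
  obtain ⟨x, hx, hxb⟩ := hcuts G hG (by omega)
  exact ⟨x, intrinsicInterior_subset hx, hxb⟩

end Pool.Agent.U285.Scrib
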