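import Pool.Agent.U285.Scrib.Build

/-!
# Positivity of functionals on the vertices
-/

namespace Pool.Agent.U285.Scrib

open Submodule Pool.Agent.Helper101_Scrib

variable {d : ℕ}

theorem forall_tri2 {A B C : Fin (d + 1)} {P : Fin (d + 1) → Fin (d + 1) → Prop}
    (h1 : P A B) (h2 : P A C) (h3 : P B A) (h4 : P B C) (h5 : P C A) (h6 : P C B) :
    ∀ k l, k ∈ tri A B C → l ∈ tri A B C → k ≠ l → P k l := by
  intro k l hk hl hkl
  rw [mem_tri] at hk hl
  rcases hk with rfl | rfl | rfl <;> rcases hl with rfl | rfl | rfl <;>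
    first | assumption | exact absurd rfl hkl

theorem forall_tri3 {A B C : Fin (d + 1)} {P : Fin (d + 1) → Fin (d + 1) → Fin (d + 1) → Prop}
    (h1 : P A B C) (h2 : P A C B) (h3 : P B A C) (h4 : P B C A) (h5 : P C A B) (h6 : P C B A) :
    ∀ k l m, k ∈ tri A B C → l ∈ tri A B C → m ∈ tri A B C → Dis k l m → P k l m := by
  intro k l m hk hl hm hd
  obtain ⟨e1, e2, e3⟩ := hd
  rw [mem_tri] at hk hl hm
  rcases hk with rfl | rfl | rfl <;> rcases hl with rfl | rfl | rfl <;>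
    first
    | exact absurd rfl e1
    | (rcases hm with rfl | rfl | rfl <;>
        first | assumption | exact absurd rfl e2 | exact absurd rfl e3)

/-- Two different planes: the second one has an index outside the first one. -/
theorem exists_out {A B C A' B' C' : Fin (d + 1)} (h' : Dis A' B' C')
    (hne : tri A' B' C' ≠ tri A B C) :
    A' ∉ tri A B C ∨ B' ∉ tri A B C ∨ C' ∉ tri A B C := by
  by_contra hcon
  push Not at hcon
  obtain ⟨h1, h2, h3⟩ := hcon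
  apply hne
  apply Finset.eq_of_subset_of_card_le
  · intro k hk
    rw [mem_tri] at hk
    rcases hk with rfl | rfl | rfl <;> assumption
  · have : (tri A' B' C').card = 3 := by
      unfold tri
      rw [Finset.card_insert_of_notMem, Finset.card_insert_of_notMem, Finset.card_singleton]
      · simpa using h'.2.2
      · simpa using ⟨h'.1, h'.2.1⟩
    rw [this]
    exact card_tri _ _ _

/-- Coefficient bounds for the functionals attached to a plane. -/
structure Big (T : Finset (Fin (d + 1))) (h : Fin (d + 1) → ℝ) : Prop where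
  lo : ∀ m, -1 ≤ h m
  hi : ∀ m, h m ≤ 11000000000
  out : ∀ m, m ∉ T → 100000 ≤ h m

theorem J.bounds {j : ℝ} (hj : Frm.J j) : -1 ≤ j ∧ j ≤ 1 ∧ 0 ≤ j ^ 2 ∧ j ^ 2 ≤ 1 := by
  rcases hj with rfl | rfl | rfl <;> norm_num

namespace Frm

variable (F : Frm d)

theorem lam_lo (r : Fin 3) (t : Fin 2) : 1 ≤ lam r t := by
  fin_cases r <;> fin_cases t <;> norm_num [lam]

theorem lam_hi (r : Fin 3) (t : Fin 2) : lam r t ≤ 2 := by
  fin_cases r <;> fin_cases t <;> norm_num [lam]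

/-- The vertex `sg` is one of the vertices of the twelve-gon. -/
theorem sg_cases (A B C : Fin (d + 1)) (r : Fin 3) (t : Fin 2) {P : Amb d → Prop}
    (h1 : P (F.u A C)) (h2 : P (F.s B A C)) (h3 : P (F.s A B C)) (h4 : P (F.u C B))
    (h5 : P (F.u A B)) (h6 : P (F.u C A)) : P (F.sg A B C r t) := by
  fin_cases r <;> fin_cases t <;> assumption

theorem sg_lo {h : Fin (d + 1) → ℝ} (hlo : ∀ m, -1 ≤ h m) (A B C : Fin (d + 1)) (r : Fin 3)
    (t : Fin 2) : -15 ≤ F.lf h (F.sg A B C r t) := by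
  have a1 := hlo A
  have a2 := hlo B
  have a3 := hlo C
  apply F.sg_cases A B C r t (P := fun v => -15 ≤ F.lf h v) <;> simp only [lf_u, lf_s] <;>
    linarith

end Frm

theorem Big.u_pos (F : Frm d) {T : Finset (Fin (d + 1))} {h : Fin (d + 1) → ℝ} (hB : Big T h)
    {k l : Fin (d + 1)} (hkl : ¬ (k ∈ T ∧ l ∈ T)) : 0 < F.lf h (F.u k l) := by
  rw [F.lf_u]
  have a1 := hB.lo k
  have a2 := hB.lo l
  by_cases hk : k ∈ T
  · have hl : l ∉ T := fun hl => hkl ⟨hk, hl⟩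
    have := hB.out l hl
    linarith
  · have := hB.out k hk
    linarith

theorem Big.s_pos (F : Frm d) {T : Finset (Fin (d + 1))} {h : Fin (d + 1) → ℝ} (hB : Big T h)
    {k l m : Fin (d + 1)} (hkl : ¬ (k ∈ T ∧ l ∈ T ∧ m ∈ T)) : 0 < F.lf h (F.s k l m) := by
  rw [F.lf_s]
  have a1 := hB.lo k
  have a2 := hB.lo l
  have a3 := hB.lo m
  by_cases hk : k ∈ T
  · by_cases hl : l ∈ T
    · have hm : m ∉ T := fun hm => hkl ⟨hk, hl, hm⟩
      have := hB.out m hm
      linarith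
    · have := hB.out l hl
      linarith
  · have := hB.out k hk
    linarith

theorem Big.y_pos (F : Frm d) {A B C : Fin (d + 1)} {h : Fin (d + 1) → ℝ}
    (hB : Big (tri A B C) h) {A' B' C' : Fin (d + 1)} (h' : Dis A' B' C')
    (hne : tri A' B' C' ≠ tri A B C) (r : Fin 3) (t : Fin 2) {j : ℝ} (hj : Frm.J j) :
    0 < F.lf h (F.y A' B' C' r t j) := by
  rw [F.lf_y]
  obtain ⟨j1, j2, j3, j4⟩ := J.bounds hj
  have z1 := pos_lo A' B' C' r
  have z2 := pos_hi A' B' C' r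
  obtain ⟨Z, hZ⟩ : ∃ Z, Z = pos A' B' C' r := ⟨_, rfl⟩
  rw [← hZ] at z1 z2 ⊢
  have a1 := hB.lo A'
  have a2 := hB.lo B'
  have a3 := hB.lo C'
  have hS : 99998 ≤ h A' + h B' + h C' := by
    rcases exists_out h' hne with h1 | h1 | h1
    · have := hB.out _ h1
      linarith
    · have := hB.out _ h1
      linarith
    · have := hB.out _ h1
      linarith
  have hc : 800000 ≤ 100000 * (Z ^ 2 - 2 * Z * j) := by nlinarith
  have p1 : 800000 * 99998 ≤ 100000 * (Z ^ 2 - 2 * Z * j) * (h A' + h B' + h C') :=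
    mul_le_mul hc hS (by norm_num) (by linarith)
  have q1 := Frm.lam_lo r t
  have q2 := Frm.lam_hi r t
  have q3 : 0 ≤ (1 + j ^ 2) * Frm.lam r t := by positivity
  have q4 : (1 + j ^ 2) * Frm.lam r t ≤ 4 := by nlinarith
  have q5 := F.sg_lo hB.lo A' B' C' r t
  have p2 : -60 ≤ (1 + j ^ 2) * Frm.lam r t * F.lf h (F.sg A' B' C' r t) := by nlinarith
  have q6 := hB.lo (F.ca (tri A' B' C'))
  have p3 : -101 ≤ (104 - Z + j) * h (F.ca (tri A' B' C')) := by nlinarith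
  have p4 := hB.hi (F.cb (tri A' B' C'))
  linarith

/-- The data of a functional attached to a gadget. -/
structure Loc (F : Frm d) (A B C : Fin (d + 1)) (r : Fin 3) (h : Fin (d + 1) → ℝ) (α β : ℝ) :
    Prop where
  dis : Dis A B C
  big : Big (tri A B C) h
  sum_lo : 1 ≤ h A + h B + h C
  ha : h (F.ca (tri A B C)) = 200000 * pos A B C r * (h A + h B + h C) + α
  hb : h (F.cb (tri A B C)) = 100000 * pos A B C r ^ 2 * (h A + h B + h C) +
    (200000 * pos A B C r * (h A + h B + h C) + α) * (104 - pos A B C r) + β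
  α_lo : -24 ≤ α
  α_hi : α ≤ 24
  β_hi : β ≤ 12
  hu : ∀ k l, k ∈ tri A B C → l ∈ tri A B C → k ≠ l → 0 ≤ 2 * h k + h l
  hs : ∀ k l m, k ∈ tri A B C → l ∈ tri A B C → m ∈ tri A B C → Dis k l m →
    0 ≤ 12 * h k + 2 * h l + h m
  own : ∀ t j, Frm.J j → 0 ≤ (1 + j ^ 2) * Frm.lam r t * F.lf h (F.sg A B C r t) + α * j - β

namespace Loc

variable {F : Frm d} {A B C : Fin (d + 1)} {r : Fin 3} {h : Fin (d + 1) → ℝ} {α β : ℝ}

theorem y_own (L : Loc F A B C r h α β) (t : Fin 2) (j : ℝ) :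
    F.lf h (F.y A B C r t j) =
      (1 + j ^ 2) * Frm.lam r t * F.lf h (F.sg A B C r t) + α * j - β := by
  rw [F.lf_y, L.ha, L.hb]
  ring

theorem sg_nonneg (L : Loc F A B C r h α β) {A' B' C' : Fin (d + 1)} (h' : Dis A' B' C')
    (hT : tri A' B' C' = tri A B C) (r' : Fin 3) (t : Fin 2) :
    0 ≤ F.lf h (F.sg A' B' C' r' t) := by
  have hA : A' ∈ tri A B C := by rw [← hT]; simp [tri]
  have hB : B' ∈ tri A B C := by rw [← hT]; simp [tri]
  have hC : C' ∈ tri A B C := by rw [← hT]; simp [tri]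
  obtain ⟨h1, h2, h3⟩ := h'
  apply F.sg_cases A' B' C' r' t (P := fun v => 0 ≤ F.lf h v) <;> simp only [Frm.lf_u, Frm.lf_s]
  · exact L.hu _ _ hA hC h2
  · exact L.hs _ _ _ hB hA hC ⟨h1.symm, h3, h2⟩
  · exact L.hs _ _ _ hA hB hC ⟨h1, h2, h3⟩
  · exact L.hu _ _ hC hB h3.symm
  · exact L.hu _ _ hA hB h1
  · exact L.hu _ _ hC hA h2.symm

theorem y_other (L : Loc F A B C r h α β) {A' B' C' : Fin (d + 1)} (h' : Dis A' B' C')
    (hT : tri A' B' C' = tri A B C) {r' : Fin 3} (hne : ¬ (A' = A ∧ B' = B ∧ C' = C ∧ r' = r))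
    (t : Fin 2) {j : ℝ} (hj : Frm.J j) : 0 < F.lf h (F.y A' B' C' r' t j) := by
  have hgap := pos_gap L.dis h' hT hne
  have hsg := L.sg_nonneg h' hT r' t
  rw [F.lf_y, hT, L.ha, L.hb]
  have hsum : h A' + h B' + h C' = h A + h B + h C := by
    have e1 : ∑ k ∈ tri A' B' C', h k = h A' + h B' + h C' := by
      unfold tri
      rw [Finset.sum_insert, Finset.sum_insert, Finset.sum_singleton]
      · ring
      · simpa using h'.2.2
      · simpa using ⟨h'.1, h'.2.1⟩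
    have e2 : ∑ k ∈ tri A B C, h k = h A + h B + h C := by
      unfold tri
      rw [Finset.sum_insert, Finset.sum_insert, Finset.sum_singleton]
      · ring
      · simpa using L.dis.2.2
      · simpa using ⟨L.dis.1, L.dis.2.1⟩
    rw [← e1, ← e2, hT]
  rw [hsum]
  obtain ⟨j1, j2, j3, j4⟩ := J.bounds hj
  have z1 := pos_lo A' B' C' r'
  have z2 := pos_hi A' B' C' r'
  have w1 := pos_lo A B C r
  have w2 := pos_hi A B C r
  obtain ⟨Z, hZ⟩ : ∃ Z, Z = pos A' B' C' r' := ⟨_, rfl⟩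
  obtain ⟨W, hW⟩ : ∃ W, W = pos A B C r := ⟨_, rfl⟩
  rw [← hZ] at z1 z2 hgap ⊢
  rw [← hW] at w1 w2 hgap ⊢
  obtain ⟨S, hS⟩ : ∃ S, S = h A + h B + h C := ⟨_, rfl⟩
  have hS1 : 1 ≤ S := by rw [hS]; exact L.sum_lo
  rw [← hS]
  have q1 := Frm.lam_lo r' t
  have p2 : 0 ≤ (1 + j ^ 2) * Frm.lam r' t * F.lf h (F.sg A' B' C' r' t) := by positivity
  have hD : 8 ≤ (W - Z) * (W - Z + 2 * j) := by
    rcases hgap with hg | hg <;> nlinarith
  have p1 : 800000 * 1 ≤ 100000 * ((W - Z) * (W - Z + 2 * j)) * S :=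
    mul_le_mul (by linarith) hS1 (by norm_num) (by linarith)
  have b1 := L.α_lo
  have b2 := L.α_hi
  have b3 := L.β_hi
  have p3 : -(24 * 93) ≤ α * (W - Z + j) := by
    have c1 : |α| ≤ 24 := abs_le.2 ⟨b1, b2⟩
    have c2 : |W - Z + j| ≤ 93 := abs_le.2 ⟨by linarith, by linarith⟩
    have c3 : |α * (W - Z + j)| ≤ 24 * 93 := by
      rw [abs_mul]
      exact mul_le_mul c1 c2 (abs_nonneg _) (by norm_num)
    exact (abs_le.1 c3).1
  have key : 100000 * (Z ^ 2 - 2 * Z * j) * S +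
      (1 + j ^ 2) * Frm.lam r' t * F.lf h (F.sg A' B' C' r' t) +
      (104 - Z + j) * (200000 * W * S + α) -
      (100000 * W ^ 2 * S + (200000 * W * S + α) * (104 - W) + β) =
      100000 * ((W - Z) * (W - Z + 2 * j)) * S +
      (1 + j ^ 2) * Frm.lam r' t * F.lf h (F.sg A' B' C' r' t) + α * (W - Z + j) - β := by
    ring
  rw [key]
  linarith

theorem nonneg (L : Loc F A B C r h α β) : ∀ v ∈ F.verts, 0 ≤ F.lf h v := by
  intro v hv
  rcases (F.mem_verts v).1 hv with ⟨k, l, hkl, rfl⟩ | ⟨k, l, m, hd, rfl⟩ |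
    ⟨A', B', C', r', t, j, hd, hj, rfl⟩
  · by_cases hin : k ∈ tri A B C ∧ l ∈ tri A B C
    · rw [F.lf_u]
      exact L.hu _ _ hin.1 hin.2 hkl
    · exact (L.big.u_pos F hin).le
  · by_cases hin : k ∈ tri A B C ∧ l ∈ tri A B C ∧ m ∈ tri A B C
    · rw [F.lf_s]
      exact L.hs _ _ _ hin.1 hin.2.1 hin.2.2 hd
    · exact (L.big.s_pos F hin).le
  · by_cases hT : tri A' B' C' = tri A B C
    · by_cases hne : A' = A ∧ B' = B ∧ C' = C ∧ r' = r
      · obtain ⟨rfl, rfl, rfl, rfl⟩ := hne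
        rw [L.y_own]
        exact L.own t j hj
      · exact (L.y_other hd hT hne t hj).le
    · exact (L.big.y_pos F hd hT r' t hj).le

theorem zero (L : Loc F A B C r h α β) {v : Amb d} (hv : v ∈ F.verts) (h0 : F.lf h v = 0) :
    (∃ k l, k ∈ tri A B C ∧ l ∈ tri A B C ∧ k ≠ l ∧ v = F.u k l ∧ 2 * h k + h l = 0) ∨
    (∃ k l m, k ∈ tri A B C ∧ l ∈ tri A B C ∧ m ∈ tri A B C ∧ Dis k l m ∧ v = F.s k l m ∧
      12 * h k + 2 * h l + h m = 0) ∨
    ∃ t j, Frm.J j ∧ v = F.y A B C r t j ∧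
      (1 + j ^ 2) * Frm.lam r t * F.lf h (F.sg A B C r t) + α * j - β = 0 := by
  rcases (F.mem_verts v).1 hv with ⟨k, l, hkl, rfl⟩ | ⟨k, l, m, hd, rfl⟩ |
    ⟨A', B', C', r', t, j, hd, hj, rfl⟩
  · by_cases hin : k ∈ tri A B C ∧ l ∈ tri A B C
    · rw [F.lf_u] at h0
      exact Or.inl ⟨k, l, hin.1, hin.2, hkl, rfl, h0⟩
    · exact absurd h0 (L.big.u_pos F hin).ne'
  · by_cases hin : k ∈ tri A B C ∧ l ∈ tri A B C ∧ m ∈ tri A B C
    · rw [F.lf_s] at h0
      exact Or.inr (Or.inl ⟨k, l, m, hin.1, hin.2.1, hin.2.2, hd, rfl, h0⟩)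
    · exact absurd h0 (L.big.s_pos F hin).ne'
  · by_cases hT : tri A' B' C' = tri A B C
    · by_cases hne : A' = A ∧ B' = B ∧ C' = C ∧ r' = r
      · obtain ⟨rfl, rfl, rfl, rfl⟩ := hne
        rw [L.y_own] at h0
        exact Or.inr (Or.inr ⟨t, j, hj, rfl, h0⟩)
      · exact absurd h0 (L.y_other hd hT hne t hj).ne'
    · exact absurd h0 (L.big.y_pos F hd hT r' t hj).ne'

end Loc

end Pool.Agent.U285.Scrib
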