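import Pool.Agent.U285.Scrib.Fun

/-!
# The zero sets of the functionals
-/

set_option linter.unusedSimpArgs false

namespace Pool.Agent.U285.Scrib

open Submodule Pool.Agent.Helper101_Scrib

variable {d : ℕ}

namespace Frm

variable (F : Frm d)

theorem st_zero {A B C : Fin (d + 1)} (hd : Dis A B C) (r : Fin 3) (t : Fin 2) {v : Amb d}
    (hv : v ∈ F.verts) (h0 : F.lf (F.st A B C r t) v = 0) :
    v = F.sg A B C r t ∨ ∃ j, J j ∧ v = F.y A B C r t j := by
  have hu : ∀ k l, k ∈ tri A B C → l ∈ tri A B C → k ≠ l →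
      (2 * F.st A B C r t k + F.st A B C r t l = 0 → F.u k l = F.sg A B C r t) := by
    revert r t
    apply rt_cases <;> intro _ <;> apply forall_tri2 <;> intro h0 <;>
      first
      | rfl
      | (exfalso
         simp only [st, F.loc_A, F.loc_B hd, F.loc_C hd] at h0
         norm_num [stf] at h0)
  have hs : ∀ k l m, k ∈ tri A B C → l ∈ tri A B C → m ∈ tri A B C → Dis k l m →
      (12 * F.st A B C r t k + 2 * F.st A B C r t l + F.st A B C r t m = 0 →
        F.s k l m = F.sg A B C r t) := by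
    revert r t
    apply rt_cases <;> intro _ <;> intro _ <;> apply forall_tri3 <;> intro h0 <;>
      first
      | rfl
      | (exfalso
         simp only [st, F.loc_A, F.loc_B hd, F.loc_C hd] at h0
         norm_num [stf] at h0)
  rcases (F.st_Loc hd r t).zero hv h0 with ⟨k, l, hk, hl, hkl, rfl, h1⟩ |
    ⟨k, l, m, hk, hl, hm, hdis, rfl, h1⟩ | ⟨t', j, hj, rfl, h1⟩
  · exact Or.inl (hu k l hk hl hkl h1)
  · exact Or.inl (hs k l m hk hl hm hdis h1)
  · right
    by_cases ht : t' = t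
    · subst ht
      exact ⟨j, hj, rfl⟩
    · exfalso
      have h2 := F.st_sg_pos hd r t t' ht
      have h3 := lam_lo r t'
      have : 0 < (1 + j ^ 2) * lam r t' * F.lf (F.st A B C r t) (F.sg A B C r t') := by positivity
      linarith

theorem st_y {A B C : Fin (d + 1)} (hd : Dis A B C) (r : Fin 3) (t : Fin 2) (j : ℝ) :
    F.lf (F.st A B C r t) (F.y A B C r t j) = 0 := by
  rw [(F.st_Loc hd r t).y_own, F.st_sg hd]
  ring

theorem st_y_pos {A B C : Fin (d + 1)} (hd : Dis A B C) (r : Fin 3) (t t' : Fin 2) (ht : t' ≠ t)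
    (j : ℝ) : 0 < F.lf (F.st A B C r t) (F.y A B C r t' j) := by
  rw [(F.st_Loc hd r t).y_own]
  have h2 := F.st_sg_pos hd r t t' ht
  have h3 := lam_lo r t'
  have : 0 < (1 + j ^ 2) * lam r t' * F.lf (F.st A B C r t) (F.sg A B C r t') := by positivity
  linarith

theorem crE_pos (r : Fin 3) (i : Fin 2) : 0 < crE r i := by
  revert r i
  apply rt_cases <;> norm_num [crE]

theorem cr_y {A B C : Fin (d + 1)} (hd : Dis A B C) (r : Fin 3) (i t : Fin 2) {j : ℝ} (hj : J j)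
    (j' : ℝ) : F.lf (F.cr A B C r i j) (F.y A B C r t j') = crE r i * (j' - j) ^ 2 := by
  rw [(F.cr_Loc hd r i hj).y_own, mul_assoc (1 + j' ^ 2), F.cr_sg hd]
  ring

theorem cr_eg1 {A B C : Fin (d + 1)} (hd : Dis A B C) (r : Fin 3) (i : Fin 2) (j : ℝ) :
    F.lf (F.cr A B C r i j) (F.eg A B C r i).1 = 0 := by
  revert r i
  apply rt_cases
  · show F.lf _ (F.u A B) = 0
    simp only [lf_u, cr, F.loc_A, F.loc_B hd, F.loc_C hd]
    norm_num [crf]
  · show F.lf _ (F.u B C) = 0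
    simp only [lf_u, cr, F.loc_A, F.loc_B hd, F.loc_C hd]
    norm_num [crf]
  · show F.lf _ (F.u A C) = 0
    simp only [lf_u, cr, F.loc_A, F.loc_B hd, F.loc_C hd]
    norm_num [crf]
  · show F.lf _ (F.u A B) = 0
    simp only [lf_u, cr, F.loc_A, F.loc_B hd, F.loc_C hd]
    norm_num [crf]
  · show F.lf _ (F.u A C) = 0
    simp only [lf_u, cr, F.loc_A, F.loc_B hd, F.loc_C hd]
    norm_num [crf]
  · show F.lf _ (F.u B C) = 0
    simp only [lf_u, cr, F.loc_A, F.loc_B hd, F.loc_C hd]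
    norm_num [crf]

theorem cr_eg2 {A B C : Fin (d + 1)} (hd : Dis A B C) (r : Fin 3) (i : Fin 2) (j : ℝ) :
    F.lf (F.cr A B C r i j) (F.eg A B C r i).2 = 0 := by
  revert r i
  apply rt_cases
  · show F.lf _ (F.u B A) = 0
    simp only [lf_u, cr, F.loc_A, F.loc_B hd, F.loc_C hd]
    norm_num [crf]
  · show F.lf _ (F.u C B) = 0
    simp only [lf_u, cr, F.loc_A, F.loc_B hd, F.loc_C hd]
    norm_num [crf]
  · show F.lf _ (F.s A C B) = 0
    simp only [lf_s, cr, F.loc_A, F.loc_B hd, F.loc_C hd]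
    norm_num [crf]
  · show F.lf _ (F.u B A) = 0
    simp only [lf_u, cr, F.loc_A, F.loc_B hd, F.loc_C hd]
    norm_num [crf]
  · show F.lf _ (F.s A C B) = 0
    simp only [lf_s, cr, F.loc_A, F.loc_B hd, F.loc_C hd]
    norm_num [crf]
  · show F.lf _ (F.u C B) = 0
    simp only [lf_u, cr, F.loc_A, F.loc_B hd, F.loc_C hd]
    norm_num [crf]

theorem cr_sg_pos {A B C : Fin (d + 1)} (hd : Dis A B C) (r : Fin 3) (i t : Fin 2) (j : ℝ) :
    0 < F.lf (F.cr A B C r i j) (F.sg A B C r t) := by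
  have h1 := F.cr_sg hd r i j t
  have h2 := crE_pos r i
  have h3 := lam_lo r t
  rw [← h1] at h2
  exact (mul_pos_iff_of_pos_left (by linarith)).1 h2

theorem cr_zero {A B C : Fin (d + 1)} (hd : Dis A B C) (r : Fin 3) (i : Fin 2) {j : ℝ} (hj : J j)
    {v : Amb d} (hv : v ∈ F.verts) (h0 : F.lf (F.cr A B C r i j) v = 0) :
    v = (F.eg A B C r i).1 ∨ v = (F.eg A B C r i).2 ∨ ∃ t, v = F.y A B C r t j := by
  have hu : ∀ k l, k ∈ tri A B C → l ∈ tri A B C → k ≠ l →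
      (2 * F.cr A B C r i j k + F.cr A B C r i j l = 0 →
        F.u k l = (F.eg A B C r i).1 ∨ F.u k l = (F.eg A B C r i).2) := by
    revert r i
    apply rt_cases <;> intro _ <;> apply forall_tri2 <;> intro h0 <;>
      first
      | exact Or.inl rfl
      | exact Or.inr rfl
      | (exfalso
         simp only [cr, F.loc_A, F.loc_B hd, F.loc_C hd] at h0
         norm_num [crf] at h0)
  have hs : ∀ k l m, k ∈ tri A B C → l ∈ tri A B C → m ∈ tri A B C → Dis k l m →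
      (12 * F.cr A B C r i j k + 2 * F.cr A B C r i j l + F.cr A B C r i j m = 0 →
        F.s k l m = (F.eg A B C r i).1 ∨ F.s k l m = (F.eg A B C r i).2) := by
    revert r i
    apply rt_cases <;> intro _ <;> intro _ <;> apply forall_tri3 <;> intro h0 <;>
      first
      | exact Or.inl rfl
      | exact Or.inr rfl
      | (exfalso
         simp only [cr, F.loc_A, F.loc_B hd, F.loc_C hd] at h0
         norm_num [crf] at h0)
  rcases (F.cr_Loc hd r i hj).zero hv h0 with ⟨k, l, hk, hl, hkl, rfl, h1⟩ |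
    ⟨k, l, m, hk, hl, hm, hdis, rfl, h1⟩ | ⟨t', j', hj', rfl, h1⟩
  · rcases hu k l hk hl hkl h1 with h | h
    · exact Or.inl h
    · exact Or.inr (Or.inl h)
  · rcases hs k l m hk hl hm hdis h1 with h | h
    · exact Or.inl h
    · exact Or.inr (Or.inl h)
  · right
    right
    rw [F.cr_y hd r i t' hj] at h0
    have h2 := crE_pos r i
    have h3 : (j' - j) ^ 2 = 0 := (mul_eq_zero.1 h0).resolve_left h2.ne'
    have h4 : j' = j := sub_eq_zero.1 (pow_eq_zero_iff (two_ne_zero) |>.1 h3)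
    rw [h4]
    exact ⟨t', rfl⟩

/-- The functional exposing the twelve-gon of a plane. -/
noncomputable def pl (A B C : Fin (d + 1)) : Fin (d + 1) → ℝ := fun m =>
  if m ∈ tri A B C then 0 else if m = F.ca (tri A B C) then 200000 else 100000

theorem pl_T {A B C m : Fin (d + 1)} (h : m ∈ tri A B C) : F.pl A B C m = 0 := by simp [pl, h]

theorem pl_ca (A B C : Fin (d + 1)) : F.pl A B C (F.ca (tri A B C)) = 200000 := by
  simp [pl, F.ha (tri A B C) (card_tri _ _ _)]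

theorem pl_cb (A B C : Fin (d + 1)) : F.pl A B C (F.cb (tri A B C)) = 100000 := by
  simp [pl, F.hb (tri A B C) (card_tri _ _ _), F.hab (tri A B C) (card_tri _ _ _)]

theorem pl_big (A B C : Fin (d + 1)) : Big (tri A B C) (F.pl A B C) := by
  refine ⟨fun m => ?_, fun m => ?_, fun m hm => ?_⟩
  · unfold pl; split_ifs <;> norm_num
  · unfold pl; split_ifs <;> norm_num
  · unfold pl; rw [if_neg hm]; split_ifs <;> norm_num

theorem pl_u {A B C k l : Fin (d + 1)} (hk : k ∈ tri A B C) (hl : l ∈ tri A B C) :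
    F.lf (F.pl A B C) (F.u k l) = 0 := by
  rw [F.lf_u, F.pl_T hk, F.pl_T hl]; ring

theorem pl_s {A B C k l m : Fin (d + 1)} (hk : k ∈ tri A B C) (hl : l ∈ tri A B C)
    (hm : m ∈ tri A B C) : F.lf (F.pl A B C) (F.s k l m) = 0 := by
  rw [F.lf_s, F.pl_T hk, F.pl_T hl, F.pl_T hm]; ring

theorem pl_y_pos {A B C : Fin (d + 1)} {A' B' C' : Fin (d + 1)} (h' : Dis A' B' C') (r : Fin 3)
    (t : Fin 2) {j : ℝ} (hj : J j) : 0 < F.lf (F.pl A B C) (F.y A' B' C' r t j) := by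
  by_cases hT : tri A' B' C' = tri A B C
  · have hA : A' ∈ tri A B C := by rw [← hT]; simp [tri]
    have hB : B' ∈ tri A B C := by rw [← hT]; simp [tri]
    have hC : C' ∈ tri A B C := by rw [← hT]; simp [tri]
    have hsg : F.lf (F.pl A B C) (F.sg A' B' C' r t) = 0 := by
      apply F.sg_cases A' B' C' r t (P := fun v => F.lf (F.pl A B C) v = 0)
      · exact F.pl_u hA hC
      · exact F.pl_s hB hA hC
      · exact F.pl_s hA hB hC
      · exact F.pl_u hC hB
      · exact F.pl_u hA hB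
      · exact F.pl_u hC hA
    rw [F.lf_y, F.pl_T hA, F.pl_T hB, F.pl_T hC, hsg, hT, F.pl_ca, F.pl_cb]
    obtain ⟨j1, j2, j3, j4⟩ := J.bounds hj
    have z2 := pos_hi A' B' C' r
    nlinarith
  · exact (F.pl_big A B C).y_pos F h' hT r t hj

theorem pl_nonneg (A B C : Fin (d + 1)) : ∀ v ∈ F.verts, 0 ≤ F.lf (F.pl A B C) v := by
  intro v hv
  rcases (F.mem_verts v).1 hv with ⟨k, l, hkl, rfl⟩ | ⟨k, l, m, hd, rfl⟩ |
    ⟨A', B', C', r', t, j, hd, hj, rfl⟩
  · by_cases hin : k ∈ tri A B C ∧ l ∈ tri A B C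
    · rw [F.pl_u hin.1 hin.2]
    · exact ((F.pl_big A B C).u_pos F hin).le
  · by_cases hin : k ∈ tri A B C ∧ l ∈ tri A B C ∧ m ∈ tri A B C
    · rw [F.pl_s hin.1 hin.2.1 hin.2.2]
    · exact ((F.pl_big A B C).s_pos F hin).le
  · exact (F.pl_y_pos hd r' t hj).le

theorem pl_zero {A B C : Fin (d + 1)} {v : Amb d} (hv : v ∈ F.verts)
    (h0 : F.lf (F.pl A B C) v = 0) :
    (∃ k l, k ∈ tri A B C ∧ l ∈ tri A B C ∧ k ≠ l ∧ v = F.u k l) ∨
    (∃ k l m, k ∈ tri A B C ∧ l ∈ tri A B C ∧ m ∈ tri A B C ∧ Dis k l m ∧ v = F.s k l m) := by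
  rcases (F.mem_verts v).1 hv with ⟨k, l, hkl, rfl⟩ | ⟨k, l, m, hd, rfl⟩ |
    ⟨A', B', C', r', t, j, hd, hj, rfl⟩
  · by_cases hin : k ∈ tri A B C ∧ l ∈ tri A B C
    · exact Or.inl ⟨k, l, hin.1, hin.2, hkl, rfl⟩
    · exact absurd h0 ((F.pl_big A B C).u_pos F hin).ne'
  · by_cases hin : k ∈ tri A B C ∧ l ∈ tri A B C ∧ m ∈ tri A B C
    · exact Or.inr ⟨k, l, m, hin.1, hin.2.1, hin.2.2, hd, rfl⟩
    · exact absurd h0 ((F.pl_big A B C).s_pos F hin).ne'
  · exact absurd h0 (F.pl_y_pos hd r' t hj).ne'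

/-- The functional exposing a deep facet. -/
noncomputable def ff (k : Fin (d + 1)) : Fin (d + 1) → ℝ := fun m => if m = k then -1 else 4

theorem ff_self (k : Fin (d + 1)) : ff k k = -1 := by simp [ff]

theorem ff_ne {k m : Fin (d + 1)} (h : m ≠ k) : ff k m = 4 := by simp [ff, h]

theorem ff_lo (k m : Fin (d + 1)) : -1 ≤ ff k m := by unfold ff; split_ifs <;> norm_num

theorem ff_hi (k m : Fin (d + 1)) : ff k m ≤ 4 := by unfold ff; split_ifs <;> norm_num

theorem ff_u_pos (k : Fin (d + 1)) {m n : Fin (d + 1)} (h : m ≠ n) :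
    0 < F.lf (ff k) (F.u m n) := by
  rw [F.lf_u]
  by_cases hm : m = k
  · subst hm
    rw [ff_self, ff_ne h.symm]; norm_num
  · rw [ff_ne hm]
    have := ff_lo k n
    linarith

theorem ff_s {k l m : Fin (d + 1)} (h : Dis k l m) : F.lf (ff k) (F.s k l m) = 0 := by
  rw [F.lf_s, ff_self, ff_ne h.1.symm, ff_ne h.2.1.symm]; norm_num

theorem ff_s_pos {k m n p : Fin (d + 1)} (hm : m ≠ k) : 0 < F.lf (ff k) (F.s m n p) := by
  rw [F.lf_s, ff_ne hm]
  have := ff_lo k n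
  have := ff_lo k p
  linarith

theorem ff_y_pos (k : Fin (d + 1)) {A B C : Fin (d + 1)} (h : Dis A B C) (r : Fin 3) (t : Fin 2)
    {j : ℝ} (hj : J j) : 0 < F.lf (ff k) (F.y A B C r t j) := by
  rw [F.lf_y]
  obtain ⟨j1, j2, j3, j4⟩ := J.bounds hj
  have z1 := pos_lo A B C r
  have z2 := pos_hi A B C r
  obtain ⟨Z, hZ⟩ : ∃ Z, Z = pos A B C r := ⟨_, rfl⟩
  rw [← hZ] at z1 z2 ⊢
  have hS : 7 ≤ ff k A + ff k B + ff k C := by
    have e1 := ff_lo k A
    have e2 := ff_lo k B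
    have e3 := ff_lo k C
    by_cases hA : A = k
    · have hB : B ≠ k := fun hB => h.1 (hA.trans hB.symm)
      have hC : C ≠ k := fun hC => h.2.1 (hA.trans hC.symm)
      rw [ff_ne hB, ff_ne hC]; linarith
    · by_cases hB : B = k
      · have hC : C ≠ k := fun hC => h.2.2 (hB.trans hC.symm)
        rw [ff_ne hA, ff_ne hC]; linarith
      · rw [ff_ne hA, ff_ne hB]; linarith
  have hc : 800000 ≤ 100000 * (Z ^ 2 - 2 * Z * j) := by nlinarith
  have p1 : 800000 * 7 ≤ 100000 * (Z ^ 2 - 2 * Z * j) * (ff k A + ff k B + ff k C) :=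
    mul_le_mul hc hS (by norm_num) (by linarith)
  have q1 := Frm.lam_lo r t
  have q2 := Frm.lam_hi r t
  have q3 : 0 ≤ (1 + j ^ 2) * Frm.lam r t := by positivity
  have q4 : (1 + j ^ 2) * Frm.lam r t ≤ 4 := by nlinarith
  have q5 := F.sg_lo (ff_lo k) A B C r t
  have p2 : -60 ≤ (1 + j ^ 2) * Frm.lam r t * F.lf (ff k) (F.sg A B C r t) := by nlinarith
  have q6 := ff_lo k (F.ca (tri A B C))
  have p3 : -101 ≤ (104 - Z + j) * ff k (F.ca (tri A B C)) := by nlinarith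
  have p4 := ff_hi k (F.cb (tri A B C))
  linarith

theorem ff_nonneg (k : Fin (d + 1)) : ∀ v ∈ F.verts, 0 ≤ F.lf (ff k) v := by
  intro v hv
  rcases (F.mem_verts v).1 hv with ⟨m, n, hmn, rfl⟩ | ⟨m, n, p, hd, rfl⟩ |
    ⟨A', B', C', r', t, j, hd, hj, rfl⟩
  · exact (F.ff_u_pos k hmn).le
  · by_cases hm : m = k
    · subst hm
      rw [F.ff_s hd]
    · exact (F.ff_s_pos hm).le
  · exact (F.ff_y_pos k hd r' t hj).le

theorem ff_zero {k : Fin (d + 1)} {v : Amb d} (hv : v ∈ F.verts) (h0 : F.lf (ff k) v = 0) :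
    ∃ l m, Dis k l m ∧ v = F.s k l m := by
  rcases (F.mem_verts v).1 hv with ⟨m, n, hmn, rfl⟩ | ⟨m, n, p, hd, rfl⟩ |
    ⟨A', B', C', r', t, j, hd, hj, rfl⟩
  · exact absurd h0 (F.ff_u_pos k hmn).ne'
  · by_cases hm : m = k
    · subst hm
      exact ⟨n, p, hd, rfl⟩
    · exact absurd h0 (F.ff_s_pos hm).ne'
  · exact absurd h0 (F.ff_y_pos k hd r' t hj).ne'

end Frm

end Pool.Agent.U285.Scrib
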